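import Mathlib
import Pool.Agent.Work.MP_8efaaa_nt.W6.Defs
import Pool.Agent.Work.MP_8efaaa_nt.W6.SX

/-!
# Z6/Ar2 (M): the third symbol

Checked by computer. Model: `W6/SFin.lean` (`nu_final`). `m = u^2 + 2 v^2 = p q`, `u`, `v` are odd (`m = 3 (mod 8)`), `u ≠ 0`. `ω = ⟨x, 2 v y⟩` (`re` odd, `im` even), `X` from `W6.exists_qx`, `nω = nmG ω = x^2 + 4 v^2 y^2 > 0`, `nω = 1 (mod 8)` (`x` odd, `4 ∣ y`).
(1) `p * M^2 = nω + 2 u^2 y^2`, so `X (p * M^2) = X (2 * u^2 * y^2)` (`per`): `X p * X (M^2) = X 2 * X (u^2) * X (y^2)`.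
(2) `X p = 1`: `p ∤ v` (otherwise `p ∣ u`, `p^2 ∣ p q`, `q ≠ p`), `p ∤ y` (`p ∣ x`, coprime), so `p ∤ nω` (`p ∣ x`, `p ∤ 2 v y`). `QX.f1` with `l = p`, `k = ZMod p`, `g : GaussianInt →+* ZMod p` with `g i = j`, `j^2 = -1` (exists as `p = 1 (mod 4)`; see W6/SMul or SPr for the construction): `g ω = 2 v y j` (`x = 0` in `ZMod p`), `nω = (2 v y)^2`: `(2 v y j)^((p-1)/2) * ((2 v y)^2)^((p-1)/4) * g (X p) = 1`, i.e. `j^((p-1)/2) (2 v y)^(p-1) g (X p) = 1`, `j^((p-1)/2) = 1` (`4 ∣ (p-1)/2`), Fermat: `g (X p) = 1`. `X p ^ 4 = 1` (`four`), so `X p ∈ {1, -1, i, -i}` and `g` is injective on these: `X p = 1`.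
(3) `X 2 = ipw (x * (v y)) = 1` (`ω.im / 2 = v y`, `4 ∣ y`). `M`, `u`, `y` are prime to `nω`: a prime `r ∣ nω` is odd, `r ∣ y` would give `r ∣ x`; `r ∣ M` or `r ∣ u` would give `r ∣ 2 u^2 y^2` resp. `r ∣ p M^2`, so by (1) `r ∣ u y` resp. `r ∣ p M`, excluded by `hc` (`M` prime to `2 u p`), or `r = p`: `p ∤ nω`. So by `QX.sq`: `(M/nω) = (u/nω) (y/nω)`.
(4) `nω = 1 (mod 8)`: `(y/nω) = 1`: `y = ± 2^k y0`, `(-1/nω) = (2/nω) = 1`, `(y0/nω) = (nω/y0) = (x^2/y0) = 1`. `(M/nω) = (nω/M) = (-2 u^2 y^2/M) = (-2/M) = 1` (`M = 1 (mod 8)`; `M` is prime to `y`: a common prime divides `x^2`). `(u/nω) = (nω/|u|) = (p M^2/|u|) = (p/|u|) = (|u|/p) = (u/p)` (`p = 1 (mod 4)`). So `(u/p) = 1`.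
-/

set_option autoImplicit false

namespace Pool.Agent.Work.MP_8efaaa_nt.Z6

open Pool.Agent.Work.MP_8efaaa_nt.W6

/-- a fourth root of unity of the Gaussian integers which reduces to `1` modulo `p` is `1` -/
private theorem ar2_sep {p : ℕ} [Fact p.Prime] (hp : p % 8 = 1) (g : GaussianInt →+* ZMod p)
    {z : GaussianInt} (hz : z ^ 4 = 1) (hg : g z = 1) : z = 1 := by
  have h2 : (2 : ZMod p) ≠ 0 := by
    intro h0
    have h1 : ((2 : ℕ) : ZMod p) = 0 := by exact_mod_cast h0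
    rw [ZMod.natCast_eq_zero_iff] at h1
    have := Nat.le_of_dvd (by norm_num) h1
    have := (Fact.out : p.Prime).two_le
    omega
  have h1 : (z - 1) * ((z + 1) * (z ^ 2 + 1)) = 0 := by linear_combination hz
  rcases mul_eq_zero.1 h1 with h3 | h3
  · exact sub_eq_zero.1 h3
  · exfalso
    rcases mul_eq_zero.1 h3 with h4 | h4
    · have h5 := congrArg g h4
      rw [map_add, hg, map_one, map_zero] at h5
      exact h2 (by linear_combination h5)
    · have h5 := congrArg g h4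
      rw [map_add, map_pow, hg, map_one, map_zero] at h5
      exact h2 (by linear_combination h5)

/-- the quartic symbol of `p` -/
private theorem ar2_xp {p : ℕ} (hp : p.Prime) (hp8 : p % 8 = 1) {v x y : ℤ}
    {X : ℤ → GaussianInt} (hX : QX ⟨x, 2 * v * y⟩ X) (hpx : (p : ℤ) ∣ x)
    (hv : ¬ (p : ℤ) ∣ v) (hy : ¬ (p : ℤ) ∣ y) : X p = 1 := by
  have hF : Fact p.Prime := ⟨hp⟩
  have hpz : Prime (p : ℤ) := Nat.prime_iff_prime_int.1 hp
  have hnm : nmG (⟨x, 2 * v * y⟩ : GaussianInt) = x ^ 2 + (2 * v * y) ^ 2 := rfl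
  have h2p : ¬ (p : ℤ) ∣ 2 := by
    intro h0
    have := Int.le_of_dvd (by norm_num) h0
    have := hp.two_le
    omega
  have hw : ¬ (p : ℤ) ∣ 2 * v * y := by
    intro h0
    rcases hpz.dvd_or_dvd h0 with h1 | h1
    · rcases hpz.dvd_or_dvd h1 with h2 | h2
      · exact h2p h2
      · exact hv h2
    · exact hy h1
  have hW : ¬ (p : ℤ) ∣ nmG (⟨x, 2 * v * y⟩ : GaussianInt) := by
    rw [hnm]
    intro h0
    have h1 : (p : ℤ) ∣ (2 * v * y) ^ 2 := by
      have h2 : (p : ℤ) ∣ x ^ 2 := by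
        rw [pow_two]
        exact hpx.mul_right _
      exact (Int.dvd_add_right h2).1 h0
    exact hw (hpz.dvd_of_dvd_pow h1)
  obtain ⟨j, hj⟩ : ∃ j : ZMod p, j ^ 2 = -1 := by
    have h1 : IsSquare (-1 : ZMod p) := by
      rw [ZMod.exists_sq_eq_neg_one_iff]
      omega
    obtain ⟨j, hj⟩ := h1
    exact ⟨j, by rw [hj, pow_two]⟩
  have hjj : j * j = ((-1 : ℤ) : ZMod p) := by
    push_cast
    rw [← pow_two, hj]
  let g : GaussianInt →+* ZMod p := Zsqrtd.lift ⟨j, hjj⟩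
  have hx0 : (x : ZMod p) = 0 := (ZMod.intCast_zmod_eq_zero_iff_dvd x p).2 hpx
  have hw0 : ((2 * v * y : ℤ) : ZMod p) ≠ 0 := fun h0 =>
    hw ((ZMod.intCast_zmod_eq_zero_iff_dvd _ p).1 h0)
  have hgw : g ⟨x, 2 * v * y⟩ = ((2 * v * y : ℤ) : ZMod p) * j := by
    show (x : ZMod p) + ((2 * v * y : ℤ) : ZMod p) * j = _
    rw [hx0, zero_add]
  have h1 := hX.f1 p hp (by omega) hW (ZMod p) g
  have hnz : ((nmG (⟨x, 2 * v * y⟩ : GaussianInt) : ℤ) : ZMod p) = ((2 * v * y : ℤ) : ZMod p) ^ 2 := by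
    rw [hnm, Int.cast_add, Int.cast_pow, hx0, Int.cast_pow]
    ring
  obtain ⟨e, he⟩ : ∃ e : ℕ, p = 8 * e + 1 := ⟨p / 8, by omega⟩
  have e1 : (p - 1) / 2 = 4 * e := by omega
  have e2 : (p - 1) / 4 = 2 * e := by omega
  have e3 : p - 1 = 8 * e := by omega
  have hf := ZMod.pow_card_sub_one_eq_one hw0
  rw [e3] at hf
  have hj4 : j ^ 4 = 1 := by
    linear_combination (j ^ 2 - 1) * hj
  rw [hgw, hnz, e1, e2, mul_pow, pow_mul j, hj4, one_pow, mul_one, ← pow_mul, ← pow_add] at h1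
  have e4 : 4 * e + 2 * (2 * e) = 8 * e := by ring
  rw [e4, hf, one_mul] at h1
  refine ar2_sep hp8 g (hX.four _ ?_) h1
  exact (Nat.prime_iff_prime_int.1 hp).irreducible.coprime_iff_not_dvd.2 hW

theorem redei {p q M : ℕ} (hp : p.Prime) (hq : q.Prime) (hp8 : p % 8 = 1) (hq8 : q % 8 = 3)
    {u v x y : ℤ} (huv : u ^ 2 + 2 * v ^ 2 = p * q)
    (h : x ^ 2 + 2 * (p * q) * y ^ 2 = p * M ^ 2) (hpx : (p : ℤ) ∣ x) (hxy : IsCoprime x y)
    (hx : Odd x) (hy : (4 : ℤ) ∣ y) (hM : M % 8 = 1)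
    (hc : IsCoprime (M : ℤ) (u * (p * q))) : jacobiSym u p = 1 := by
  obtain ⟨X, hX⟩ := exists_qx (ω := ⟨x, 2 * v * y⟩) hx (by
    show Even (2 * v * y)
    exact ⟨v * y, by ring⟩)
  have hpz : Prime (p : ℤ) := Nat.prime_iff_prime_int.1 hp
  -- parity of `u`
  have hm8 : ((p : ℤ) * q) % 8 = 3 := by
    rw [Int.mul_emod]
    have h1 : (p : ℤ) % 8 = 1 := by omega
    have h2 : (q : ℤ) % 8 = 3 := by omega
    rw [h1, h2]
    norm_num
  have huo : Odd u := by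
    rw [← Int.not_even_iff_odd]
    rintro ⟨a, rfl⟩
    have h1 : (p : ℤ) * q = 2 * (2 * a ^ 2 + v ^ 2) := by
      rw [← huv]
      ring
    omega
  -- divisibility by `p`
  have hpy : ¬ (p : ℤ) ∣ y := by
    intro h0
    exact hpz.not_isUnit (hxy.isUnit_of_dvd' hpx h0)
  have hpuv : ∀ _ : (p : ℤ) ∣ u, (p : ℤ) ∣ v → False := by
    rintro ⟨a, ha⟩ ⟨b, hb⟩
    have h1 : (p : ℤ) * q = p * (p * (a ^ 2 + 2 * b ^ 2)) := by
      rw [← huv, ha, hb]
      ring
    have h2 := mul_left_cancel₀ hpz.ne_zero h1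
    have h3 : (p : ℤ) ∣ (q : ℤ) := ⟨_, h2⟩
    have h4 : p ∣ q := by exact_mod_cast h3
    rw [Nat.prime_dvd_prime_iff_eq hp hq] at h4
    omega
  have h2p : ¬ (p : ℤ) ∣ 2 := by
    intro h0
    have := Int.le_of_dvd (by norm_num) h0
    have := hp.two_le
    omega
  have hpv : ¬ (p : ℤ) ∣ v := by
    intro h0
    refine hpuv ?_ h0
    have h1 : (p : ℤ) ∣ u ^ 2 := by
      have h2 : u ^ 2 = p * q - v * (2 * v) := by
        rw [← huv]
        ring
      rw [h2]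
      exact dvd_sub (dvd_mul_right _ _) (h0.mul_right _)
    exact hpz.dvd_of_dvd_pow h1
  have hpu : ¬ (p : ℤ) ∣ u := by
    intro h0
    refine hpuv h0 ?_
    have h1 : (p : ℤ) ∣ 2 * v ^ 2 := by
      have h2 : 2 * v ^ 2 = p * q - u * u := by
        rw [← huv]
        ring
      rw [h2]
      exact dvd_sub (dvd_mul_right _ _) (h0.mul_right _)
    rcases hpz.dvd_or_dvd h1 with h2 | h2
    · exact absurd h2 h2p
    · exact hpz.dvd_of_dvd_pow h2
  have hXp : X p = 1 := ar2_xp hp hp8 hX hpx hpv hpy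
  obtain ⟨W0, hW0⟩ : ∃ W0, W0 = nmG ⟨x, 2 * v * y⟩ := ⟨_, rfl⟩
  have hW0' : W0 = x ^ 2 + (2 * v * y) ^ 2 := hW0
  have hNn : (p : ℤ) * M ^ 2 = W0 + 2 * u ^ 2 * y ^ 2 := by
    rw [← h, hW0', ← huv]
    ring
  -- coprimality
  have hMu : IsCoprime (M : ℤ) u := hc.of_mul_right_left
  have hpu' : IsCoprime (p : ℤ) u := hpz.irreducible.coprime_iff_not_dvd.2 hpu
  have hyx2 : IsCoprime y (x ^ 2) := (hxy.symm).pow_right
  have hyN : IsCoprime y ((p : ℤ) * M ^ 2) := by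
    have h1 := hyx2.add_mul_left_right (2 * (p * q) * y)
    have h2 : x ^ 2 + y * (2 * (p * q) * y) = (p : ℤ) * M ^ 2 := by
      rw [← h]
      ring
    rwa [h2] at h1
  have hyM : IsCoprime y (M : ℤ) := by
    have h1 := hyN.of_mul_right_right
    rw [pow_two] at h1
    exact h1.of_mul_right_left
  have hyW : IsCoprime y W0 := by
    have h1 := hyx2.add_mul_left_right (4 * v ^ 2 * y)
    have h2 : x ^ 2 + y * (4 * v ^ 2 * y) = W0 := by
      rw [hW0']
      ring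
    rwa [h2] at h1
  have huW : IsCoprime u W0 := by
    have h0 : IsCoprime u ((p : ℤ) * M ^ 2) := IsCoprime.mul_right hpu'.symm hMu.symm.pow_right
    have h1 := h0.add_mul_left_right (-(2 * u * y ^ 2))
    have h2 : (p : ℤ) * M ^ 2 + u * (-(2 * u * y ^ 2)) = W0 := by
      rw [hNn]
      ring
    rwa [h2] at h1
  have hMo : Odd M := Nat.odd_iff.2 (by omega)
  have hM2 : IsCoprime (M : ℤ) (-2) := by
    obtain ⟨j, hj⟩ := hMo
    refine ⟨1, j, ?_⟩
    rw [hj]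
    push_cast
    ring
  have hMW : IsCoprime (M : ℤ) W0 := by
    have h0 : IsCoprime (M : ℤ) (-2 * (u * y) ^ 2) :=
      IsCoprime.mul_right hM2 (IsCoprime.mul_right hMu hyM.symm).pow_right
    have h1 := h0.add_mul_left_right ((p : ℤ) * M)
    have h2 : -2 * (u * y) ^ 2 + (M : ℤ) * ((p : ℤ) * M) = W0 := by
      have : (M : ℤ) * ((p : ℤ) * M) = (p : ℤ) * M ^ 2 := by ring
      rw [this, hNn]
      ring
    rwa [h2] at h1
  -- the modulus
  have hx0 : x ≠ 0 := by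
    rintro rfl
    simp at hx
  have hWpos : 0 < W0 := by
    rw [hW0']
    positivity
  obtain ⟨W, hW⟩ : ∃ W : ℕ, W = W0.natAbs := ⟨_, rfl⟩
  have hWW : (W : ℤ) = W0 := by
    rw [hW]
    exact Int.natAbs_of_nonneg hWpos.le
  have hW8 : W % 8 = 1 := by
    have h1 : W0 % 8 = 1 := by
      obtain ⟨a, ha⟩ := hx
      obtain ⟨b, hb⟩ := hy
      obtain ⟨c, hc'⟩ : ∃ c, a * (a + 1) = 2 * c := by
        obtain ⟨c, hc'⟩ := Int.even_mul_succ_self a
        exact ⟨c, by rw [hc']; ring⟩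
      have h2 : W0 = 8 * (8 * v ^ 2 * b ^ 2) + 4 * (a * (a + 1)) + 1 := by
        rw [hW0', ha, hb]
        ring
      rw [hc'] at h2
      omega
    omega
  have hW4 : W % 4 = 1 := by omega
  have hWo : Odd W := Nat.odd_iff.2 (by omega)
  have hsqM : X ((M : ℤ) ^ 2) = (jacobiSym M W : ℤ) := by
    rw [hW, hW0]
    exact hX.sq _ (by rw [← hW0]; exact hMW)
  have hsqu : X (u ^ 2) = (jacobiSym u W : ℤ) := by
    rw [hW, hW0]
    exact hX.sq _ (by rw [← hW0]; exact huW)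
  have hsqy : X (y ^ 2) = (jacobiSym y W : ℤ) := by
    rw [hW, hW0]
    exact hX.sq _ (by rw [← hW0]; exact hyW)
  have hper : X ((p : ℤ) * M ^ 2) = X (2 * (u ^ 2 * y ^ 2)) := by
    refine hX.per _ _ ?_
    rw [← hW0]
    exact ⟨1, by rw [hNn]; ring⟩
  have htwo : X 2 = 1 := by
    rw [hX.two]
    have h1 : (⟨x, 2 * v * y⟩ : GaussianInt).im / 2 = v * y := by
      show (2 * v * y) / 2 = v * y
      rw [mul_assoc]
      exact Int.mul_ediv_cancel_left _ (by norm_num)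
    rw [h1]
    show ipw (x * (v * y)) = 1
    have h2 : (x * (v * y)) % 4 = 0 := by
      obtain ⟨b, rfl⟩ := hy
      have h3 : x * (v * (4 * b)) = 4 * (x * v * b) := by ring
      rw [h3, Int.mul_emod_right]
    unfold ipw
    rw [h2]
    simp
  have hjm1 : jacobiSym (-1) W = 1 := by
    rw [jacobiSym.at_neg_one hWo, ZMod.χ₄_nat_one_mod_four hW4]
  have hj2 : jacobiSym 2 W = 1 := by
    rw [jacobiSym.at_two hWo, ZMod.χ₈_nat_eq_if_mod_eight]
    rw [if_neg (by omega), if_pos (by omega)]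
  -- the jacobi symbols
  have hneg : ∀ z : ℤ, jacobiSym z W = jacobiSym (z.natAbs : ℤ) W := by
    intro z
    rcases Int.natAbs_eq z with h2 | h2
    · rw [← h2]
    · conv_lhs => rw [h2, ← neg_one_mul, jacobiSym.mul_left, hjm1, one_mul]
  have hy0 : y ≠ 0 := by
    rintro rfl
    exact hpy (dvd_zero _)
  have jy : jacobiSym y W = 1 := by
    obtain ⟨k, n, hn, hyn⟩ := Nat.exists_eq_two_pow_mul_odd (n := y.natAbs)
      (Int.natAbs_ne_zero.2 hy0)
    have hny : (n : ℤ) ∣ y := by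
      rw [← Int.dvd_natAbs, hyn]
      push_cast
      exact Dvd.intro_left _ rfl
    obtain ⟨z, hz⟩ := hny
    have hcx : IsCoprime x n := by
      rw [hz] at hxy
      exact hxy.of_mul_right_left
    have hj3 : jacobiSym (n : ℤ) W = 1 := by
      rw [jacobiSym.quadratic_reciprocity_one_mod_four' hn hW4, hWW]
      have h3 : jacobiSym W0 n = jacobiSym (x ^ 2) n := by
        refine jacobiSym.mod_left' ?_
        refine Int.ModEq.symm ?_
        rw [Int.modEq_iff_dvd, hW0']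
        refine ⟨z * (4 * v ^ 2 * y), ?_⟩
        have h5 : x ^ 2 + (2 * v * y) ^ 2 - x ^ 2 = y * (4 * v ^ 2 * y) := by ring
        rw [h5]
        conv_lhs => rw [hz]
        conv_rhs => rw [hz]
        ring
      rw [h3]
      exact jacobiSym.sq_one' (Int.isCoprime_iff_gcd_eq_one.1 hcx)
    rw [hneg, hyn]
    push_cast
    rw [jacobiSym.mul_left, jacobiSym.pow_left, hj2, one_pow, hj3, one_mul]
  obtain ⟨U, hU⟩ : ∃ U, U = u.natAbs := ⟨_, rfl⟩
  have hUo : Odd U := by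
    rw [hU]
    exact Int.natAbs_odd.2 huo
  have hUu : (U : ℤ) ∣ u := by
    rw [hU]
    exact Int.natAbs_dvd.2 dvd_rfl
  have hMU : IsCoprime (M : ℤ) U := by
    obtain ⟨z, hz⟩ := hUu
    rw [hz] at hMu
    exact hMu.of_mul_right_left
  have ju : jacobiSym u W = jacobiSym p U := by
    rw [hneg, ← hU, jacobiSym.quadratic_reciprocity_one_mod_four' hUo hW4, hWW]
    have h3 : jacobiSym W0 U = jacobiSym ((p : ℤ) * (M : ℤ) ^ 2) U := by
      refine jacobiSym.mod_left' ?_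
      show W0 ≡ (p : ℤ) * M ^ 2 [ZMOD U]
      rw [Int.modEq_iff_dvd, hNn]
      have h4 : W0 + 2 * u ^ 2 * y ^ 2 - W0 = u * (2 * u * y ^ 2) := by ring
      rw [h4]
      exact hUu.mul_right _
    rw [h3, jacobiSym.mul_left, jacobiSym.sq_one', mul_one]
    exact Int.isCoprime_iff_gcd_eq_one.1 hMU
  have jM : jacobiSym M W = 1 := by
    rw [jacobiSym.quadratic_reciprocity_one_mod_four' hMo hW4, hWW]
    have h3 : jacobiSym W0 M = jacobiSym (-2 * (u * y) ^ 2) M := by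
      refine jacobiSym.mod_left' ?_
      show W0 ≡ -2 * (u * y) ^ 2 [ZMOD M]
      refine Int.ModEq.symm ?_
      rw [Int.modEq_iff_dvd]
      refine ⟨(p : ℤ) * M, ?_⟩
      have h4 : (M : ℤ) * ((p : ℤ) * M) = (p : ℤ) * M ^ 2 := by ring
      rw [h4, hNn]
      ring
    rw [h3, jacobiSym.mul_left, jacobiSym.sq_one', mul_one]
    · rw [jacobiSym.at_neg_two hMo]
      have : ((M : ℕ) : ZMod 8) = ((1 : ℕ) : ZMod 8) := by
        rw [ZMod.natCast_eq_natCast_iff]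
        exact hM
      rw [this]
      decide
    · exact Int.isCoprime_iff_gcd_eq_one.1 (IsCoprime.mul_right hMu hyM.symm).symm
  -- the equation
  have e2 : X p * X ((M : ℤ) ^ 2) = X 2 * (X (u ^ 2) * X (y ^ 2)) := by
    rw [← hX.mul (u ^ 2), ← hX.mul 2, ← hper, ← hX.mul]
  rw [hXp, htwo, hsqM, hsqu, hsqy, jy, jM, ju] at e2
  have e3 : jacobiSym p U = 1 := by
    have h1 : ((jacobiSym p U : ℤ) : GaussianInt) = ((1 : ℤ) : GaussianInt) := by
      push_cast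
      push_cast at e2
      linear_combination -e2
    exact_mod_cast h1
  have hjm1p : jacobiSym (-1) p = 1 := by
    rw [jacobiSym.at_neg_one (Nat.odd_iff.2 (by omega)), ZMod.χ₄_nat_one_mod_four (by omega)]
  have e4 : jacobiSym (U : ℤ) p = 1 := by
    rw [jacobiSym.quadratic_reciprocity_one_mod_four' hUo (by omega : p % 4 = 1)]
    exact e3
  rcases Int.natAbs_eq u with h2 | h2
  · rw [h2, ← hU]
    exact e4
  · rw [h2, ← hU, ← neg_one_mul, jacobiSym.mul_left, hjm1p, one_mul]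
    exact e4

end Pool.Agent.Work.MP_8efaaa_nt.Z6
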