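import Mathlib

/-!
# Z6/A7V (M): the third symbol in the class `7` (pure number theory)

Checked by computer. `sym_two`: `η` of order `8` in `ZMod p` (`η^4 = -1`; exists as `8 ∣ p - 1`), `(η + η⁻¹)^2 = 2`, so `s = ± (η + η⁻¹)`; replacing `η` by `-η`: `s = η + η⁻¹`. `2 + s = η⁻¹ (1 + η)^2`, `(2+s)^((p-1)/2) = η^(-(p-1)/2) (1+η)^(p-1) = (η^4)^(-(p-1)/8) = (-1)^((p-1)/8)` (`1 + η ≠ 0`).
`sym_v`: `p ∤ v`, `p ∤ u` (otherwise `p^2 ∣ p q`), `p ∤ n` (`hn`), `p ∤ x` (otherwise `p ∣ 8 n^2`). In `ZMod p`: `s := u / v`, `s^2 = 2`. Put `w = 2 n` or `w = -2 n`, so that `x + w s = 0` in `ZMod p` (`(x - w s)(x + w s) = x^2 - 8 n^2 = 0`). `A = u x + 2 v w`, `B = u w + v x`: both are `0` in `ZMod p`; `A^2 - 2 B^2 = (u^2 - 2v^2)(x^2 - 2w^2) = -(p q y)^2`. `A = p A'`, `B = p B'`.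
If `q ∣ A'` and `q ∣ B'`: `α = A'/q`, `β = B'/q`, `z = |y|`, `t = 1`; otherwise `α = A'`, `β = B'`, `z = |q y|`, `t = q`. In both cases: (i) `α^2 - 2 β^2 = -z^2`, (ii) `u α - 2 v β = t x`, `u β - v α = t w` (from `u A - 2 v B = p q x`, `u B - v A = p q w`), (iii) `z > 0` odd.
`IsCoprime α β`: let `r` be a prime dividing both; `r ∣ t x`, `r ∣ t w` by (ii), `r ∣ z` by (i) (`r^2 ∣ z^2`), `r` odd. If `r = q = t`: `q ∣ A'`, `q ∣ B'`, excluded. Otherwise `r ∣ x`, `r ∣ w`, so `r ∣ n`, `r^2 ∣ 8 n^2 - x^2 = p q y^2`, `r ∤ y` (`hxy`), so `r^2 ∣ p q`, impossible (`p ≠ q`).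
`a0 = 2 β - α`, `b0 = α - β` (`(α + β√2)(-1 + √2) = a0 + b0 √2`): `a0^2 - 2 b0^2 = z^2`, coprime (`α = a0 + 2 b0`, `β = a0 + b0`). `a0` is odd (`α^2 = 2β^2 - z^2`), and `b0` is even (`a0^2 = z^2 = 1 (mod 8)`). `((a0 - z)/2) ((a0 + z)/2) = 2 (b0/2)^2`, the two factors are coprime (a common prime divides `a0` and `z`, so `2 b0^2`..; their sum is `a0`, odd), so one is `σ r1^2` and the other `σ 2 r2^2` with `σ = ±1` (`Int.sq_of_isCoprime` etc.; `b0 = 0` is possible: then `a0 = ± z`, coprime, so `z = 1`, `a0 = σ`, fine), `a0 = σ (r1^2 + 2 r2^2)`, `b0 = ± 2 r1 r2`, so `a0 + b0 T = σ (r1 + r2' T)^2` whenever `T^2 = 2`, for a suitable sign `r2' = ± r2`.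
In `ZMod p`: `u (α - β s) = t x`: from (ii): `u α - u β s = u α - 2 v β` because `u s = 2 v` (`u = v s`, `s^2 = 2`). And `α - β s = (a0 - b0 s)(1 - s)` (`α = a0 + 2 b0`, `β = a0 + b0`, `s^2 = 2`), `a0 - b0 s = σ (..)^2`. So `u σ (..)^2 (1 - s) = t x`, all factors are not `0`. Quadratic character (`-1`, `t`, `2`, `n` are squares: `hqp`, `hn`; `x = - w s`, `w = ± 2 n`): `χ(u) χ(1 - s) = χ(s)`, `χ(u) = χ(s (1 - s)) = χ(s - 2) = χ(2 - s) = (-1)^((p-1)/8)` by `sym_two` for `-s`.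
-/

set_option autoImplicit false

namespace Pool.Agent.Work.MP_8efaaa_nt.Z6

private theorem a7v_pow {p : ℕ} (hp : p.Prime) (hp2 : p % 2 = 1) (y : ℤ) :
    ((jacobiSym y p : ℤ) : ZMod p) = (y : ZMod p) ^ ((p - 1) / 2) := by
  have := Fact.mk hp
  rw [← jacobiSym.legendreSym.to_jacobiSym, legendreSym.eq_pow]
  congr 1
  omega

private theorem a7v_eta {p : ℕ} [Fact p.Prime] (hp8 : p % 8 = 1) : ∃ η : ZMod p, η ^ 4 = -1 := by
  have hp2 : p ≠ 2 := by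
    rintro rfl
    omega
  have hchar : ringChar (ZMod p) ≠ 2 := by
    rw [ZMod.ringChar_zmod_n]
    exact hp2
  obtain ⟨z, hz⟩ := FiniteField.exists_nonsquare hchar
  have hz0 : z ≠ 0 := by
    rintro rfl
    exact hz ⟨0, by ring⟩
  have h1 := ZMod.pow_div_two_eq_neg_one_or_one p hz0
  rw [← ZMod.euler_criterion p hz0] at h1
  refine ⟨z ^ (p / 8), ?_⟩
  rw [← pow_mul]
  have h2 : p / 8 * 4 = p / 2 := by omega
  rw [h2]
  exact h1.resolve_left hz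

private theorem a7v_split' {F G c : ℤ} (h : F * G = c ^ 2) (hc : IsCoprime F G) :
    ∃ σ r₁ r₂ : ℤ, (σ = 1 ∨ σ = -1) ∧ F = σ * r₁ ^ 2 ∧ G = σ * r₂ ^ 2 ∧ c = σ * (r₁ * r₂) := by
  obtain ⟨a, ha⟩ := Int.sq_of_isCoprime hc h
  obtain ⟨b, hb⟩ := Int.sq_of_isCoprime hc.symm (by rw [mul_comm]; exact h)
  rcases ha with ha | ha <;> rcases hb with hb | hb
  · have h1 : c ^ 2 = (a * b) ^ 2 := by
      rw [← h, ha, hb]
      ring
    rcases sq_eq_sq_iff_eq_or_eq_neg.1 h1 with h2 | h2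
    · exact ⟨1, a, b, Or.inl rfl, by rw [ha]; ring, by rw [hb]; ring, by rw [h2]; ring⟩
    · exact ⟨1, a, -b, Or.inl rfl, by rw [ha]; ring, by rw [hb]; ring, by rw [h2]; ring⟩
  · have h1 : c ^ 2 + (a * b) ^ 2 = 0 := by
      rw [← h, ha, hb]
      ring
    have h2 : c = 0 := by nlinarith [sq_nonneg c, sq_nonneg (a * b)]
    have h3 : a * b = 0 := by nlinarith [sq_nonneg c, sq_nonneg (a * b)]
    rcases mul_eq_zero.1 h3 with h4 | h4
    · exact ⟨-1, 0, b, Or.inr rfl, by rw [ha, h4]; ring, by rw [hb]; ring, by rw [h2]; ring⟩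
    · exact ⟨1, a, 0, Or.inl rfl, by rw [ha]; ring, by rw [hb, h4]; ring, by rw [h2]; ring⟩
  · have h1 : c ^ 2 + (a * b) ^ 2 = 0 := by
      rw [← h, ha, hb]
      ring
    have h2 : c = 0 := by nlinarith [sq_nonneg c, sq_nonneg (a * b)]
    have h3 : a * b = 0 := by nlinarith [sq_nonneg c, sq_nonneg (a * b)]
    rcases mul_eq_zero.1 h3 with h4 | h4
    · exact ⟨1, 0, b, Or.inl rfl, by rw [ha, h4]; ring, by rw [hb]; ring, by rw [h2]; ring⟩
    · exact ⟨-1, a, 0, Or.inr rfl, by rw [ha]; ring, by rw [hb, h4]; ring, by rw [h2]; ring⟩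
  · have h1 : c ^ 2 = (a * b) ^ 2 := by
      rw [← h, ha, hb]
      ring
    rcases sq_eq_sq_iff_eq_or_eq_neg.1 h1 with h2 | h2
    · exact ⟨-1, a, -b, Or.inr rfl, by rw [ha]; ring, by rw [hb]; ring, by rw [h2]; ring⟩
    · exact ⟨-1, a, b, Or.inr rfl, by rw [ha]; ring, by rw [hb]; ring, by rw [h2]; ring⟩

private theorem a7v_split {F G c : ℤ} (h : F * G = 2 * c ^ 2) (hFG : IsCoprime F G) :
    ∃ σ r₁ r₂ : ℤ, (σ = 1 ∨ σ = -1) ∧ F + G = σ * (r₁ ^ 2 + 2 * r₂ ^ 2) ∧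
      c = σ * (r₁ * r₂) := by
  have h2 : (2 : ℤ) ∣ F * G := ⟨c ^ 2, h⟩
  rcases Int.prime_two.dvd_or_dvd h2 with ⟨F', hF⟩ | ⟨G', hG⟩
  · have h3 : G * F' = c ^ 2 := by
      rw [hF] at h
      linarith
    have h4 : IsCoprime G F' := by
      rw [hF] at hFG
      exact hFG.symm.of_mul_right_right
    obtain ⟨σ, r₁, r₂, hσ, e1, e2, e3⟩ := a7v_split' h3 h4
    exact ⟨σ, r₁, r₂, hσ, by rw [hF, e1, e2]; ring, e3⟩
  · have h3 : F * G' = c ^ 2 := by
      rw [hG] at h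
      linarith
    have h4 : IsCoprime F G' := by
      rw [hG] at hFG
      exact hFG.of_mul_right_right
    obtain ⟨σ, r₁, r₂, hσ, e1, e2, e3⟩ := a7v_split' h3 h4
    exact ⟨σ, r₁, r₂, hσ, by rw [hG, e1, e2]; ring, e3⟩

private theorem a7v_cop {a b : ℤ} (h : ∀ r : ℕ, r.Prime → (r : ℤ) ∣ a → (r : ℤ) ∣ b → False) :
    IsCoprime a b := by
  rw [Int.isCoprime_iff_gcd_eq_one]
  by_contra hg
  obtain ⟨r, hr, hrg⟩ := Nat.exists_prime_and_dvd hg
  exact h r hr ((Int.natCast_dvd_natCast.2 hrg).trans (Int.gcd_dvd_left _ _))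
    ((Int.natCast_dvd_natCast.2 hrg).trans (Int.gcd_dvd_right _ _))

/-- the form of a coprime pair with `α ^ 2 - 2 β ^ 2 = - z ^ 2`, `z` odd -/
private theorem a7v_form {α β z : ℤ} (hz : Odd z) (h : α ^ 2 - 2 * β ^ 2 = -z ^ 2)
    (hc : IsCoprime α β) : ∃ σ r₁ r₂ : ℤ, (σ = 1 ∨ σ = -1) ∧
      2 * β - α = σ * (r₁ ^ 2 + 2 * r₂ ^ 2) ∧ α - β = 2 * (σ * (r₁ * r₂)) := by
  obtain ⟨k, hk⟩ := hz
  have hz2 : z ^ 2 = 4 * (k ^ 2 + k) + 1 := by rw [hk]; ring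
  have hαo : Odd α := by
    rcases Int.even_or_odd α with ⟨u, hu⟩ | h1
    · exfalso
      have h2 : α ^ 2 = 4 * u ^ 2 := by rw [hu]; ring
      omega
    · exact h1
  obtain ⟨u, hu⟩ := hαo
  have hα2 : α ^ 2 = 4 * (u ^ 2 + u) + 1 := by rw [hu]; ring
  have hβo : Odd β := by
    rcases Int.even_or_odd β with ⟨w, hw⟩ | h1
    · exfalso
      have h2 : β ^ 2 = 4 * w ^ 2 := by rw [hw]; ring
      omega
    · exact h1
  obtain ⟨w, hw⟩ := hβo
  -- `F = (2 β - α - z) / 2`, `G = (2 β - α + z) / 2`, `c = (α - β) / 2`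
  obtain ⟨F, hF⟩ : ∃ F, 2 * F = 2 * β - α - z := ⟨β - u - k - 1, by rw [hu, hk]; ring⟩
  obtain ⟨G, hG⟩ : ∃ G, 2 * G = 2 * β - α + z := ⟨β - u + k, by rw [hu, hk]; ring⟩
  obtain ⟨c, hcc⟩ : ∃ c, 2 * c = α - β := ⟨u - w, by rw [hu, hw]; ring⟩
  have hFG : F * G = 2 * c ^ 2 := by
    have h1 : (2 * F) * (2 * G) = 2 * (2 * c) ^ 2 := by
      rw [hF, hG, hcc]
      linear_combination -h
    linarith
  have hcop : IsCoprime F G := by
    refine a7v_cop fun r hr hrF hrG => ?_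
    have hri : Prime (r : ℤ) := Nat.prime_iff_prime_int.1 hr
    have hsum : F + G = 2 * β - α := by linarith
    have hr1 : (r : ℤ) ∣ 2 * β - α := by
      rw [← hsum]
      exact dvd_add hrF hrG
    have hr2 : r ≠ 2 := by
      rintro rfl
      obtain ⟨d, hd⟩ := hr1
      push_cast at hd
      omega
    have hrc : (r : ℤ) ∣ c := by
      have h1 : (r : ℤ) ∣ 2 * c ^ 2 := by
        rw [← hFG]
        exact hrF.mul_right G
      rcases hri.dvd_or_dvd h1 with h2 | h2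
      · exact absurd ((Nat.prime_dvd_prime_iff_eq hr Nat.prime_two).1
          (Int.natCast_dvd_natCast.1 h2)) hr2
      · exact hri.dvd_of_dvd_pow h2
    have hr3 : (r : ℤ) ∣ α - β := by
      rw [← hcc]
      exact hrc.mul_left 2
    have hα : (r : ℤ) ∣ α := by
      have h1 : α = (2 * β - α) + 2 * (α - β) := by ring
      rw [h1]
      exact dvd_add hr1 (hr3.mul_left 2)
    have hβ : (r : ℤ) ∣ β := by
      have h1 : β = (2 * β - α) + (α - β) := by ring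
      rw [h1]
      exact dvd_add hr1 hr3
    exact hri.not_isUnit (hc.isUnit_of_dvd' hα hβ)
  obtain ⟨σ, r₁, r₂, hσ, e1, e2⟩ := a7v_split hFG hcop
  exact ⟨σ, r₁, r₂, hσ, by rw [← e1]; linarith, by rw [← e2]; linarith⟩

/-- the choice of `α`, `β` -/
private theorem a7v_ab {p q n : ℕ} (hp : p.Prime) (hq : q.Prime) (hpq : p ≠ q) (hq2 : Odd q)
    {u v x y w : ℤ} (huv : u ^ 2 - 2 * v ^ 2 = p * q)
    (h : x ^ 2 + p * q * y ^ 2 = 8 * (n : ℤ) ^ 2) (hxy : IsCoprime x y) (hy : Odd y)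
    (hw : w = 2 * n ∨ w = -(2 * n)) (hA : (p : ℤ) ∣ u * x + 2 * v * w)
    (hB : (p : ℤ) ∣ u * w + v * x) :
    ∃ α β z t : ℤ, (t = 1 ∨ t = q) ∧ Odd z ∧ α ^ 2 - 2 * β ^ 2 = -z ^ 2 ∧ IsCoprime α β ∧
      u * α - 2 * v * β = t * x := by
  have hpi : Prime (p : ℤ) := Nat.prime_iff_prime_int.1 hp
  have hqi : Prime (q : ℤ) := Nat.prime_iff_prime_int.1 hq
  have hp0 := hpi.ne_zero
  have hq0 := hqi.ne_zero
  have hw2 : w ^ 2 = 4 * (n : ℤ) ^ 2 := by
    rcases hw with rfl | rfl <;> ring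
  obtain ⟨A, hA⟩ := hA
  obtain ⟨B, hB⟩ := hB
  have hAB : A ^ 2 - 2 * B ^ 2 = -(q * y) ^ 2 := by
    have h1 : (p : ℤ) ^ 2 * (A ^ 2 - 2 * B ^ 2) = (p : ℤ) ^ 2 * -(q * y) ^ 2 := by
      have h2 : (p : ℤ) ^ 2 * (A ^ 2 - 2 * B ^ 2) =
          (u ^ 2 - 2 * v ^ 2) * (x ^ 2 - 2 * w ^ 2) := by
        have h3 : (p : ℤ) ^ 2 * (A ^ 2 - 2 * B ^ 2) = (p * A) ^ 2 - 2 * (p * B) ^ 2 := by ring
        rw [h3, ← hA, ← hB]
        ring
      rw [h2, huv, hw2]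
      linear_combination (p : ℤ) * q * h
    exact mul_left_cancel₀ (pow_ne_zero 2 hp0) h1
  have e1 : u * A - 2 * v * B = q * x := by
    refine mul_left_cancel₀ hp0 ?_
    linear_combination -u * hA + 2 * v * hB + x * huv
  have e2 : u * B - v * A = q * w := by
    refine mul_left_cancel₀ hp0 ?_
    linear_combination -u * hB + v * hA + w * huv
  -- the coprimality argument
  have key : ∀ α β z t : ℤ, Odd z → α ^ 2 - 2 * β ^ 2 = -z ^ 2 → u * α - 2 * v * β = t * x →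
      u * β - v * α = t * w → (∀ r : ℕ, r.Prime → (r : ℤ) ∣ t → (r : ℤ) ∣ α → (r : ℤ) ∣ β →
        False) → IsCoprime α β := by
    intro α β z t hz h1 h2 h3 h4
    refine a7v_cop fun r hr hrα hrβ => ?_
    have hri : Prime (r : ℤ) := Nat.prime_iff_prime_int.1 hr
    have hrt : ¬ (r : ℤ) ∣ t := fun h5 => h4 r hr h5 hrα hrβ
    have hrz : (r : ℤ) ∣ z := by
      have h5 : (r : ℤ) ∣ z ^ 2 := by
        have h6 : z ^ 2 = 2 * β * β - α * α := by linear_combination h1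
        rw [h6]
        exact dvd_sub (hrβ.mul_left _) (hrα.mul_left _)
      exact hri.dvd_of_dvd_pow h5
    have hr2 : r ≠ 2 := by
      rintro rfl
      obtain ⟨d, hd⟩ := hrz
      obtain ⟨e, he⟩ := hz
      push_cast at hd
      omega
    have hrx : (r : ℤ) ∣ x := by
      have h5 : (r : ℤ) ∣ t * x := by
        rw [← h2]
        exact dvd_sub (hrα.mul_left _) (hrβ.mul_left _)
      exact (hri.dvd_or_dvd h5).resolve_left hrt
    have hrw : (r : ℤ) ∣ w := by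
      have h5 : (r : ℤ) ∣ t * w := by
        rw [← h3]
        exact dvd_sub (hrβ.mul_left _) (hrα.mul_left _)
      exact (hri.dvd_or_dvd h5).resolve_left hrt
    have hry : ¬ (r : ℤ) ∣ y := fun h5 => hri.not_isUnit (hxy.isUnit_of_dvd' hrx h5)
    -- `r ^ 2` divides `p q y ^ 2`
    obtain ⟨x', hx'⟩ := hrx
    obtain ⟨w', hw'⟩ := hrw
    have h5 : (p : ℤ) * q * y ^ 2 = r * (r * (2 * w' ^ 2 - x' ^ 2)) := by
      have h6 : 8 * (n : ℤ) ^ 2 = 2 * w ^ 2 := by rw [hw2]; ring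
      rw [h6, hw', hx'] at h
      linear_combination h
    have h6 : (r : ℤ) ∣ p * q := by
      have h7 : (r : ℤ) ∣ p * q * y ^ 2 := ⟨_, h5⟩
      rcases hri.dvd_or_dvd h7 with h8 | h8
      · exact h8
      · exact absurd (hri.dvd_of_dvd_pow h8) hry
    have h7 : r = p ∨ r = q := by
      rcases hri.dvd_or_dvd h6 with h8 | h8
      · exact Or.inl ((Nat.prime_dvd_prime_iff_eq hr hp).1 (Int.natCast_dvd_natCast.1 h8))
      · exact Or.inr ((Nat.prime_dvd_prime_iff_eq hr hq).1 (Int.natCast_dvd_natCast.1 h8))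
    rcases h7 with rfl | rfl
    · have h8 : (q : ℤ) * y ^ 2 = r * (2 * w' ^ 2 - x' ^ 2) := by
        refine mul_left_cancel₀ hri.ne_zero ?_
        linear_combination h5
      have h9 : (r : ℤ) ∣ q * y ^ 2 := ⟨_, h8⟩
      rcases hri.dvd_or_dvd h9 with h10 | h10
      · exact hpq ((Nat.prime_dvd_prime_iff_eq hr hq).1 (Int.natCast_dvd_natCast.1 h10))
      · exact hry (hri.dvd_of_dvd_pow h10)
    · have h8 : (p : ℤ) * y ^ 2 = r * (2 * w' ^ 2 - x' ^ 2) := by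
        refine mul_left_cancel₀ hri.ne_zero ?_
        linear_combination h5
      have h9 : (r : ℤ) ∣ p * y ^ 2 := ⟨_, h8⟩
      rcases hri.dvd_or_dvd h9 with h10 | h10
      · exact hpq ((Nat.prime_dvd_prime_iff_eq hr hp).1 (Int.natCast_dvd_natCast.1 h10)).symm
      · exact hry (hri.dvd_of_dvd_pow h10)
  by_cases hq' : (q : ℤ) ∣ A ∧ (q : ℤ) ∣ B
  · obtain ⟨⟨α, hα⟩, β, hβ⟩ := hq'
    have f0 : α ^ 2 - 2 * β ^ 2 = -y ^ 2 := by
      refine mul_left_cancel₀ (pow_ne_zero 2 hq0) ?_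
      rw [hα, hβ] at hAB
      linear_combination hAB
    have f1 : u * α - 2 * v * β = 1 * x := by
      refine mul_left_cancel₀ hq0 ?_
      rw [hα, hβ] at e1
      linear_combination e1
    have f2 : u * β - v * α = 1 * w := by
      refine mul_left_cancel₀ hq0 ?_
      rw [hα, hβ] at e2
      linear_combination e2
    refine ⟨α, β, y, 1, Or.inl rfl, hy, f0, key α β y 1 hy f0 f1 f2 ?_, f1⟩
    intro r hr h1 _ _
    exact (Nat.prime_iff_prime_int.1 hr).not_isUnit (isUnit_of_dvd_one h1)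
  · have hz : Odd ((q : ℤ) * y) := by
      have : Odd (q : ℤ) := by exact_mod_cast hq2
      exact this.mul hy
    refine ⟨A, B, q * y, q, Or.inr rfl, hz, hAB, key A B (q * y) q hz hAB e1 e2 ?_, e1⟩
    intro r hr h1 h2 h3
    have h4 : r = q := (Nat.prime_dvd_prime_iff_eq hr hq).1 (Int.natCast_dvd_natCast.1 h1)
    subst h4
    exact hq' ⟨h2, h3⟩

theorem sym_two {p : ℕ} [Fact p.Prime] (hp8 : p % 8 = 1) {s : ZMod p} (hs : s ^ 2 = 2) :
    (2 + s) ^ ((p - 1) / 2) = (-1) ^ ((p - 1) / 8) := by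
  have hp : p.Prime := Fact.out
  have hp0 : p ≠ 2 := by
    rintro rfl
    omega
  have h2 : (2 : ZMod p) ≠ 0 := by
    intro h1
    have h3 : ((2 : ℕ) : ZMod p) = 0 := by exact_mod_cast h1
    rw [ZMod.natCast_eq_zero_iff] at h3
    exact hp0 ((Nat.prime_dvd_prime_iff_eq hp Nat.prime_two).1 h3)
  obtain ⟨η, hη, hs'⟩ : ∃ η : ZMod p, η ^ 4 = -1 ∧ η * s = η ^ 2 + 1 := by
    obtain ⟨η, hη⟩ := a7v_eta (p := p) hp8
    have h3 : (η * s) ^ 2 = (η ^ 2 + 1) ^ 2 := by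
      rw [mul_pow, hs]
      linear_combination -hη
    rcases sq_eq_sq_iff_eq_or_eq_neg.1 h3 with h4 | h4
    · exact ⟨η, hη, h4⟩
    · refine ⟨-η, by rw [← hη]; ring, ?_⟩
      linear_combination -h4
  have h3 : η * (2 + s) = (1 + η) ^ 2 := by linear_combination hs'
  have h4 : 1 + η ≠ 0 := by
    intro h5
    have h6 : η = -1 := by linear_combination h5
    rw [h6] at hη
    have h7 : (2 : ZMod p) = 0 := by linear_combination hη
    exact h2 h7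
  obtain ⟨r, hr⟩ : ∃ r, (p - 1) / 8 = r := ⟨_, rfl⟩
  have hr2 : (p - 1) / 2 = 4 * r := by omega
  have hr1 : p - 1 = 2 * (4 * r) := by omega
  have h5 : (η * (2 + s)) ^ (4 * r) = 1 := by
    rw [h3, ← pow_mul, ← hr1]
    exact ZMod.pow_card_sub_one_eq_one h4
  rw [mul_pow, pow_mul, hη] at h5
  rw [hr2, hr]
  have h6 : ((-1 : ZMod p) ^ r) * (-1) ^ r = 1 := by
    rw [← mul_pow]
    norm_num
  calc (2 + s) ^ (4 * r) = (-1) ^ r * ((-1) ^ r * (2 + s) ^ (4 * r)) := by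
        rw [← mul_assoc, h6, one_mul]
    _ = (-1) ^ r := by rw [h5, mul_one]

theorem sym_v {p q n : ℕ} (hp : p.Prime) (hq : q.Prime) (hp8 : p % 8 = 1) (hq8 : q % 8 = 7)
    (hqp : jacobiSym q p = 1) {u v x y : ℤ} (huv : u ^ 2 - 2 * v ^ 2 = p * q)
    (h : x ^ 2 + p * q * y ^ 2 = 8 * (n : ℤ) ^ 2) (hxy : IsCoprime x y) (hx : Odd x)
    (hy : Odd y) (hn : jacobiSym n p = 1) : jacobiSym u p = (-1) ^ ((p - 1) / 8) := by
  have := Fact.mk hp
  have hpi : Prime (p : ℤ) := Nat.prime_iff_prime_int.1 hp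
  have hpq : p ≠ q := by
    rintro rfl
    omega
  have hp2 : p ≠ 2 := by
    rintro rfl
    omega
  have hpo : Odd p := Nat.odd_iff.2 (by omega)
  have hqo : Odd q := Nat.odd_iff.2 (by omega)
  have hcast : ∀ z : ℤ, (z : ZMod p) = 0 ↔ (p : ℤ) ∣ z := fun z =>
    ZMod.intCast_zmod_eq_zero_iff_dvd z p
  have hq0 : ((q : ℤ) : ZMod p) ≠ 0 := by
    rw [Ne, hcast]
    intro h1
    exact hpq ((Nat.prime_dvd_prime_iff_eq hp hq).1 (Int.natCast_dvd_natCast.1 h1))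
  obtain ⟨r, hr⟩ : ∃ r, (p - 1) / 8 = r := ⟨_, rfl⟩
  have hr2 : (p - 1) / 2 = 4 * r := by omega
  have hr1 : p - 1 = 2 * (4 * r) := by omega
  have hr0 : 0 < r := by
    have := hp.two_le
    omega
  have hpow : ∀ z : ℤ, ((jacobiSym z p : ℤ) : ZMod p) = (z : ZMod p) ^ (4 * r) := by
    intro z
    rw [a7v_pow hp (by omega) z, hr2]
  have hn1 : ((n : ℤ) : ZMod p) ^ (4 * r) = 1 := by
    rw [← hpow, hn, Int.cast_one]
  have hn0 : ((n : ℤ) : ZMod p) ≠ 0 := by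
    intro h1
    rw [h1, zero_pow (by omega)] at hn1
    exact zero_ne_one hn1
  have hq1 : ((q : ℤ) : ZMod p) ^ (4 * r) = 1 := by
    rw [← hpow, hqp, Int.cast_one]
  have h21 : (2 : ZMod p) ^ (4 * r) = 1 := by
    have h1 : jacobiSym 2 p = 1 := by
      rw [jacobiSym.at_two hpo, ZMod.χ₈_nat_eq_if_mod_eight, if_neg (by omega),
        if_pos (Or.inl hp8)]
    have h2 := hpow 2
    rw [h1] at h2
    push_cast at h2
    exact h2.symm
  have h20 : (2 : ZMod p) ≠ 0 := by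
    intro h1
    rw [h1, zero_pow (by omega)] at h21
    exact zero_ne_one h21
  have hpp : (p : ZMod p) = 0 := ZMod.natCast_self p
  have huv' : (u : ZMod p) ^ 2 = 2 * (v : ZMod p) ^ 2 := by
    have h1 : (((u ^ 2 - 2 * v ^ 2 : ℤ)) : ZMod p) = ((p * q : ℤ) : ZMod p) := by rw [huv]
    push_cast at h1
    rw [hpp, zero_mul] at h1
    linear_combination h1
  have hv0 : (v : ZMod p) ≠ 0 := by
    intro h1
    have h2 : (u : ZMod p) = 0 := by
      rw [h1] at huv'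
      have h3 : (u : ZMod p) ^ 2 = 0 := by
        rw [huv']
        ring
      exact pow_eq_zero_iff two_ne_zero |>.1 h3
    rw [hcast] at h1 h2
    obtain ⟨v', rfl⟩ := h1
    obtain ⟨u', rfl⟩ := h2
    have h3 : (p : ℤ) ∣ q := by
      refine ⟨u' ^ 2 - 2 * v' ^ 2, ?_⟩
      refine mul_left_cancel₀ hpi.ne_zero ?_
      linear_combination -huv
    exact hpq ((Nat.prime_dvd_prime_iff_eq hp hq).1 (Int.natCast_dvd_natCast.1 h3))
  obtain ⟨s, hs⟩ : ∃ s : ZMod p, (u : ZMod p) = v * s := ⟨(v : ZMod p)⁻¹ * u, by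
    rw [← mul_assoc, mul_inv_cancel₀ hv0, one_mul]⟩
  have hs2 : s ^ 2 = 2 := by
    rw [hs, mul_pow] at huv'
    exact mul_left_cancel₀ (pow_ne_zero 2 hv0) (by rw [huv']; ring)
  have hx2 : (x : ZMod p) ^ 2 = 8 * ((n : ℤ) : ZMod p) ^ 2 := by
    have h1 : (((x ^ 2 + p * q * y ^ 2 : ℤ)) : ZMod p) = ((8 * (n : ℤ) ^ 2 : ℤ) : ZMod p) := by
      rw [h]
    push_cast at h1
    rw [hpp, zero_mul, zero_mul, add_zero] at h1
    push_cast
    exact h1
  obtain ⟨w, hw, hxw⟩ : ∃ w : ℤ, (w = 2 * n ∨ w = -(2 * n)) ∧ (x : ZMod p) + w * s = 0 := by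
    have h1 : (x : ZMod p) ^ 2 = (2 * ((n : ℤ) : ZMod p) * s) ^ 2 := by
      rw [hx2, mul_pow, mul_pow, hs2]
      ring
    rcases sq_eq_sq_iff_eq_or_eq_neg.1 h1 with h2 | h2
    · refine ⟨-(2 * n), Or.inr rfl, ?_⟩
      push_cast at h2 ⊢
      linear_combination h2
    · refine ⟨2 * n, Or.inl rfl, ?_⟩
      push_cast at h2 ⊢
      linear_combination h2
  have hA : (p : ℤ) ∣ u * x + 2 * v * w := by
    rw [← hcast]
    push_cast
    rw [hs]
    linear_combination (v : ZMod p) * s * hxw - (v : ZMod p) * w * hs2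
  have hB : (p : ℤ) ∣ u * w + v * x := by
    rw [← hcast]
    push_cast
    rw [hs]
    linear_combination (v : ZMod p) * hxw
  obtain ⟨α, β, z, t, ht, hz, hαβ, hcop, htx⟩ := a7v_ab hp hq hpq hqo huv h hxy hy hw hA hB
  obtain ⟨σ, r₁, r₂, hσ, e1, e2⟩ := a7v_form hz hαβ hcop
  have ht1 : (t : ZMod p) ^ (4 * r) = 1 := by
    rcases ht with rfl | rfl
    · rw [Int.cast_one, one_pow]
    · exact hq1
  have ht0 : (t : ZMod p) ≠ 0 := by
    intro h1
    rw [h1, zero_pow (by omega)] at ht1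
    exact zero_ne_one ht1
  have hw1 : (w : ZMod p) ^ (4 * r) = 1 := by
    rcases hw with rfl | rfl
    · push_cast
      push_cast at hn1
      rw [mul_pow, h21, hn1, one_mul]
    · push_cast
      push_cast at hn1
      rw [Even.neg_pow ⟨2 * r, by ring⟩, mul_pow, h21, hn1, one_mul]
  have hσ1 : (σ : ZMod p) ^ (4 * r) = 1 := by
    rcases hσ with rfl | rfl
    · rw [Int.cast_one, one_pow]
    · push_cast
      rw [Even.neg_pow ⟨2 * r, by ring⟩, one_pow]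
  have hx0 : (x : ZMod p) ≠ 0 := by
    intro h1
    rw [h1] at hx2
    have h3 : (8 : ZMod p) * ((n : ℤ) : ZMod p) ^ 2 = 2 ^ 3 * ((n : ℤ) : ZMod p) ^ 2 := by norm_num
    have h4 : (2 : ZMod p) ^ 3 * ((n : ℤ) : ZMod p) ^ 2 ≠ 0 :=
      mul_ne_zero (pow_ne_zero 3 h20) (pow_ne_zero 2 hn0)
    rw [← h3, ← hx2] at h4
    exact h4 (by ring)
  have hmain : (u : ZMod p) * (σ * ((r₁ : ZMod p) - r₂ * s) ^ 2 * (1 - s)) = t * x := by
    have h1 : ((u * α - 2 * v * β : ℤ) : ZMod p) = ((t * x : ℤ) : ZMod p) := by rw [htx]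
    have h2 : ((2 * β - α : ℤ) : ZMod p) = ((σ * (r₁ ^ 2 + 2 * r₂ ^ 2) : ℤ) : ZMod p) := by
      rw [e1]
    have h3 : ((α - β : ℤ) : ZMod p) = ((2 * (σ * (r₁ * r₂)) : ℤ) : ZMod p) := by rw [e2]
    push_cast at h1 h2 h3
    rw [← h1, hs]
    have h4 : (σ : ZMod p) * ((r₁ : ZMod p) - r₂ * s) ^ 2 = (2 * β - α) - (α - β) * s := by
      rw [h2, h3]
      linear_combination (σ : ZMod p) * r₂ ^ 2 * hs2
    rw [h4]
    linear_combination (v : ZMod p) * (s * (α - β) - β) * hs2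
  have hρ : ((r₁ : ZMod p) - r₂ * s) ≠ 0 := by
    intro h1
    rw [h1] at hmain
    have h2 : (t : ZMod p) * x = 0 := by
      rw [← hmain]
      ring
    exact mul_ne_zero ht0 hx0 h2
  have hρ1 : (((r₁ : ZMod p) - r₂ * s) ^ 2) ^ (4 * r) = 1 := by
    rw [← pow_mul, ← hr1]
    exact ZMod.pow_card_sub_one_eq_one hρ
  have hfin : (u : ZMod p) ^ (4 * r) * (1 - s) ^ (4 * r) = s ^ (4 * r) := by
    have h1 : ((u : ZMod p) * (σ * ((r₁ : ZMod p) - r₂ * s) ^ 2 * (1 - s))) ^ (4 * r) =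
        (t * x) ^ (4 * r) := by rw [hmain]
    have h2 : (x : ZMod p) = -(w * s) := by linear_combination hxw
    rw [h2, mul_pow, mul_pow, mul_pow, hσ1, hρ1, mul_pow, ht1, Even.neg_pow ⟨2 * r, by ring⟩,
      mul_pow, hw1] at h1
    linear_combination h1
  have hsym := sym_two hp8 (s := -s) (by rw [neg_sq, hs2])
  rw [hr2, hr] at hsym
  have h5 : (s * (1 - s)) ^ (4 * r) = (2 + -s) ^ (4 * r) := by
    have h6 : s * (1 - s) = -(2 + -s) := by linear_combination -hs2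
    rw [h6, Even.neg_pow ⟨2 * r, by ring⟩]
  have h6 : (u : ZMod p) ^ (4 * r) * (-1) ^ r = 1 := by
    rw [← hsym, ← h5, mul_pow]
    have h7 : s ^ (4 * r) * s ^ (4 * r) = 1 := by
      rw [← mul_pow, ← pow_two, hs2]
      exact h21
    calc (u : ZMod p) ^ (4 * r) * (s ^ (4 * r) * (1 - s) ^ (4 * r))
        = s ^ (4 * r) * ((u : ZMod p) ^ (4 * r) * (1 - s) ^ (4 * r)) := by ring
      _ = 1 := by rw [hfin, h7]
  have h7 : (u : ZMod p) ^ (4 * r) = (-1) ^ r := by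
    have h8 : ((-1 : ZMod p) ^ r) * (-1) ^ r = 1 := by
      rw [← mul_pow]
      norm_num
    calc (u : ZMod p) ^ (4 * r) = (u : ZMod p) ^ (4 * r) * (-1) ^ r * (-1) ^ r := by
          rw [mul_assoc, h8, mul_one]
      _ = (-1) ^ r := by rw [h6, one_mul]
  rw [← hpow] at h7
  rw [hr]
  have h8 : jacobiSym u p = 0 ∨ jacobiSym u p = 1 ∨ jacobiSym u p = -1 :=
    jacobiSym.trichotomy u p
  have h9 : ((-1 : ℤ) ^ r) = 1 ∨ ((-1 : ℤ) ^ r) = -1 := neg_one_pow_eq_or ℤ r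
  have h10 : ((-1 : ZMod p) ^ r) = (((-1 : ℤ) ^ r : ℤ) : ZMod p) := by push_cast; rfl
  rw [h10] at h7
  have h11 : (1 : ZMod p) ≠ -1 := by
    intro h12
    exact h20 (by linear_combination h12)
  rcases h8 with h8 | h8 | h8 <;> rcases h9 with h9 | h9 <;> rw [h8, h9] at h7 ⊢ <;>
    push_cast at h7
  · exact absurd h7 zero_ne_one
  · exact absurd h7.symm (neg_ne_zero.2 one_ne_zero)
  · exact absurd h7 h11
  · exact absurd h7.symm h11

end Pool.Agent.Work.MP_8efaaa_nt.Z6
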