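import Mathlib
import Pool.Agent.Work.MP_8efaaa_nt.W6.CPr
import Pool.Agent.Work.MP_8efaaa_nt.W6.CEl
import Pool.Agent.Work.MP_8efaaa_nt.W14.CEq
import Pool.Agent.Work.MP_8efaaa_nt.K6.ARg
import Pool.Agent.Work.MP_8efaaa_nt.K6.ARm

/-!
# Z6/El (S-M): the element `x + y S` of `ρ * (cj τ c0)^2`

Model: `W6/CEl.lean` (`exists_el6`). PROOF. `r6 S p * (cj τ c0 * cj τ c0)` is nonzero and of class `cls (r6 S p) * (cls c0)⁻¹ * (cls c0)⁻¹ = 1` (`hk`, `cls_cj`, `cls_mul`), so it is `(γ)` (`prin_of_cls`), `γ = x + y S` (`exists_S6`). Norms (`norm_lin6`, `norm_cj6`, `norm_r6`): `x^2 + a y^2 = p n^2`, `n = N c0`. `n = 1 (mod 16)`, `p = 1 (mod 8)`: `x^2 + a y^2 = 1 (mod 8)`, `a = 6 (mod 8)`: `x` is odd and `y` is even (`y` odd would give `x^2 + a y^2 = 7 (mod 8)`). `p ∣ x`: `p ∣ x^2 + a y^2` and `p ∣ a`.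
`IsCoprime x y`: let `r` be a prime number dividing `x` and `y` (`r` is odd as `x` is). `r^2 ∣ p n^2`, so `r ∣ n` (if `r ∤ n` then `r^2 ∣ p`, impossible), so `r ∤ 2 a` (`hcc`). `γ ∈ (r)`: `span {r} ∣ r6 S p * (cj τ c0 * cj τ c0)`; `span {r}` is coprime to `r6 S p` (`p ∈ r6 S p`, `r ≠ p`), so it divides `cj τ c0 * cj τ c0`, which contains `(S + u)^2 = (u^2 - a) + 2 u S` (`τ (S - u) = -(S + u)`); so `r ∣ 2 u`, `r ∣ u`, `r ∣ u^2 - a`, `r ∣ a`: contradiction. (This is the case `r ∣ n` of `exists_el6`.)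
-/

set_option autoImplicit false

namespace Pool.Agent.Work.MP_8efaaa_nt.Z6

open NumberField Pool.Agent.Work.MP_8efaaa_nt.R Pool.Agent.Work.MP_8efaaa_nt.N5
  Pool.Agent.Work.MP_8efaaa_nt.K6 Pool.Agent.Work.MP_8efaaa_nt.W14
open scoped Classical nonZeroDivisors

private theorem mem_r {K : Type*} [Field K] [NumberField K] {a : ℕ} {S : 𝓞 K}
    (hQ : R6.Q6 K a S) {r p q : ℤ}
    (h : (p : 𝓞 K) + (q : 𝓞 K) * S ∈ Ideal.span {(r : 𝓞 K)}) : r ∣ p ∧ r ∣ q := by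
  rw [Ideal.mem_span_singleton] at h
  obtain ⟨z, hz⟩ := h
  obtain ⟨u, v, rfl⟩ := hQ.coords z
  have h1 : (p : 𝓞 K) + (q : 𝓞 K) * S = ((r * u : ℤ) : 𝓞 K) + ((r * v : ℤ) : 𝓞 K) * S := by
    rw [hz]
    push_cast
    ring
  obtain ⟨h2, h3⟩ := hQ.unique _ _ _ _ h1
  exact ⟨⟨u, h2⟩, ⟨v, h3⟩⟩

private theorem cancel_r {K : Type*} [Field K] [NumberField K] {r k : ℤ} (h : IsCoprime r k)
    {z : 𝓞 K} (hz : (k : 𝓞 K) * z ∈ Ideal.span {(r : 𝓞 K)}) : z ∈ Ideal.span {(r : 𝓞 K)} := by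
  obtain ⟨u, v, huv⟩ := h
  have h1 : z = ((u : 𝓞 K) * z) * (r : 𝓞 K) + (v : 𝓞 K) * ((k : 𝓞 K) * z) := by
    have h2 := congrArg (Int.cast (R := 𝓞 K)) huv
    push_cast at h2
    linear_combination (-z) * h2
  rw [h1]
  exact Ideal.add_mem _ (Ideal.mul_mem_left _ _ (Ideal.mem_span_singleton_self _))
    (Ideal.mul_mem_left _ _ hz)

private theorem case_n {K : Type*} [Field K] [NumberField K] {a : ℕ} {S : 𝓞 K}
    (hQ : R6.Q6 K a S) {b C : Ideal (𝓞 K)} {N r : ℕ} (hr : r.Prime) (hr2 : r ≠ 2) {u : ℤ}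
    (hN : ((N : ℤ) : 𝓞 K) ∈ b) (hu : S + (u : 𝓞 K) ∈ C)
    (hJ : b * (C * C) ≤ Ideal.span {((r : ℤ) : 𝓞 K)})
    (hrN : Nat.Coprime r N) (hra : Nat.Coprime r a) : False := by
  have hrp : Prime (r : ℤ) := Nat.prime_iff_prime_int.1 hr
  have hr2' : ¬ (r : ℤ) ∣ 2 := by
    intro h4
    have h5 : r ∣ 2 := by exact_mod_cast h4
    exact hr2 ((Nat.prime_dvd_prime_iff_eq hr Nat.prime_two).1 h5)
  have h4 : (S + (u : 𝓞 K)) * (S + (u : 𝓞 K)) ∈ Ideal.span {((r : ℤ) : 𝓞 K)} := by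
    have h5 : IsCoprime (r : ℤ) (N : ℤ) := Nat.isCoprime_iff_coprime.2 hrN
    exact cancel_r h5 (hJ (Ideal.mul_mem_mul hN (Ideal.mul_mem_mul hu hu)))
  have h5 : (((u ^ 2 - a : ℤ)) : 𝓞 K) + ((2 * u : ℤ) : 𝓞 K) * S ∈
      Ideal.span {((r : ℤ) : 𝓞 K)} := by
    have e : (((u ^ 2 - a : ℤ)) : 𝓞 K) + ((2 * u : ℤ) : 𝓞 K) * S =
        (S + (u : 𝓞 K)) * (S + (u : 𝓞 K)) := by
      have e3 := hQ.sq
      push_cast
      linear_combination (-1 : 𝓞 K) * e3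
    rw [e]
    exact h4
  obtain ⟨h6, h7⟩ := mem_r hQ h5
  have h8 : (r : ℤ) ∣ u := (hrp.dvd_or_dvd h7).resolve_left hr2'
  have h9 : (r : ℤ) ∣ a := by
    have e : (a : ℤ) = u ^ 2 - (u ^ 2 - a) := by ring
    rw [e]
    exact dvd_sub (dvd_pow h8 two_ne_zero) h6
  have h10 : r ∣ a := by exact_mod_cast h9
  have h11 := Nat.Coprime.eq_one_of_dvd hra h10
  exact hr.one_lt.ne' h11

private theorem odd_xz {a : ℕ} {x y : ℤ} (ha : a % 8 = 6) (h : (x ^ 2 + a * y ^ 2) % 8 = 1) :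
    Odd x ∧ Even y := by
  obtain ⟨k, hk⟩ : ∃ k : ℤ, (a : ℤ) = 8 * k + 6 := ⟨((a / 8 : ℕ) : ℤ), by omega⟩
  rw [hk] at h
  have hx : Odd x := by
    by_contra hx
    rw [Int.not_odd_iff_even] at hx
    obtain ⟨x', rfl⟩ := hx
    have e : (x' + x') ^ 2 + (8 * k + 6) * y ^ 2 = 2 * (2 * x' ^ 2 + (4 * k + 3) * y ^ 2) := by
      ring
    rw [e] at h
    omega
  refine ⟨hx, ?_⟩
  by_contra hy
  rw [Int.not_even_iff_odd] at hy
  obtain ⟨y', rfl⟩ := hy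
  obtain ⟨x', rfl⟩ := hx
  obtain ⟨m, hm⟩ := Int.even_mul_succ_self x'
  obtain ⟨m', hm'⟩ := Int.even_mul_succ_self y'
  have e : (2 * x' + 1) ^ 2 + (8 * k + 6) * (2 * y' + 1) ^ 2 = 4 * (x' * (x' + 1)) + 7 +
      8 * (k * (2 * y' + 1) ^ 2 + 3 * (y' * (y' + 1))) := by ring
  rw [e, hm] at h
  omega

theorem exists_elz {K : Type*} [Field K] [NumberField K] {a : ℕ} {s : K} (hb : B6 K a s)
    {S : 𝓞 K} (hS : algebraMap (𝓞 K) K S = s) {τ : 𝓞 K ≃+* 𝓞 K} (hτ : τ S = -S)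
    {p : ℕ} (hp : p.Prime) (hp8 : p % 8 = 1) (hpa : p ∣ a) {c0 : Ideal (𝓞 K)}
    (hc16 : Ideal.absNorm c0 % 16 = 1) (hcc : Nat.Coprime (Ideal.absNorm c0) (2 * a)) {u : ℤ}
    (hu : S - (u : 𝓞 K) ∈ c0) (hk : cls c0 * cls c0 = cls (r6 S p)) :
    ∃ x y : ℤ, Odd x ∧ Even y ∧ IsCoprime x y ∧ (p : ℤ) ∣ x ∧
      x ^ 2 + a * y ^ 2 = p * (Ideal.absNorm c0 : ℤ) ^ 2 ∧
      Ideal.span {(x : 𝓞 K) + y * S} = r6 S p * (cj τ c0 * cj τ c0) := by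
  have hQ := q6 hb hS
  obtain ⟨n, hn⟩ : ∃ n, n = Ideal.absNorm c0 := ⟨_, rfl⟩
  have hp0 : p ≠ 0 := hp.ne_zero
  have hb0 : r6 S p ≠ 0 := by
    intro h0
    have h1 := norm_r6 hb hS hpa
    rw [h0, map_zero] at h1
    exact hp0 h1.symm
  have hc0 : c0 ≠ 0 := by
    rintro rfl
    rw [map_zero] at hc16
    norm_num at hc16
  obtain ⟨hcj0, hcj⟩ := cls_cj hb hS hτ hc0
  obtain ⟨cc1, -, -⟩ := norm_cj6 hb hS hτ c0
  have hSu : S + (u : 𝓞 K) ∈ cj τ c0 := by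
    have h5 := Ideal.mem_map_of_mem (τ : 𝓞 K →+* 𝓞 K) hu
    have h6 : (τ : 𝓞 K →+* 𝓞 K) (S - (u : 𝓞 K)) = -(S + (u : 𝓞 K)) := by
      rw [map_sub, map_intCast]
      have : (τ : 𝓞 K →+* 𝓞 K) S = -S := hτ
      rw [this]
      ring
    rw [h6] at h5
    exact neg_mem_iff.1 h5
  obtain ⟨γ, -, hγ⟩ := prin_of_cls (b := r6 S p * (cj τ c0 * cj τ c0))
    (mul_ne_zero hb0 (mul_ne_zero hcj0 hcj0))
    (by rw [cls_mul hb0 (mul_ne_zero hcj0 hcj0), cls_mul hcj0 hcj0, hcj, ← hk, ← mul_inv,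
          mul_inv_cancel])
  obtain ⟨x, y, hxy⟩ := hQ.coords γ
  have hnorm : x ^ 2 + (a : ℤ) * y ^ 2 = ((p * (n * n) : ℕ) : ℤ) := by
    rw [← hQ.norm_gen x y, ← hxy, ← hγ, map_mul, map_mul, cc1, norm_r6 hb hS hpa, hn]
  have hn8 : n % 8 = 1 := by omega
  have hNn8 : (p * (n * n)) % 8 = 1 := by
    rw [Nat.mul_mod, Nat.mul_mod n, hp8, hn8]
  obtain ⟨hxo, hye⟩ : Odd x ∧ Even y := by
    apply odd_xz hb.mod
    rw [hnorm]
    exact_mod_cast hNn8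
  have hpZ : Prime (p : ℤ) := Nat.prime_iff_prime_int.1 hp
  have hpx : (p : ℤ) ∣ x := by
    have h1 : (p : ℤ) ∣ x ^ 2 := by
      have h2 : (p : ℤ) ∣ (a : ℤ) := Int.natCast_dvd_natCast.2 hpa
      have h3 : x ^ 2 = ((p * (n * n) : ℕ) : ℤ) - (a : ℤ) * y ^ 2 := by
        rw [← hnorm]
        ring
      rw [h3]
      refine dvd_sub ?_ (h2.mul_right _)
      rw [Nat.cast_mul]
      exact dvd_mul_right _ _
    exact hpZ.dvd_of_dvd_pow h1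
  refine ⟨x, y, hxo, hye, ?_, hpx, ?_, by rw [hγ, hxy]⟩
  swap
  · rw [hnorm, ← hn]
    push_cast
    ring
  rw [Int.isCoprime_iff_gcd_eq_one]
  by_contra hcon
  obtain ⟨r, hr, hrd⟩ := Nat.exists_prime_and_dvd hcon
  have hrx : (r : ℤ) ∣ x := (Int.natCast_dvd_natCast.2 hrd).trans (Int.gcd_dvd_left ..)
  have hry : (r : ℤ) ∣ y := (Int.natCast_dvd_natCast.2 hrd).trans (Int.gcd_dvd_right ..)
  have hr2 : r ≠ 2 := by
    rintro rfl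
    exact (Int.not_even_iff_odd.2 hxo) (even_iff_two_dvd.2 (by exact_mod_cast hrx))
  have hrn : r ∣ n := by
    by_contra h1
    have h2 : (r : ℤ) ^ 2 ∣ ((p * (n * n) : ℕ) : ℤ) := by
      rw [← hnorm]
      exact dvd_add (pow_dvd_pow_of_dvd hrx 2) ((pow_dvd_pow_of_dvd hry 2).mul_left _)
    have h3 : r ^ 2 ∣ p * (n * n) := by exact_mod_cast h2
    have h4 : Nat.Coprime r n := (Nat.Prime.coprime_iff_not_dvd hr).2 h1
    have h5 : Nat.Coprime (r ^ 2) (n * n) := Nat.Coprime.mul_right (h4.pow_left 2) (h4.pow_left 2)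
    have h6 : r ^ 2 ∣ p := h5.dvd_of_dvd_mul_right h3
    have h7 : r ∣ p := (dvd_pow_self r two_ne_zero).trans h6
    have h8 : r = p := (Nat.prime_dvd_prime_iff_eq hr hp).1 h7
    rw [h8] at h6
    have h9 := Nat.le_of_dvd hp.pos h6
    have h10 := hp.two_le
    nlinarith
  have hra : Nat.Coprime r a := by
    rw [hn] at hrn
    exact Nat.Coprime.coprime_dvd_right (dvd_mul_left _ _) (Nat.Coprime.coprime_dvd_left hrn hcc)
  have hJr : r6 S p * (cj τ c0 * cj τ c0) ≤ Ideal.span {((r : ℤ) : 𝓞 K)} := by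
    rw [hγ, Ideal.span_singleton_le_iff_mem, Ideal.mem_span_singleton, hxy]
    obtain ⟨x', rfl⟩ := hrx
    obtain ⟨y', rfl⟩ := hry
    refine ⟨(x' : 𝓞 K) + (y' : 𝓞 K) * S, ?_⟩
    push_cast
    ring
  have mb' : (((p : ℕ) : ℤ) : 𝓞 K) ∈ r6 S p := by
    have h8 := Ideal.absNorm_mem (r6 S p)
    rw [norm_r6 hb hS hpa] at h8
    rw [Int.cast_natCast]
    exact h8
  exact case_n hQ hr hr2 mb' hSu hJr (Nat.Coprime.coprime_dvd_right hpa hra) hra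

end Pool.Agent.Work.MP_8efaaa_nt.Z6
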