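import Mathlib
import Pool.Agent.Work.MP_8efaaa_nt.W6.LFd

/-!
# Z6/LAd (S-M): two formulas on `y^2 = x^3 - x`

Checked by computer modulo several primes (all signs of `r` and `e`). Model: `W6/LFd.lean` (`b_add`), the same computation.
`a_add`: `x0 = -1 + r`, `x0^2 = 1 - 2 x0`, `y0 = e x0`, slope `λ = (y - y0)/(x - x0)`, `x' = λ^2 - x - x0`, `y' = -(λ (x' - x) + y)`. With `y^2 = x^3 - x`: `x' (x - x0)^2 = x0 ((x^2 - 2x - 1) - 2 e y)`, `(x' - x)(x - x0)^2 = x0 (x^2-2x-1) - 2 e x0 y - x (x - x0)^2`, `y' (x-x0)^3 = -((y - y0) (x'-x)(x-x0)^2 + y (x-x0)^3)`. The claim multiplied by `(x - x0)^4` is a polynomial identity modulo `y^2 = x^3 - x`, `r^2 = 2`, `e^2 = -2` (reduce both sides to the form `p(x) + q(x) y` with coefficients in `ℤ[r, e]`; `linear_combination` as in `b_add`).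
`dbl_y`: tangent `λ = (3 x^2 - 1)/(2 y)`, `X = λ^2 - 2 x`, `Y = -(λ (X - x) + y)`. (`W5.dbl_pt` has the first formula; here both are needed for the same point: `Point.add_self_of_Y_ne`, `slope_of_Y_ne`, as in the proof of `W5.dbl_pt`.) `(2y)^2 = 4 (x^3 - x)`; `(3x^2-1)^2 - 8 x (x^3 - x) = (x^2+1)^2`.
-/

set_option autoImplicit false

namespace Pool.Agent.Work.MP_8efaaa_nt.Z6

open Pool.Agent.Work.MP_8efaaa_nt.R Pool.Agent.Work.MP_8efaaa_nt.N5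
  Pool.Agent.Work.MP_8efaaa_nt.K6 Pool.Agent.Work.MP_8efaaa_nt.W14
open scoped Classical

variable {F : Type*} [Field F] [CharZero F]

private theorem add_eqL {x1 y1 x2 y2 x3 y3 L : F} (h1 : y1 ^ 2 = x1 ^ 3 - x1)
    (h2 : y2 ^ 2 = x2 ^ 3 - x2) (hx : x1 ≠ x2) (hL : L * (x1 - x2) = y1 - y2)
    (h3x : x3 = L ^ 2 - x1 - x2) (h3y : y3 = -(L * (x3 - x1) + y1)) :
    ∃ h3, pt x1 y1 h1 + pt x2 y2 h2 = pt x3 y3 h3 := by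
  have hn := WeierstrassCurve.Affine.nonsingular_add (cQ_nonsingular.2 h1) (cQ_nonsingular.2 h2)
    (fun hc => hx hc.1)
  have hs : (cQ F).slope x1 x2 y1 y2 = L := by
    rw [WeierstrassCurve.Affine.slope_of_X_ne hx, div_eq_iff (sub_ne_zero.2 hx), hL]
  have eX : (cQ F).addX x1 x2 ((cQ F).slope x1 x2 y1 y2) = x3 := by
    rw [hs, h3x]
    simp only [WeierstrassCurve.Affine.addX, cQ]
    ring
  have eY : (cQ F).addY x1 x2 y1 ((cQ F).slope x1 x2 y1 y2) = y3 := by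
    simp only [WeierstrassCurve.Affine.addY, WeierstrassCurve.Affine.negAddY, eX]
    rw [hs, h3y]
    simp only [WeierstrassCurve.Affine.negY, cQ]
    ring
  refine ⟨?_, ?_⟩
  · have h3 := cQ_nonsingular.1 hn
    rw [eX, eY] at h3
    exact h3
  · unfold pt
    rw [WeierstrassCurve.Affine.Point.add_of_X_ne hx,
      WeierstrassCurve.Affine.Point.some.injEq]
    exact ⟨eX, eY⟩

private theorem dbl_eqL {x1 y1 x3 y3 L : F} (h1 : y1 ^ 2 = x1 ^ 3 - x1) (hy : y1 ≠ 0)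
    (hL : L * (2 * y1) = 3 * x1 ^ 2 - 1)
    (h3x : x3 = L ^ 2 - x1 - x1) (h3y : y3 = -(L * (x3 - x1) + y1)) :
    ∃ h3, pt x1 y1 h1 + pt x1 y1 h1 = pt x3 y3 h3 := by
  have h2 : (2 : F) * y1 ≠ 0 := mul_ne_zero two_ne_zero hy
  have hne : y1 ≠ (cQ F).negY x1 y1 := by
    rw [negY_cQ]
    intro h0
    apply h2
    linear_combination h0
  have hn := WeierstrassCurve.Affine.nonsingular_add (cQ_nonsingular.2 h1) (cQ_nonsingular.2 h1)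
    (fun hc => hne hc.2)
  have hs : (cQ F).slope x1 x1 y1 y1 = L := by
    rw [WeierstrassCurve.Affine.slope_of_Y_ne rfl hne, negY_cQ]
    have e1 : y1 - -y1 = 2 * y1 := by ring
    rw [e1, div_eq_iff h2, hL]
    simp only [cQ]
    ring
  have eX : (cQ F).addX x1 x1 ((cQ F).slope x1 x1 y1 y1) = x3 := by
    rw [hs, h3x]
    simp only [WeierstrassCurve.Affine.addX, cQ]
    ring
  have eY : (cQ F).addY x1 x1 y1 ((cQ F).slope x1 x1 y1 y1) = y3 := by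
    simp only [WeierstrassCurve.Affine.addY, WeierstrassCurve.Affine.negAddY, eX]
    rw [hs, h3y]
    simp only [WeierstrassCurve.Affine.negY, cQ]
    ring
  refine ⟨?_, ?_⟩
  · have h3 := cQ_nonsingular.1 hn
    rw [eX, eY] at h3
    exact h3
  · unfold pt
    rw [WeierstrassCurve.Affine.Point.add_self_of_Y_ne hne,
      WeierstrassCurve.Affine.Point.some.injEq]
    exact ⟨eX, eY⟩

omit [CharZero F] in
private theorem a_poly {x y r e d X' Y' : F} (h : y ^ 2 = x ^ 3 - x) (hr : r ^ 2 = 2)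
    (he : e ^ 2 = -2) (hd : d = x - (-1 + r))
    (hX : X' = (y - e * (-1 + r)) ^ 2 - (x + (-1 + r)) * d ^ 2)
    (hY : Y' = -((y - e * (-1 + r)) * (X' - x * d ^ 2) + y * d ^ 3)) :
    (X' ^ 2 + d ^ 4) * (x ^ 2 + 2 * x - 1) + e * r * Y' * d * (x ^ 2 - 2 * x - 1) = 0 := by
  subst hY hX hd
  linear_combination (-x ^ 5 + 2 * x ^ 4 * r - 4 * x ^ 4 - x ^ 3 * y * r * e + 3 * x ^ 3 * r ^ 2 * e ^ 2 + 2 *
      x ^ 3 * r ^ 2 - 3 * x ^ 3 * r * e ^ 2 - 2 * x ^ 3 + x ^ 2 * y ^ 2 + x ^ 2 * y * r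
      ^ 2 * e - 3 * x ^ 2 * y * r * e + 4 * x ^ 2 * y * e - 3 * x ^ 2 * r ^ 3 * e ^ 2 -
      2 * x ^ 2 * r ^ 3 + 6 * x ^ 2 * r ^ 2 * e ^ 2 + 10 * x ^ 2 * r ^ 2 - 9 * x ^ 2 * r
      * e ^ 2 - 16 * x ^ 2 * r + 6 * x ^ 2 * e ^ 2 + 6 * x ^ 2 + 2 * x * y ^ 2 - 2 * x *
      y * r ^ 2 * e - 5 * x * y * r * e + 8 * x * y * e + 6 * x * r ^ 3 * e ^ 2 - 4 * x
      * r ^ 3 - 3 * x * r ^ 2 * e ^ 2 + 10 * x * r ^ 2 - 15 * x * r * e ^ 2 - 8 * x * r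
      + 12 * x * e ^ 2 + 3 * x - y ^ 2 - y * r ^ 2 * e + 5 * y * r * e - 4 * y * e + 3 *
      r ^ 3 * e ^ 2 + 2 * r ^ 3 - 12 * r ^ 2 * e ^ 2 - 6 * r ^ 2 + 15 * r * e ^ 2 + 6 *
      r - 6 * e ^ 2 - 2) * h +
      (x ^ 6 * r ^ 2 - x ^ 6 * r + 2 * x ^ 5 * r ^ 3 - 2 * x ^ 5 * r ^ 2 - 4 * x ^ 5 * r + 4 *
      x ^ 5 - 3 * x ^ 4 * r ^ 4 + 7 * x ^ 4 * r ^ 3 - 3 * x ^ 4 * r ^ 2 - 7 * x ^ 4 * r
      + 6 * x ^ 4 - 3 * x ^ 3 * y * r ^ 3 * e + 6 * x ^ 3 * y * r ^ 2 * e - 3 * x ^ 3 *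
      y * r * e - x ^ 3 * r ^ 5 + x ^ 3 * r ^ 4 * e ^ 2 + 10 * x ^ 3 * r ^ 4 - 3 * x ^ 3
      * r ^ 3 * e ^ 2 - 21 * x ^ 3 * r ^ 3 + 3 * x ^ 3 * r ^ 2 * e ^ 2 + 10 * x ^ 3 * r
      ^ 2 - x ^ 3 * r * e ^ 2 + 14 * x ^ 3 * r - 12 * x ^ 3 + 3 * x ^ 2 * y * r ^ 4 * e
      - 7 * x ^ 2 * y * r ^ 3 * e + 9 * x ^ 2 * y * r ^ 2 * e - 9 * x ^ 2 * y * r * e +
      4 * x ^ 2 * y * e + x ^ 2 * r ^ 6 - x ^ 2 * r ^ 5 * e ^ 2 - 3 * x ^ 2 * r ^ 5 + 3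
      * x ^ 2 * r ^ 4 * e ^ 2 + 13 * x ^ 2 * r ^ 4 - 4 * x ^ 2 * r ^ 3 * e ^ 2 - 43 * x
      ^ 2 * r ^ 3 + 4 * x ^ 2 * r ^ 2 * e ^ 2 + 51 * x ^ 2 * r ^ 2 - 3 * x ^ 2 * r * e ^
      2 - 13 * x ^ 2 * r + x ^ 2 * e ^ 2 - 6 * x ^ 2 - 6 * x * y * r ^ 4 * e + 13 * x *
      y * r ^ 3 * e - 15 * x * y * r * e + 8 * x * y * e - 2 * x * r ^ 6 + 2 * x * r ^ 5
      * e ^ 2 + 3 * x * r ^ 5 - 7 * x * r ^ 4 * e ^ 2 + 8 * x * r ^ 4 + 7 * x * r ^ 3 *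
      e ^ 2 - 23 * x * r ^ 3 + x * r ^ 2 * e ^ 2 + 24 * x * r ^ 2 - 5 * x * r * e ^ 2 -
      14 * x * r + 2 * x * e ^ 2 + 4 * x - 3 * y * r ^ 4 * e + 13 * y * r ^ 3 * e - 21 *
      y * r ^ 2 * e + 15 * y * r * e - 4 * y * e - r ^ 6 + r ^ 5 * e ^ 2 + 5 * r ^ 5 - 5
      * r ^ 4 * e ^ 2 - 10 * r ^ 4 + 10 * r ^ 3 * e ^ 2 + 10 * r ^ 3 - 10 * r ^ 2 * e ^
      2 - 5 * r ^ 2 + 5 * r * e ^ 2 + r - e ^ 2) * he +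
      (-x ^ 6 - 2 * x ^ 5 * r - 3 * x ^ 4 * y * r * e + 2 * x ^ 4 * y * e + 5 * x ^ 4 * r ^ 2 -
      6 * x ^ 4 * r + x ^ 4 + 5 * x ^ 3 * y * r ^ 2 * e - 7 * x ^ 3 * y * r * e + 4 * x
      ^ 3 * y * e - 12 * x ^ 3 * r ^ 2 + 26 * x ^ 3 * r - 16 * x ^ 3 - 2 * x ^ 2 * y * r
      ^ 3 * e - 4 * x ^ 2 * y * r ^ 2 * e + 7 * x ^ 2 * y * r * e - x ^ 2 * r ^ 4 - 4 *
      x ^ 2 * r ^ 3 + 9 * x ^ 2 * r ^ 2 + 6 * x ^ 2 * r - 9 * x ^ 2 + 4 * x * y * r ^ 3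
      * e - x * y * r ^ 2 * e - 7 * x * y * r * e + 4 * x * y * e + 6 * x * r ^ 4 - 16 *
      x * r ^ 3 + 18 * x * r ^ 2 - 12 * x * r + 4 * x + 2 * y * r ^ 3 * e - 6 * y * r ^
      2 * e + 6 * y * r * e - 2 * y * e + r ^ 4 - 4 * r ^ 3 + 6 * r ^ 2 - 4 * r + 1) * hr

theorem a_add {x y r e : F} (h : y ^ 2 = x ^ 3 - x) (hr : r ^ 2 = 2) (he : e ^ 2 = -2)
    (hx : x ≠ -1 + r) :
    ∃ (x' y' : F) (h' : y' ^ 2 = x' ^ 3 - x'),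
      pt x y h + pt (-1 + r) (e * (-1 + r)) (W6.sq_D0 hr he) = pt x' y' h' ∧
        (x' ^ 2 + 1) * (x ^ 2 + 2 * x - 1) = -(e * r * y' * (x ^ 2 - 2 * x - 1)) := by
  have hd0 : x - (-1 + r) ≠ 0 := sub_ne_zero.2 hx
  obtain ⟨L, hL⟩ : ∃ L : F, L * (x - (-1 + r)) = y - e * (-1 + r) :=
    ⟨(y - e * (-1 + r)) / (x - (-1 + r)), div_mul_cancel₀ _ hd0⟩
  obtain ⟨h3, e3⟩ := add_eqL (x3 := L ^ 2 - x - (-1 + r))
    (y3 := -(L * (L ^ 2 - x - (-1 + r) - x) + y)) h (W6.sq_D0 hr he) hx hL rfl rfl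
  refine ⟨_, _, h3, e3, ?_⟩
  obtain ⟨d, hd⟩ : ∃ d : F, d = x - (-1 + r) := ⟨_, rfl⟩
  rw [← hd] at hd0 hL
  have hX : (L ^ 2 - x - (-1 + r)) * d ^ 2 =
      (y - e * (-1 + r)) ^ 2 - (x + (-1 + r)) * d ^ 2 := by
    linear_combination (L * d + (y - e * (-1 + r))) * hL
  have hY : -(L * (L ^ 2 - x - (-1 + r) - x) + y) * d ^ 3 =
      -((y - e * (-1 + r)) * ((L ^ 2 - x - (-1 + r)) * d ^ 2 - x * d ^ 2) + y * d ^ 3) := by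
    linear_combination (-((L ^ 2 - x - (-1 + r) - x) * d ^ 2)) * hL
  have hp := a_poly h hr he hd hX hY
  have h4 : d ^ 4 ≠ 0 := pow_ne_zero 4 hd0
  refine mul_left_cancel₀ h4 ?_
  linear_combination hp

theorem dbl_y {x y : F} (h : y ^ 2 = x ^ 3 - x) (hy : y ≠ 0) :
    ∃ (X Y : F) (h' : Y ^ 2 = X ^ 3 - X), pt x y h + pt x y h = pt X Y h' ∧
      X * (2 * y) ^ 2 = (x ^ 2 + 1) ^ 2 ∧
      Y * (2 * y) ^ 3 = (x ^ 2 + 1) * (x ^ 2 + 2 * x - 1) * (x ^ 2 - 2 * x - 1) := by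
  have h2 : (2 : F) * y ≠ 0 := mul_ne_zero two_ne_zero hy
  obtain ⟨L, hL⟩ : ∃ L : F, L * (2 * y) = 3 * x ^ 2 - 1 :=
    ⟨(3 * x ^ 2 - 1) / (2 * y), div_mul_cancel₀ _ h2⟩
  obtain ⟨h3, e3⟩ := dbl_eqL (x3 := L ^ 2 - x - x)
    (y3 := -(L * (L ^ 2 - x - x - x) + y)) h hy hL rfl rfl
  have hX : (L ^ 2 - x - x) * (2 * y) ^ 2 = (x ^ 2 + 1) ^ 2 := by
    linear_combination (L * (2 * y) + (3 * x ^ 2 - 1)) * hL - 8 * x * h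
  refine ⟨_, _, h3, e3, hX, ?_⟩
  linear_combination (-((L ^ 2 - x - x - x) * (2 * y) ^ 2)) * hL - (3 * x ^ 2 - 1) * hX +
    (4 * x * (3 * x ^ 2 - 1) - 8 * (y ^ 2 + (x ^ 3 - x))) * h

end Pool.Agent.Work.MP_8efaaa_nt.Z6
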