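import Mathlib
import Pool.Agent.Work.MP_8efaaa_nt.Z6.LAd
import Pool.Agent.Work.MP_8efaaa_nt.W6.LFd
import Pool.Agent.Work.MP_8efaaa_nt.W14.LVx
import Pool.Agent.Work.MP_8efaaa_nt.W14.LTo
import Pool.Agent.Work.MP_8efaaa_nt.W14.LEp
import Pool.Agent.Work.MP_8efaaa_nt.W14.PGa

/-!
# Z6/LLo (M): the local lemma, `q = 3 (mod 8)`

Model: `W6/LLo.lean` (`loc6`; copy its steps 1, 3, 4 and the private lemmas). Write `a ~ b` for `V (a - b) < 1`. `V 2 = 1` (`vl_odd`), `V J = V r = 1`, `V (J + 1) = V (J - 1) = 1` (product `-2`).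
`loc6n`: suppose `h + gal φ h - TR hr + em ∈ E1 V`.
1. As in `loc6`: `h = pt x y`, `V x ≤ 1`, `V y = 1`, `h + h = pt X Y` (`dbl_y`), `X ~ J`, `Y ~ 1 - J` (`x_of_sub_mem`, `y_of_sub_mem`, `hh`).
2. `A := (x^2+1)/(2y)`, `B := (x^2+2x-1)/(2y)`, `C := (x^2-2x-1)/(2y)`: `A^2 = X`, `B^2 = X + 1`, `C^2 = X - 1`, `A B C = Y` (`dbl_y`, `y^2 = x^3 - x`). So `A^2 ~ J`, `B^2 ~ J + 1`, `C^2 ~ J - 1`, `A B C ~ 1 - J ~ -C^2`, all three have `V = 1`, hence `A B ~ -C`.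
3. `e := J r`, `e^2 = -2`. `tj_add`: `TJ + D0 = TR`, `D0 = pt (-1+r) (e (-1+r))`, `em_add`: `D0 + em = D1 := pt (-1+r) (-e (-1+r))`. So `gal φ h - (h + D1) = (h + gal φ h - TR + em) - (h + h - TJ) - (em + em)`, an element of `E1 V` (`em + em = 0`, `two_ep`).
4. `V (x - (-1+r)) = 1` (otherwise `x^2 + 2x - 1 ~ 0`, `V B < 1`), so `a_add` with `-e` for `e`: `h + D1 = pt x' y'`, `(x'^2+1)(x^2+2x-1) = e r y' (x^2-2x-1)`, `e r = 2 J`. `gal φ h = pt (φ x) (φ y)`, `V (φ x) ≤ 1`, so `x'` is integral, `φ x ~ x'`, `φ y ~ y'`, `V (φ y) = 1` (`φ y ~ y^q`). So `((φ x)^2+1)(x^2+2x-1) ~ 2 J φ y (x^2-2x-1)`; divide by `4 y φ y`: `φ A * B ~ J C`.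
5. `φ A ~ A^q = A (A^2)^((q-1)/2) ~ A J^((q-1)/2) = A J` (`q = 8k+3`, `(q-1)/2 = 4k+1`). So `J A B ~ J C`, `A B ~ C`. With 2.: `2 C ~ 0`, but `V (2 C) = 1`: contradiction.
`loc_e`: if `e = em`: `- em = em`, `loc6n`. If `e = ep = em + ez`: `TR hr + ez = TR hr'` for `-r` (`W6.tr_neg`), `ez + ez = 0`, `- ep = em + ez`: `loc6n` for `-r`.
-/

set_option autoImplicit false

namespace Pool.Agent.Work.MP_8efaaa_nt.Z6

open NumberField Pool.Agent.Work.MP_8efaaa_nt.R Pool.Agent.Work.MP_8efaaa_nt.N5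
  Pool.Agent.Work.MP_8efaaa_nt.K6 Pool.Agent.Work.MP_8efaaa_nt.W14 Pool.Agent.Work.MP_8efaaa_nt.W6
open scoped Classical nonZeroDivisors

variable {F : Type*} [Field F] [NumberField F] {Γ : Type*}
    [LinearOrderedCommGroupWithZero Γ] {V : Valuation F Γ} {L : Ideal (𝓞 F)} {k0 : Type*}
    [Field k0] [Algebra k0 F]

omit [NumberField F] in
private theorem v_of_sub6 {a b : F} (h1 : V (a - b) < 1) (h2 : V b = 1) : V a = 1 := by
  have h3 : a = (a - b) + b := by ring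
  rw [h3, Valuation.map_add_eq_of_lt_right V (by rw [h2]; exact h1), h2]

omit [NumberField F] in
private theorem v_prod6 {a b : F} (ha : V a ≤ 1) (hb : V b ≤ 1) (h : V (a * b) = 1) :
    V a = 1 := by
  rw [map_mul] at h
  by_contra h1
  have h2 : V a < 1 := lt_of_le_of_ne ha h1
  have h3 : V a * V b < 1 := by
    calc V a * V b ≤ V a * 1 := by gcongr
      _ = V a := mul_one _
      _ < 1 := h2
  exact absurd h (ne_of_lt h3)

omit [NumberField F] in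
private theorem v_sqrt6 {a : F} (h : V (a ^ 2) = 1) : V a = 1 := by
  rw [map_pow] at h
  rcases lt_trichotomy (V a) 1 with h1 | h1 | h1
  · exact absurd h (ne_of_lt (pow_lt_one₀ zero_le h1 (by norm_num)))
  · exact h1
  · exact absurd h (ne_of_gt (one_lt_pow₀ h1 (by norm_num)))

omit [NumberField F] in
private theorem v_powsub6 {a b : F} (ha : V a ≤ 1) (hb : V b ≤ 1) (h : V (a - b) < 1) (n : ℕ) :
    V (a ^ n - b ^ n) < 1 := by
  induction n with
  | zero => rw [pow_zero, pow_zero, sub_self, map_zero]; exact zero_lt_one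
  | succ n ih =>
    rw [show a ^ (n + 1) - b ^ (n + 1) = a ^ n * (a - b) + b * (a ^ n - b ^ n) by ring]
    refine W5.vlt V (W5.vltm V ?_ h) (W5.vltm V hb ih)
    rw [map_pow]
    exact pow_le_one₀ zero_le ha

omit [NumberField F] in
private theorem v_A6 (hV2 : V 2 = 1) {X Y X1 Y1 : F}
    (hX : V X ≤ 1) (hY : V Y = 1) (h1 : V (X1 - X) < 1) (h2 : V (Y1 - Y) < 1) :
    V ((X1 ^ 2 + 1) / (2 * Y1) - (X ^ 2 + 1) / (2 * Y)) < 1 := by
  have hY1 : V Y1 = 1 := v_of_sub6 h2 hY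
  have h20 : (2 : F) ≠ 0 := by
    intro h0
    rw [h0, map_zero] at hV2
    exact zero_ne_one hV2
  have hY0 : Y ≠ 0 := by
    rintro rfl
    rw [map_zero] at hY
    exact zero_ne_one hY
  have hY10 : Y1 ≠ 0 := by
    rintro rfl
    rw [map_zero] at hY1
    exact zero_ne_one hY1
  have hX1 : V X1 ≤ 1 := by
    rw [show X1 = (X1 - X) + X by ring]
    exact W5.vle V h1.le hX
  have e : (X1 ^ 2 + 1) / (2 * Y1) - (X ^ 2 + 1) / (2 * Y) =
      ((X1 + X) * Y * (X1 - X) + (-(X ^ 2 + 1)) * (Y1 - Y)) / (2 * (Y1 * Y)) := by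
    field_simp
    ring
  have hd : V (2 * (Y1 * Y)) = 1 := by rw [map_mul, map_mul, hV2, hY1, hY, one_mul, one_mul]
  rw [e, map_div₀, hd, div_one]
  refine W5.vlt V (W5.vltm V (W5.vlem V (W5.vle V hX1 hX) hY.le) h1)
    (W5.vltm V ?_ h2)
  rw [Valuation.map_neg, show X ^ 2 + 1 = X * X + 1 by ring]
  refine W5.vle V (W5.vlem V hX hX) ?_
  rw [map_one]

theorem loc6n (hV : VL V L) {q : ℕ} (hq : q.Prime) (hq8 : q % 8 = 3)
    (hqL : (q : 𝓞 F) ∈ L) {φ : F ≃ₐ[k0] F}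
    (hφ : ∀ x : F, V x ≤ 1 → V (φ x) ≤ 1 ∧ V (φ x - x ^ q) < 1)
    (hφ' : ∀ x : F, 1 < V x → 1 < V (φ x)) {J r : F} (hJ : J ^ 2 = -1) (hr : r ^ 2 = 2)
    {h : (cQ F).Point} (hh : h + h - TJ hJ ∈ W5.E1 V) :
    h + gal φ h - TR hr + W14.em F ∉ W5.E1 V := by
  intro hx
  have hq2 : q ≠ 2 := by
    rintro rfl
    norm_num at hq8
  obtain ⟨-, hV2, -⟩ := vl_odd hV hq hq2 hqL
  obtain ⟨-, t2, -, -, -, -⟩ := two_ep (F := F)
  have h20 : (2 : F) ≠ 0 := two_ne_zero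
  have hm1 : V (-1 : F) = 1 := by rw [Valuation.map_neg, map_one]
  have hVJ : V J = 1 := v_sqrt6 (by rw [hJ, hm1])
  have he : (J * r) ^ 2 = -2 := by rw [mul_pow, hJ, hr]; ring
  have he' : (-(J * r)) ^ 2 = -2 := by rw [neg_sq, he]
  have hTJ : TJ hJ ∉ W5.E1 V := by
    intro h1
    unfold TJ at h1
    rw [W5.pt_mem, hVJ] at h1
    exact lt_irrefl _ h1
  have hhn : h + h ∉ W5.E1 V := by
    intro h1
    apply hTJ
    have h2 := (W5.E1 V).sub_mem h1 hh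
    rwa [sub_sub_cancel] at h2
  -- the translation
  have hm : gal φ h - (h + pt (-1 + r) (-(J * r) * (-1 + r)) (sq_D0 hr he')) ∈ W5.E1 V := by
    have hT := tj_add hJ hr he
    have h1 := (W5.E1 V).sub_mem hx hh
    rw [← hT] at h1
    have h3 := em_add hr he he'
    rw [← h3]
    have h2 : h + gal φ h - (TJ hJ + pt (-1 + r) (J * r * (-1 + r)) (sq_D0 hr he)) +
        W14.em F - (h + h - TJ hJ) =
        gal φ h - (h + (pt (-1 + r) (J * r * (-1 + r)) (sq_D0 hr he) + W14.em F)) +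
          (W14.em F + W14.em F) := by
      abel
    rw [h2, t2, add_zero] at h1
    exact h1
  clear hx
  rcases pt_cases h with rfl | ⟨x, y, hxy, rfl⟩
  · apply hhn
    rw [add_zero]
    exact (W5.E1 V).zero_mem
  have hVx : V x ≤ 1 := by
    by_contra h1
    push Not at h1
    have h2 : pt x y hxy ∈ W5.E1 V := W5.pt_mem.2 h1
    exact hhn ((W5.E1 V).add_mem h2 h2)
  have hVy1 : V y ≤ 1 := W5.v_y V hxy hVx
  have hy0 : y ≠ 0 := by
    rintro rfl
    apply hhn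
    have h1 : -(pt x 0 hxy) = pt x 0 hxy := by
      rw [W5.neg_pt, pt_inj]
      exact ⟨rfl, neg_zero⟩
    have h2 : pt x 0 hxy + pt x 0 hxy = 0 := by
      nth_rewrite 2 [← h1]
      exact add_neg_cancel _
    rw [h2]
    exact (W5.E1 V).zero_mem
  -- the double
  obtain ⟨x2, y2, h3, e1, e2, e2y⟩ := dbl_y hxy hy0
  rw [e1] at hh
  unfold TJ at hh
  have hVx2 : V x2 ≤ 1 := W5.int_of_sub_mem hVJ.le hh
  have hxx := W5.x_of_sub_mem hVJ.le hh
  have hyy := W5.y_of_sub_mem hV2 hVJ.le hh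
  have hVy : V y = 1 := by
    by_contra hc
    have hlt : V y < 1 := lt_of_le_of_ne hVy1 hc
    have h4 : V (x ^ 2 + 1) < 1 := by
      apply W5.vsq
      rw [← e2]
      refine W5.vltm V hVx2 ?_
      rw [pow_two]
      have h5 : V (2 * y) < 1 := W5.vltm V hV2.le hlt
      exact W5.vltm V h5.le h5
    have h5 : V (x ^ 2) = 1 := v_of_sub6 (b := -1) (by rw [sub_neg_eq_add]; exact h4) hm1
    have h6 : V x = 1 := v_sqrt6 h5
    have h7 : V (2 * x) < 1 := by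
      rw [show 2 * x = x * (x ^ 2 + 1) + -(y * y) by linear_combination hxy]
      refine W5.vlt V (W5.vltm V hVx h4) ?_
      rw [Valuation.map_neg]
      exact W5.vltm V hVy1 hlt
    rw [map_mul, hV2, h6, one_mul] at h7
    exact lt_irrefl _ h7
  have hJ1 : V (J + 1) = 1 := by
    refine v_prod6 (a := J + 1) (b := J + -1) ?_ ?_ ?_
    · exact W5.vle V hVJ.le (by rw [map_one])
    · exact W5.vle V hVJ.le hm1.le
    · rw [show (J + 1) * (J + -1) = -2 by linear_combination hJ, Valuation.map_neg, hV2]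
  have hJ2 : V (J - 1) = 1 := by
    refine v_prod6 (a := J - 1) (b := J + 1) ?_ hJ1.le ?_
    · rw [sub_eq_add_neg]
      exact W5.vle V hVJ.le hm1.le
    · rw [show (J - 1) * (J + 1) = -2 by linear_combination hJ, Valuation.map_neg, hV2]
  -- the square roots
  obtain ⟨A, hA⟩ : ∃ A : F, A = (x ^ 2 + 1) / (2 * y) := ⟨_, rfl⟩
  obtain ⟨B, hB⟩ : ∃ B : F, B = (x ^ 2 + 2 * x - 1) / (2 * y) := ⟨_, rfl⟩
  obtain ⟨C, hC⟩ : ∃ C : F, C = (x ^ 2 - 2 * x - 1) / (2 * y) := ⟨_, rfl⟩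
  have hx2 : x2 = (x ^ 2 + 1) ^ 2 / (2 * y) ^ 2 := by
    rw [← e2]
    field_simp
  have h2y : (2 * y) ^ 2 ≠ 0 := pow_ne_zero 2 (mul_ne_zero h20 hy0)
  have hA2 : A ^ 2 = x2 := by
    rw [hA, div_pow, hx2]
  have hB2 : B ^ 2 = x2 + 1 := by
    rw [hB, div_pow, hx2, div_add_one h2y]
    congr 1
    linear_combination -4 * hxy
  have hC2 : C ^ 2 = x2 - 1 := by
    rw [hC, div_pow, hx2, div_sub_one h2y]
    congr 1
    linear_combination 4 * hxy
  have hABC : A * B * C = y2 := by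
    have h4 : (2 * y) ^ 3 ≠ 0 := pow_ne_zero 3 (mul_ne_zero h20 hy0)
    have h5 : A * B * C = ((x ^ 2 + 1) * (x ^ 2 + 2 * x - 1) * (x ^ 2 - 2 * x - 1)) /
        (2 * y) ^ 3 := by
      rw [hA, hB, hC]
      field_simp
    rw [h5, ← e2y, mul_div_assoc, div_self h4, mul_one]
  have hVA : V A = 1 := by
    apply v_sqrt6
    rw [hA2]
    exact v_of_sub6 hxx hVJ
  have hVB : V B = 1 := by
    apply v_sqrt6
    rw [hB2]
    exact v_of_sub6 (b := J + 1) (by rw [add_sub_add_right_eq_sub]; exact hxx) hJ1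
  have hVC : V C = 1 := by
    apply v_sqrt6
    rw [hC2]
    exact v_of_sub6 (b := J - 1) (by rw [sub_sub_sub_cancel_right]; exact hxx) hJ2
  have hABC' : V (A * B + C) < 1 := by
    have h4 : V (C * (A * B + C)) < 1 := by
      rw [show C * (A * B + C) = (y2 - (1 - J)) + (x2 - J) by
        rw [← hABC]
        linear_combination hC2]
      exact W5.vlt V hyy hxx
    rw [map_mul, hVC, one_mul] at h4
    exact h4
  have hxr : x ≠ -1 + r := by
    rintro rfl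
    have h4 : B = 0 := by
      rw [hB, show (-1 + r) ^ 2 + 2 * (-1 + r) - 1 = 0 by linear_combination hr, zero_div]
    rw [h4, map_zero] at hVB
    exact zero_ne_one hVB
  -- the Frobenius
  obtain ⟨x', y', h', e3, e4⟩ := a_add hxy hr he' hxr
  rw [e3, gal_pt] at hm
  have hm' : pt x' y' h' - pt (φ x) (φ y) (gal_eq φ hxy) ∈ W5.E1 V := by
    have h4 := (W5.E1 V).neg_mem hm
    rwa [neg_sub] at h4
  have hVφx : V (φ x) ≤ 1 := (hφ x hVx).1
  have hVx' : V x' ≤ 1 := W5.int_of_sub_mem hVφx hm'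
  have hdx := W5.x_of_sub_mem hVx' hm
  have hdy := W5.y_of_sub_mem hV2 hVx' hm
  have hVφy : V (φ y) = 1 := by
    refine v_of_sub6 (hφ y hVy.le).2 ?_
    rw [map_pow, hVy, one_pow]
  have hVy' : V y' = 1 := by
    refine v_of_sub6 (b := φ y) ?_ hVφy
    rw [← neg_sub, Valuation.map_neg]
    exact hdy
  have hy'0 : y' ≠ 0 := by
    rintro rfl
    rw [map_zero] at hVy'
    exact zero_ne_one hVy'
  have hφA : φ A = ((φ x) ^ 2 + 1) / (2 * φ y) := by
    rw [hA, map_div₀, map_add, map_mul, map_pow, map_ofNat, map_one]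
  have h5 : V (φ A - (x' ^ 2 + 1) / (2 * y')) < 1 := by
    rw [hφA]
    exact v_A6 hV2 hVx' hVy' hdx hdy
  have h6 : (x' ^ 2 + 1) / (2 * y') * B = J * C := by
    rw [hB, hC, div_mul_div_comm, e4]
    have h7 : -(-(J * r) * r * y' * (x ^ 2 - 2 * x - 1)) =
        2 * y' * (J * (x ^ 2 - 2 * x - 1)) := by
      linear_combination (J * y' * (x ^ 2 - 2 * x - 1)) * hr
    rw [h7, mul_div_mul_left _ _ (mul_ne_zero h20 hy'0), mul_div_assoc]
  have h7 : V (φ A * B - J * C) < 1 := by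
    rw [show φ A * B - J * C = B * (φ A - (x' ^ 2 + 1) / (2 * y')) +
      ((x' ^ 2 + 1) / (2 * y') * B - J * C) by ring, h6, sub_self, add_zero]
    exact W5.vltm V hVB.le h5
  obtain ⟨n, hn⟩ : ∃ n, q = 8 * n + 3 := ⟨(q - 3) / 8, by omega⟩
  have h8 : A ^ q = A * (A ^ 2) ^ (4 * n + 1) := by
    rw [hn]
    ring
  have h9 : J ^ (4 * n + 1) = J := by
    have h10 : J ^ 4 = 1 := by
      rw [show J ^ 4 = (J ^ 2) ^ 2 by ring, hJ]
      ring
    rw [pow_succ, pow_mul, h10, one_pow, one_mul]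
  have h10 : V ((A ^ 2) ^ (4 * n + 1) - J ^ (4 * n + 1)) < 1 :=
    v_powsub6 (by rw [hA2]; exact hVx2) hVJ.le (by rw [hA2]; exact hxx) _
  rw [h9] at h10
  have h11 : V (A ^ q - A * J) < 1 := by
    rw [h8, ← mul_sub]
    exact W5.vltm V hVA.le h10
  have h12 : V (φ A - A * J) < 1 := by
    rw [show φ A - A * J = (φ A - A ^ q) + (A ^ q - A * J) by ring]
    exact W5.vlt V (hφ A hVA.le).2 h11
  have h13 : V (J * (A * B - C)) < 1 := by
    rw [show J * (A * B - C) = -(B * (φ A - A * J)) + (φ A * B - J * C) by ring]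
    refine W5.vlt V ?_ h7
    rw [Valuation.map_neg]
    exact W5.vltm V hVB.le h12
  rw [map_mul, hVJ, one_mul] at h13
  have h14 : V (2 * C) < 1 := by
    rw [show 2 * C = (A * B + C) + -(A * B - C) by ring]
    refine W5.vlt V hABC' ?_
    rw [Valuation.map_neg]
    exact h13
  rw [map_mul, hV2, hVC, one_mul] at h14
  exact lt_irrefl _ h14

theorem loc_e (hV : VL V L) {q : ℕ} (hq : q.Prime) (hq8 : q % 8 = 3)
    (hqL : (q : 𝓞 F) ∈ L) {φ : F ≃ₐ[k0] F}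
    (hφ : ∀ x : F, V x ≤ 1 → V (φ x) ≤ 1 ∧ V (φ x - x ^ q) < 1)
    (hφ' : ∀ x : F, 1 < V x → 1 < V (φ x)) {J r : F} (hJ : J ^ 2 = -1) (hr : r ^ 2 = 2)
    {h : (cQ F).Point} (hh : h + h - TJ hJ ∈ W5.E1 V) {e : (cQ F).Point}
    (he : e = ep F ∨ e = W14.em F) : h + gal φ h - TR hr - e ∉ W5.E1 V := by
  obtain ⟨-, t2, t3, -, -, t6⟩ := two_ep (F := F)
  have hn : W14.em F = -W14.em F := (eq_neg_of_add_eq_zero_left t2)
  rcases he with rfl | rfl
  · have hr' : (-r) ^ 2 = 2 := by rw [neg_sq, hr]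
    have h1 := loc6n hV hq hq8 hqL hφ hφ' hJ hr' hh
    rw [tr_neg hr hr', hn] at h1
    rw [← t6]
    have h2 : h + gal φ h - TR hr - (W14.em F + ez F) =
        h + gal φ h - (TR hr + ez F) + -W14.em F := by abel
    rw [h2]
    exact h1
  · have h1 := loc6n hV hq hq8 hqL hφ hφ' hJ hr hh
    rw [hn] at h1
    rw [sub_eq_add_neg]
    exact h1

end Pool.Agent.Work.MP_8efaaa_nt.Z6
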