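import Mathlib

/-!
# Z6/Ar1 (S-M): the quartic symbol

`quart`: `x = p x1`, so `M^2 = p x1^2 + 2 q y^2`. `y ≠ 0` (otherwise `x = ±1`, against `p ∣ x`). `p ∤ y` (`p ∣ x`, coprime). Let `y = ± 2^k y0`, `y0` odd natural. `jacobiSym p y0 = 1`: for a prime `r ∣ y0`: `r ∤ p x1^2` (`r ∤ x` because `IsCoprime x y`; `r ≠ p`, as `p ∤ y`), so `jacobiSym (p * x1^2) y0 = jacobiSym (M^2) y0` (congruent modulo `y0`) is not `0`, so it is `1`, and `jacobiSym (x1^2) y0 = 1`. So `jacobiSym y0 p = 1` (`p = 1 (mod 4)`), `jacobiSym 2 p = 1`, `jacobiSym (-1) p = 1`: `jacobiSym y p = 1`, i.e. `(y : ZMod p) ^ ((p-1)/2) = 1` (Euler: `legendreSym.eq_pow`, `jacobiSym.legendreSym.to_jacobiSym`). `(p-1)/2 = 2 * ((p-1)/4)`.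
In `ZMod p`: `M^2 = 2 q y^2`, so `(jacobiSym M p) = M^((p-1)/2) = (M^2)^((p-1)/4) = (2 q)^((p-1)/4) * (y^2)^((p-1)/4) = (2q)^((p-1)/4)`.
`e8_sq`: `x^2 = p M^2 - 2 m y^2 = p (mod 16)` (`4 ∣ y`, `M^2 = 1 (mod 16)`); `x = ±1 (mod 8)` iff `x^2 = 1 (mod 16)`, `x = ±3 (mod 8)` iff `x^2 = 9 (mod 16)`; `p % 16 = 1` iff `(p-1)/8` is even.
-/

set_option autoImplicit false

namespace Pool.Agent.Work.MP_8efaaa_nt.Z6

private theorem ar1_jac {p q M : ℕ} (hp : p.Prime) (hp8 : p % 8 = 1) {x y : ℤ}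
    (h : x ^ 2 + 2 * (p * q) * y ^ 2 = p * M ^ 2) (hpx : (p : ℤ) ∣ x) (hxy : IsCoprime x y) :
    jacobiSym y p = 1 := by
  haveI : Fact p.Prime := ⟨hp⟩
  have hp0 : (p : ℤ) ≠ 0 := by exact_mod_cast hp.ne_zero
  have hy0 : y ≠ 0 := by
    rintro rfl
    rw [isCoprime_zero_right] at hxy
    have h1 : IsUnit (p : ℤ) := isUnit_of_dvd_unit hpx hxy
    rw [Int.isUnit_iff_natAbs_eq, Int.natAbs_natCast] at h1
    exact hp.one_lt.ne' h1
  have hodd : Odd p := by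
    rw [Nat.odd_iff]
    omega
  obtain ⟨x1, rfl⟩ := hpx
  have hM2 : (M : ℤ) ^ 2 = p * x1 ^ 2 + 2 * q * y ^ 2 := by
    have h1 : (p : ℤ) * (M : ℤ) ^ 2 = p * (p * x1 ^ 2 + 2 * q * y ^ 2) := by
      rw [← h]
      ring
    exact mul_left_cancel₀ hp0 h1
  obtain ⟨k, n, hn, hyn⟩ := Nat.exists_eq_two_pow_mul_odd (n := y.natAbs) (Int.natAbs_ne_zero.2 hy0)
  have hny : (n : ℤ) ∣ y := by
    rw [← Int.dvd_natAbs, hyn]
    push_cast
    exact Dvd.intro_left _ rfl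
  obtain ⟨z, hz⟩ := hny
  have hcy : IsCoprime ((p : ℤ) * x1) n := by
    rw [hz] at hxy
    exact hxy.of_mul_right_left
  have hcp : IsCoprime (p : ℤ) n := hcy.of_mul_left_left
  have hcx : IsCoprime x1 n := hcy.of_mul_left_right
  have hcM : IsCoprime (M : ℤ) n := by
    have h1 : IsCoprime ((M : ℤ) ^ 2) n := by
      have h2 : IsCoprime ((p : ℤ) * x1 ^ 2) n := IsCoprime.mul_left hcp (hcx.pow_left)
      have h3 : (M : ℤ) ^ 2 = p * x1 ^ 2 + (2 * q * y * z) * n := by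
        rw [hM2, hz]
        ring
      rw [h3]
      exact IsCoprime.add_mul_right_left h2 _
    exact (IsCoprime.pow_left_iff (by norm_num)).1 h1
  have hj1 : jacobiSym p n = 1 := by
    have h1 : jacobiSym ((p : ℤ) * x1 ^ 2) n = jacobiSym ((M : ℤ) ^ 2) n := by
      apply jacobiSym.mod_left'
      rw [hM2]
      have h2 : (p : ℤ) * x1 ^ 2 + 2 * q * y ^ 2 = p * x1 ^ 2 + n * (2 * q * y * z) := by
        rw [hz]
        ring
      rw [h2, Int.add_mul_emod_self_left]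
    rw [jacobiSym.mul_left, jacobiSym.sq_one' (Int.isCoprime_iff_gcd_eq_one.1 hcx),
      jacobiSym.sq_one' (Int.isCoprime_iff_gcd_eq_one.1 hcM), mul_one] at h1
    exact h1
  have hj2 : jacobiSym (n : ℤ) p = 1 := by
    rw [← jacobiSym.quadratic_reciprocity_one_mod_four (by omega) hn]
    exact hj1
  have hjm1 : jacobiSym (-1) p = 1 := by
    rw [jacobiSym.at_neg_one hodd, ZMod.χ₄_nat_one_mod_four (by omega)]
  have hj2' : jacobiSym 2 p = 1 := by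
    rw [jacobiSym.at_two hodd, ZMod.χ₈_nat_eq_if_mod_eight]
    rw [if_neg (by omega), if_pos (by omega)]
  have hj3 : jacobiSym (y.natAbs : ℤ) p = 1 := by
    rw [hyn]
    push_cast
    rw [jacobiSym.mul_left, jacobiSym.pow_left, hj2', one_pow, hj2, one_mul]
  rcases Int.natAbs_eq y with h1 | h1
  · rw [h1]
    exact hj3
  · rw [h1, ← neg_one_mul, jacobiSym.mul_left, hjm1, hj3, one_mul]

theorem quart {p q M : ℕ} (hp : p.Prime) (hp8 : p % 8 = 1) {x y : ℤ}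
    (h : x ^ 2 + 2 * (p * q) * y ^ 2 = p * M ^ 2) (hpx : (p : ℤ) ∣ x) (hxy : IsCoprime x y)
    (hx : Odd x) : ((2 * q : ℕ) : ZMod p) ^ ((p - 1) / 4) = ((jacobiSym M p : ℤ) : ZMod p) := by
  haveI : Fact p.Prime := ⟨hp⟩
  have hjy := ar1_jac hp hp8 h hpx hxy
  have hp0 : (p : ℤ) ≠ 0 := by exact_mod_cast hp.ne_zero
  obtain ⟨x1, rfl⟩ := hpx
  have hM2 : (M : ℤ) ^ 2 = p * x1 ^ 2 + 2 * q * y ^ 2 := by
    have h1 : (p : ℤ) * (M : ℤ) ^ 2 = p * (p * x1 ^ 2 + 2 * q * y ^ 2) := by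
      rw [← h]
      ring
    exact mul_left_cancel₀ hp0 h1
  have hM2' : (M : ZMod p) ^ 2 = ((2 * q : ℕ) : ZMod p) * (y : ZMod p) ^ 2 := by
    have h1 := congrArg (Int.cast : ℤ → ZMod p) hM2
    push_cast at h1
    rw [ZMod.natCast_self, zero_mul, zero_add] at h1
    push_cast
    exact h1
  have hhalf : p / 2 = 2 * ((p - 1) / 4) := by omega
  have hy2 : (y : ZMod p) ^ (2 * ((p - 1) / 4)) = 1 := by
    have h1 := legendreSym.eq_pow p y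
    rw [jacobiSym.legendreSym.to_jacobiSym, hjy, hhalf] at h1
    rw [← h1]
    simp
  have hM3 := legendreSym.eq_pow p (M : ℤ)
  rw [jacobiSym.legendreSym.to_jacobiSym, hhalf, Int.cast_natCast, pow_mul, hM2', mul_pow,
    ← pow_mul, hy2, mul_one] at hM3
  exact hM3.symm

theorem mod_sq {p m M : ℕ} (hp8 : p % 8 = 1) {x y : ℤ} (h : x ^ 2 + 2 * m * y ^ 2 = p * M ^ 2)
    (hM : M % 8 = 1) (hy : (4 : ℤ) ∣ y) (hx : Odd x) :
    (x % 8 = 1 ∨ x % 8 = 7) ↔ Even ((p - 1) / 8) := by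
  obtain ⟨b, rfl⟩ := hy
  obtain ⟨a, ha⟩ : ∃ a : ℕ, M = 8 * a + 1 := ⟨M / 8, by omega⟩
  obtain ⟨c, hc⟩ := hx
  have hxr : x = 8 * (x / 8) + x % 8 := by omega
  have e1 : (p : ℤ) * (M : ℤ) ^ 2 = 16 * (p * (4 * a ^ 2 + a)) + p := by
    rw [ha]
    push_cast
    ring
  have e2 : 2 * (m : ℤ) * (4 * b) ^ 2 = 16 * (2 * m * b ^ 2) := by ring
  have e3 : x ^ 2 = 16 * (4 * (x / 8) ^ 2 + (x / 8) * (x % 8)) + (x % 8) ^ 2 := by
    conv_lhs => rw [hxr]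
    ring
  rw [e1, e2, e3] at h
  have h8 : x % 8 = 1 ∨ x % 8 = 3 ∨ x % 8 = 5 ∨ x % 8 = 7 := by omega
  rw [Nat.even_iff]
  generalize (p : ℤ) * (4 * a ^ 2 + a) = A at h
  generalize 2 * (m : ℤ) * b ^ 2 = B at h
  generalize 4 * (x / 8) ^ 2 + (x / 8) * (x % 8) = C at h
  rcases h8 with h8 | h8 | h8 | h8 <;> rw [h8] at h <;> omega

end Pool.Agent.Work.MP_8efaaa_nt.Z6
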