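import Mathlib

/-!
# Z6/A7G (S-M): fourth powers in a finite abelian group (pure Mathlib)

`e * e = 1` is not assumed; `G[2] = {g | g ^ 2 = 1}` has at most two elements (`h2`). Let `φ : G →* G`, `φ x = x ^ 4` (`powMonoidHom 4`), `R = φ.range`. `index R = card (ker φ)` (`card G = card ker * card range`, `card G = index * card range`), and `card (ker φ) ≤ 4`: the map `x ↦ x ^ 2` from `ker φ` to `G[2]` has fibres of at most two elements (two elements of a fibre differ by an element of `G[2]`).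
Let `Z = zpowers g`, `H = G ⧸ Z`, `4 ∣ card H` (`Subgroup.index`). `H` has also at least `4` elements with `x ^ 4 = 1`: `Sylow.exists_subgroup_card_pow_prime` for `2 ^ 2 ∣ card H` gives a subgroup of order `4`. So the subgroup `R'` of the fourth powers of `H` has index `card (ker (x ↦ x ^ 4)) ≥ 4`; `R ⊔ Z` (or: the comap of `R'` to `G`) is the preimage of `R'` (`x Z ∈ R'` iff `x = y ^ 4 * z`, `z ∈ Z`), so `index (R ⊔ Z) = index R' ≥ 4 ≥ index R`, and `R ≤ R ⊔ Z`, so `index (R ⊔ Z) ∣ index R` (`Subgroup.index_dvd_of_le`), hence equal, and `R = R ⊔ Z` (finite group; `Subgroup.relIndex`, or comparing the cardinalities with `Subgroup.eq_of_le_of_card_ge`). So `g ∈ R`.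
-/

set_option autoImplicit false

namespace Pool.Agent.Work.MP_8efaaa_nt.Z6

private theorem index_range {G : Type*} [CommGroup G] [Finite G] (φ : G →* G) :
    φ.range.index = Nat.card φ.ker := by
  have h1 := Subgroup.card_mul_index φ.range
  have h2 := Subgroup.card_mul_index φ.ker
  rw [Subgroup.index_ker] at h2
  have h3 : 0 < Nat.card φ.range := Nat.card_pos
  have h4 : Nat.card φ.range * φ.range.index = Nat.card φ.range * Nat.card φ.ker := by
    rw [h1, mul_comm, h2]
  exact Nat.eq_of_mul_eq_mul_left h3 h4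

private theorem card_sub_two {G : Type*} [CommGroup G] [Finite G] {e : G} (K : Subgroup G)
    (hK : ∀ x ∈ K, x = 1 ∨ x = e) : Nat.card K ≤ 2 := by
  have h1 : (K : Set G) ⊆ {1, e} := by
    intro x hx
    rcases hK x hx with h | h
    · exact Or.inl h
    · exact Or.inr h
  have h2 := Set.ncard_le_ncard h1 (Set.toFinite _)
  have h3 : Set.ncard ({1, e} : Set G) ≤ 2 := by
    refine (Set.ncard_insert_le _ _).trans ?_
    rw [Set.ncard_singleton]
  exact h2.trans h3

private theorem card_ker_four {G : Type*} [CommGroup G] [Finite G] {e : G}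
    (h2 : ∀ g : G, g ^ 2 = 1 → g = 1 ∨ g = e) {φ : G →* G} (hφ : ∀ x, φ x = x ^ 4) :
    Nat.card φ.ker ≤ 4 := by
  obtain ⟨θ, hθ⟩ : ∃ θ : φ.ker →* G, ∀ x, θ x = (x : G) ^ 2 :=
    ⟨(powMonoidHom 2).comp φ.ker.subtype, fun _ => rfl⟩
  have h3 := Subgroup.card_mul_index θ.ker
  rw [Subgroup.index_ker] at h3
  have h4 : Nat.card θ.range ≤ 2 := by
    refine card_sub_two (e := e) θ.range ?_
    rintro _ ⟨x, rfl⟩
    refine h2 _ ?_
    have h5 : φ (x : G) = 1 := x.2
    rw [hφ] at h5
    rw [hθ, ← pow_mul]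
    exact h5
  have h5 : Nat.card θ.ker ≤ 2 := by
    have h6 : Nat.card (θ.ker.map φ.ker.subtype) = Nat.card θ.ker :=
      Nat.card_congr (Subgroup.equivMapOfInjective θ.ker _ φ.ker.subtype_injective).symm.toEquiv
    rw [← h6]
    refine card_sub_two (e := e) _ ?_
    rintro _ ⟨x, hx, rfl⟩
    refine h2 _ ?_
    have h7 : θ x = 1 := hx
    rw [hθ] at h7
    exact h7
  nlinarith

theorem mem_four {G : Type*} [CommGroup G] [Finite G] {e : G}
    (h2 : ∀ g : G, g ^ 2 = 1 → g = 1 ∨ g = e) {g : G}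
    (h : 4 ∣ (Subgroup.zpowers g).index) : ∃ x : G, x ^ 4 = g := by
  obtain ⟨φ, hφ⟩ : ∃ φ : G →* G, ∀ x, φ x = x ^ 4 := ⟨powMonoidHom 4, fun _ => rfl⟩
  obtain ⟨ψ, hψ⟩ : ∃ ψ : G ⧸ Subgroup.zpowers g →* G ⧸ Subgroup.zpowers g, ∀ x, ψ x = x ^ 4 :=
    ⟨powMonoidHom 4, fun _ => rfl⟩
  have hπs : Function.Surjective (QuotientGroup.mk' (Subgroup.zpowers g)) :=
    QuotientGroup.mk'_surjective _
  have h4 : 4 ≤ ψ.range.index := by
    rw [index_range]
    have hd : 2 ^ 2 ∣ Nat.card (G ⧸ Subgroup.zpowers g) := h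
    obtain ⟨K, hK⟩ := Sylow.exists_subgroup_card_pow_prime 2 hd
    have hle : K ≤ ψ.ker := by
      intro x hx
      rw [MonoidHom.mem_ker, hψ]
      have h1 : (⟨x, hx⟩ : K) ^ Nat.card K = 1 := pow_card_eq_one'
      rw [hK] at h1
      exact congrArg Subtype.val h1
    have h5 := Subgroup.card_le_of_le hle
    omega
  have hle : φ.range ≤ ψ.range.comap (QuotientGroup.mk' (Subgroup.zpowers g)) := by
    rintro _ ⟨x, rfl⟩
    rw [Subgroup.mem_comap]
    refine ⟨QuotientGroup.mk' (Subgroup.zpowers g) x, ?_⟩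
    rw [hψ, hφ, map_pow]
  have hidx : (ψ.range.comap (QuotientGroup.mk' (Subgroup.zpowers g))).index = ψ.range.index :=
    Subgroup.index_comap_of_surjective _ hπs
  have hR : φ.range.index ≤ 4 := by
    rw [index_range]
    exact card_ker_four h2 hφ
  have hrel := Subgroup.relIndex_mul_index hle
  rw [hidx] at hrel
  have hpos : 0 < φ.range.index := Nat.pos_of_ne_zero Subgroup.index_ne_zero_of_finite
  have hone : φ.range.relIndex (ψ.range.comap (QuotientGroup.mk' (Subgroup.zpowers g))) = 1 := by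
    rcases Nat.lt_or_ge 1 (φ.range.relIndex
      (ψ.range.comap (QuotientGroup.mk' (Subgroup.zpowers g)))) with h6 | h6
    · nlinarith
    · rcases Nat.eq_zero_or_pos (φ.range.relIndex
        (ψ.range.comap (QuotientGroup.mk' (Subgroup.zpowers g)))) with h7 | h7
      · rw [h7, zero_mul] at hrel
        omega
      · omega
  have hMR := Subgroup.relIndex_eq_one.1 hone
  have hg : g ∈ ψ.range.comap (QuotientGroup.mk' (Subgroup.zpowers g)) := by
    rw [Subgroup.mem_comap]
    have h8 : QuotientGroup.mk' (Subgroup.zpowers g) g = 1 := by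
      rw [← MonoidHom.mem_ker, QuotientGroup.ker_mk']
      exact Subgroup.mem_zpowers g
    rw [h8]
    exact one_mem _
  obtain ⟨x, hx⟩ := hMR hg
  exact ⟨x, by rw [← hφ, hx]⟩

end Pool.Agent.Work.MP_8efaaa_nt.Z6
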