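import Mathlib

/-!
# Z6/A7P (S-M): quartic symbols (pure number theory)

`quart_m`: as `quart` in Z6/Ar1.lean: `p ∣ x`, `x = p x1`, `n^2 = p x1^2 + m y^2`. `y ≠ 0` (otherwise `x = ±1`, against `p ∣ x`), `p ∤ y`. `y = ± 2^k y0`, `y0` odd: for a prime `r ∣ y0`: `r ∤ p x1^2` (`r ∤ x`, `r ≠ p`), so `jacobiSym (p * x1^2) y0 = jacobiSym (n^2) y0` is not `0`, so `1`, `jacobiSym p y0 = 1`, `jacobiSym y0 p = 1` (`p = 1 (mod 4)`), `jacobiSym 2 p = jacobiSym (-1) p = 1`, so `(y : ZMod p)^((p-1)/2) = 1`. In `ZMod p`: `n^2 = m y^2`, `jacobiSym n p = n^((p-1)/2) = (n^2)^((p-1)/4) = m^((p-1)/4) (y^2)^((p-1)/4) = m^((p-1)/4)`.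
`conic5`: `w` is prime to `x` and `y`: a prime `r ∣ w`, `r ∣ x`: `r^2 ∣ q y^2`, `r ∤ y`, so `r^2 ∣ q`, impossible; the same for `y`. So `p ∤ y` (`p ∣ y` gives `p ∣ w`), `q ∤ x`. `y ≠ 0` (otherwise `x = ±1`, `p = w^4`), `x ≠ 0` (odd).
(1) In `ZMod p`: `q y^2 = w^4`, so `q^((p-1)/4) y^((p-1)/2) = w^(p-1) = 1` (`w ≠ 0` in `ZMod p` as `q y^2 ≠ 0`; `q ≠ p` by `q % 8 = 5`). `(y/p) = 1` as above: for a prime `r ∣ y0`: `w^4 = p x^2 (mod r)`, `r ∤ w`, so `jacobiSym p y0 = 1`.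
(2) In `ZMod q`: `p x^2 = w^4`: `p^((q-1)/4) x^((q-1)/2) = 1`. `(x/q) = 1`: `q = 1 (mod 4)`, `(x/q) = (|x|/q) = (q/|x|)`, `w^4 = q y^2 (mod r)` for every prime `r ∣ x`, `r ∤ w`: `jacobiSym (q * y^2) |x| = jacobiSym (w^4) |x| = 1`.
-/

set_option autoImplicit false

namespace Pool.Agent.Work.MP_8efaaa_nt.Z6

private theorem J_one {a z c : ℤ} {b : ℕ} (h : (b : ℤ) ∣ a * z ^ 2 - c ^ 2) (hz : IsCoprime z b)
    (ha : IsCoprime a b) : jacobiSym a b = 1 := by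
  have h1 : jacobiSym (c ^ 2) b = jacobiSym (a * z ^ 2) b :=
    jacobiSym.mod_left' (Int.modEq_iff_dvd.2 h)
  rw [jacobiSym.mul_left, jacobiSym.sq_one' (Int.isCoprime_iff_gcd_eq_one.1 hz), mul_one,
    jacobiSym.pow_left] at h1
  have h2 := jacobiSym.ne_zero (Int.isCoprime_iff_gcd_eq_one.1 ha)
  rcases jacobiSym.trichotomy c b with h3 | h3 | h3
  · rw [h3] at h1
    exact absurd h1.symm h2
  · rw [h3] at h1
    rw [← h1]
    norm_num
  · rw [h3] at h1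
    rw [← h1]
    norm_num

private theorem sym_one {q : ℕ} {y : ℤ} (hq4 : q % 4 = 1) (hc : Odd y ∨ q % 8 = 1) (hy0 : y ≠ 0)
    (h : ∀ b : ℕ, Odd b → (b : ℤ) ∣ y → jacobiSym q b = 1) : jacobiSym y q = 1 := by
  have hqo : Odd q := Nat.odd_iff.2 (by omega)
  obtain ⟨k, m, hm, hkm⟩ := Nat.exists_eq_two_pow_mul_odd (Int.natAbs_ne_zero.2 hy0)
  have hmy : (m : ℤ) ∣ y := by
    rw [← Int.dvd_natAbs, hkm]
    exact_mod_cast Dvd.intro_left _ rfl
  have h1 : jacobiSym m q = 1 := by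
    rw [jacobiSym.quadratic_reciprocity_one_mod_four' hm hq4]
    exact h m hm hmy
  have h2 : jacobiSym 2 q ^ k = 1 := by
    rcases hc with hc | hc
    · have h3 : k = 0 := by
        by_contra hk
        have h4 : Odd y.natAbs := Int.natAbs_odd.2 hc
        rw [hkm, Nat.odd_mul, Nat.odd_pow_iff hk] at h4
        exact absurd h4.1 (by decide)
      rw [h3, pow_zero]
    · have h3 : jacobiSym 2 q = 1 := by
        rw [jacobiSym.at_two hqo, ZMod.χ₈_nat_eq_if_mod_eight, if_neg (by omega),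
          if_pos (Or.inl hc)]
      rw [h3, one_pow]
  have h3 : jacobiSym (y.natAbs : ℤ) q = 1 := by
    rw [hkm]
    push_cast
    rw [jacobiSym.mul_left, jacobiSym.pow_left, h1, h2, one_mul]
  rcases Int.natAbs_eq y with h4 | h4
  · rw [h4]
    exact h3
  · rw [h4, jacobiSym.neg _ hqo, ZMod.χ₄_nat_one_mod_four hq4, one_mul]
    exact h3

private theorem jac_pow {p : ℕ} (hp : p.Prime) (hp2 : p % 2 = 1) (y : ℤ) :
    ((jacobiSym y p : ℤ) : ZMod p) = (y : ZMod p) ^ ((p - 1) / 2) := by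
  have := Fact.mk hp
  rw [← jacobiSym.legendreSym.to_jacobiSym, legendreSym.eq_pow]
  congr 1
  omega

theorem quart_m {p m n : ℕ} (hp : p.Prime) (hp8 : p % 8 = 1) {x y : ℤ}
    (h : x ^ 2 + p * m * y ^ 2 = p * (n : ℤ) ^ 2) (hxy : IsCoprime x y) :
    (m : ZMod p) ^ ((p - 1) / 4) = ((jacobiSym n p : ℤ) : ZMod p) := by
  have := Fact.mk hp
  have hpi : Prime (p : ℤ) := Nat.prime_iff_prime_int.1 hp
  have hp0 : (p : ℤ) ≠ 0 := hpi.ne_zero
  have hpx : (p : ℤ) ∣ x := by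
    refine hpi.dvd_of_dvd_pow (n := 2) ⟨(n : ℤ) ^ 2 - m * y ^ 2, ?_⟩
    linear_combination h
  obtain ⟨x1, rfl⟩ := hpx
  have h1 : p * x1 ^ 2 + m * y ^ 2 = (n : ℤ) ^ 2 := by
    refine mul_left_cancel₀ hp0 ?_
    linear_combination h
  have hy0 : y ≠ 0 := by
    rintro rfl
    rw [isCoprime_zero_right] at hxy
    exact hpi.not_isUnit (isUnit_of_mul_isUnit_left hxy)
  have hy : jacobiSym y p = 1 := by
    refine sym_one (by omega) (Or.inr hp8) hy0 fun b hb hby => ?_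
    have h2 : IsCoprime ((p : ℤ) * x1) b := hxy.of_isCoprime_of_dvd_right hby
    refine J_one (z := x1) (c := n) ?_ h2.of_mul_left_right h2.of_mul_left_left
    obtain ⟨c, hc⟩ := hby
    refine ⟨-(m * y * c), ?_⟩
    linear_combination h1 - (m : ℤ) * y * hc
  have hyp := jac_pow hp (by omega) y
  rw [hy, Int.cast_one] at hyp
  rw [jac_pow hp (by omega) n]
  obtain ⟨r, hr⟩ : ∃ r, (p - 1) / 4 = r := ⟨_, rfl⟩
  have hr2 : (p - 1) / 2 = 2 * r := by omega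
  rw [hr2, pow_mul] at hyp ⊢
  rw [hr]
  have h3 : ((n : ℤ) : ZMod p) ^ 2 = m * (y : ZMod p) ^ 2 := by
    have h4 : (((p * x1 ^ 2 + m * y ^ 2 : ℤ)) : ZMod p) = (((n : ℤ) ^ 2 : ℤ) : ZMod p) := by
      rw [h1]
    push_cast at h4
    rw [ZMod.natCast_self, zero_mul, zero_add] at h4
    push_cast
    exact h4.symm
  rw [h3, mul_pow, ← hyp, mul_one]

theorem conic5 {p q : ℕ} (hp : p.Prime) (hq : q.Prime) (hp8 : p % 8 = 1) (hq8 : q % 8 = 5)
    {x y w : ℤ} (h : p * x ^ 2 + q * y ^ 2 = w ^ 4) (hxy : IsCoprime x y) (hx : Odd x) :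
    (q : ZMod p) ^ ((p - 1) / 4) = 1 ∧ (p : ZMod q) ^ ((q - 1) / 4) = 1 := by
  have := Fact.mk hp
  have := Fact.mk hq
  have hpi : Prime (p : ℤ) := Nat.prime_iff_prime_int.1 hp
  have hqi : Prime (q : ℤ) := Nat.prime_iff_prime_int.1 hq
  have hpq : p ≠ q := by
    rintro rfl
    omega
  have hpq' : ¬ (p : ℤ) ∣ q := by
    intro h1
    exact hpq ((Nat.prime_dvd_prime_iff_eq hp hq).1 (Int.natCast_dvd_natCast.1 h1))
  have hqp' : ¬ (q : ℤ) ∣ p := by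
    intro h1
    exact hpq ((Nat.prime_dvd_prime_iff_eq hq hp).1 (Int.natCast_dvd_natCast.1 h1)).symm
  have hpw : ¬ (p : ℤ) ∣ w := by
    intro h1
    have h2 : (p : ℤ) ∣ y := by
      have h3 : (p : ℤ) ∣ q * y ^ 2 := by
        obtain ⟨c, hc⟩ := h1
        refine ⟨c * w ^ 3 - x ^ 2, ?_⟩
        linear_combination h + w ^ 3 * hc
      rcases hpi.dvd_or_dvd h3 with h4 | h4
      · exact absurd h4 hpq'
      · exact hpi.dvd_of_dvd_pow h4
    have h5 : (p : ℤ) ∣ x := by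
      obtain ⟨c, hc⟩ := h1
      obtain ⟨d, hd⟩ := h2
      have h6 : (p : ℤ) ∣ x ^ 2 := by
        refine ⟨c ^ 2 * w ^ 2 - q * d ^ 2, ?_⟩
        refine mul_left_cancel₀ hpi.ne_zero ?_
        linear_combination h + (w ^ 3 + w ^ 2 * p * c) * hc - (q * y + q * p * d) * hd
      exact hpi.dvd_of_dvd_pow h6
    exact hpi.not_isUnit (hxy.isUnit_of_dvd' h5 h2)
  have hqw : ¬ (q : ℤ) ∣ w := by
    intro h1
    have h2 : (q : ℤ) ∣ x := by
      have h3 : (q : ℤ) ∣ p * x ^ 2 := by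
        obtain ⟨c, hc⟩ := h1
        refine ⟨c * w ^ 3 - y ^ 2, ?_⟩
        linear_combination h + w ^ 3 * hc
      rcases hqi.dvd_or_dvd h3 with h4 | h4
      · exact absurd h4 hqp'
      · exact hqi.dvd_of_dvd_pow h4
    have h5 : (q : ℤ) ∣ y := by
      obtain ⟨c, hc⟩ := h1
      obtain ⟨d, hd⟩ := h2
      have h6 : (q : ℤ) ∣ y ^ 2 := by
        refine ⟨c ^ 2 * w ^ 2 - p * d ^ 2, ?_⟩
        refine mul_left_cancel₀ hqi.ne_zero ?_
        linear_combination h + (w ^ 3 + w ^ 2 * q * c) * hc - (p * x + p * q * d) * hd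
      exact hqi.dvd_of_dvd_pow h6
    exact hqi.not_isUnit (hxy.isUnit_of_dvd' h2 h5)
  have hpy : ¬ (p : ℤ) ∣ y := by
    intro h1
    refine hpw (hpi.dvd_of_dvd_pow (n := 4) ?_)
    obtain ⟨d, hd⟩ := h1
    refine ⟨x ^ 2 + q * y * d, ?_⟩
    linear_combination -h + q * y * hd
  have hqx : ¬ (q : ℤ) ∣ x := by
    intro h1
    refine hqw (hqi.dvd_of_dvd_pow (n := 4) ?_)
    obtain ⟨d, hd⟩ := h1
    refine ⟨y ^ 2 + p * x * d, ?_⟩
    linear_combination -h + p * x * hd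
  have hy0 : y ≠ 0 := by
    rintro rfl
    exact hpy (dvd_zero _)
  have hx0 : x ≠ 0 := by
    rintro rfl
    exact hqx (dvd_zero _)
  have hy : jacobiSym y p = 1 := by
    refine sym_one (by omega) (Or.inr hp8) hy0 fun b hb hby => ?_
    refine J_one (z := x) (c := w ^ 2) ?_ (hxy.of_isCoprime_of_dvd_right hby) ?_
    · obtain ⟨c, hc⟩ := hby
      refine ⟨-(q * y * c), ?_⟩
      linear_combination h - (q : ℤ) * y * hc
    · refine (Int.isCoprime_iff_gcd_eq_one.2 ?_ : IsCoprime (p : ℤ) (b : ℤ))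
      rw [Int.gcd_natCast_natCast]
      refine (Nat.Prime.coprime_iff_not_dvd hp).2 fun h1 => hpy ?_
      exact (Int.natCast_dvd_natCast.2 h1).trans hby
  have hx1 : jacobiSym x q = 1 := by
    refine sym_one (by omega) (Or.inl hx) hx0 fun b hb hbx => ?_
    refine J_one (z := y) (c := w ^ 2) ?_ (hxy.symm.of_isCoprime_of_dvd_right hbx) ?_
    · obtain ⟨c, hc⟩ := hbx
      refine ⟨-(p * x * c), ?_⟩
      linear_combination h - (p : ℤ) * x * hc
    · refine (Int.isCoprime_iff_gcd_eq_one.2 ?_ : IsCoprime (q : ℤ) (b : ℤ))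
      rw [Int.gcd_natCast_natCast]
      refine (Nat.Prime.coprime_iff_not_dvd hq).2 fun h1 => hqx ?_
      exact (Int.natCast_dvd_natCast.2 h1).trans hbx
  constructor
  · have hyp := jac_pow hp (by omega) y
    rw [hy, Int.cast_one] at hyp
    obtain ⟨r, hr⟩ : ∃ r, (p - 1) / 4 = r := ⟨_, rfl⟩
    have hr2 : (p - 1) / 2 = 2 * r := by omega
    have hr4 : p - 1 = 4 * r := by omega
    rw [hr2, pow_mul] at hyp
    rw [hr]
    have hw0 : (w : ZMod p) ≠ 0 := by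
      rw [Ne, ZMod.intCast_zmod_eq_zero_iff_dvd]
      exact hpw
    have hfer := ZMod.pow_card_sub_one_eq_one hw0
    rw [hr4, pow_mul] at hfer
    have h4 : (((p * x ^ 2 + q * y ^ 2 : ℤ)) : ZMod p) = ((w ^ 4 : ℤ) : ZMod p) := by
      rw [h]
    push_cast at h4
    rw [ZMod.natCast_self, zero_mul, zero_add] at h4
    rw [← h4, mul_pow, ← hyp, mul_one] at hfer
    exact hfer
  · have hxp := jac_pow hq (by omega) x
    rw [hx1, Int.cast_one] at hxp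
    obtain ⟨r, hr⟩ : ∃ r, (q - 1) / 4 = r := ⟨_, rfl⟩
    have hr2 : (q - 1) / 2 = 2 * r := by omega
    have hr4 : q - 1 = 4 * r := by omega
    rw [hr2, pow_mul] at hxp
    rw [hr]
    have hw0 : (w : ZMod q) ≠ 0 := by
      rw [Ne, ZMod.intCast_zmod_eq_zero_iff_dvd]
      exact hqw
    have hfer := ZMod.pow_card_sub_one_eq_one hw0
    rw [hr4, pow_mul] at hfer
    have h4 : (((p * x ^ 2 + q * y ^ 2 : ℤ)) : ZMod q) = ((w ^ 4 : ℤ) : ZMod q) := by
      rw [h]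
    push_cast at h4
    rw [ZMod.natCast_self, zero_mul, add_zero] at h4
    rw [← h4, mul_pow, ← hxp, mul_one] at hfer
    exact hfer

end Pool.Agent.Work.MP_8efaaa_nt.Z6
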