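import Mathlib
import Pool.Agent.Work.MP_787500_nt.HC.ClsA
import Pool.Agent.Work.MP_8efaaa_nt.K7.Defs
import Pool.Agent.Work.MP_8efaaa_nt.K7.GRm
import Pool.Agent.Work.MP_8efaaa_nt.K7.GAm
import Pool.Agent.Work.MP_8efaaa_nt.N7.EMain
import Pool.Agent.Work.MP_8efaaa_nt.N7.DIn
import Pool.Agent.Work.MP_8efaaa_nt.T.Fin
import Pool.Agent.Work.MP_8efaaa_nt.K7.MBas
import Pool.Agent.Work.MP_8efaaa_nt.Z6.A7G
import Pool.Agent.Work.MP_8efaaa_nt.Z6.A7E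
import Pool.Agent.Work.MP_8efaaa_nt.Z6.A7P
import Pool.Agent.Work.MP_8efaaa_nt.Z6.A7V

/-!
# Z6/MA7: the class `7`, two prime factors
-/

set_option autoImplicit false

namespace Pool.Agent.Work.MP_8efaaa_nt.Z6

open IsDedekindDomain NumberField Pool.Agent.Work.MP_787500_nt.HC
open Pool.Agent.Work.MP_8efaaa_nt.T Pool.Agent.Work.MP_8efaaa_nt.R
open Pool.Agent.Work.MP_8efaaa_nt.N5 Pool.Agent.Work.MP_8efaaa_nt.N7
open Pool.Agent.Work.MP_8efaaa_nt.K7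
open scoped nonZeroDivisors

theorem main_7 {p q : ℕ} (hp : p.Prime) (hq : q.Prime) (hp8 : p % 8 = 1) (hq8 : q % 8 = 7)
    (hnc : ¬ IsCongruent (p * q)) :
    (q : ZMod p) ^ ((p - 1) / 4) = 1 ∧
      ∀ u v : ℤ, u ^ 2 - 2 * v ^ 2 = p * q → jacobiSym u p = (-1) ^ ((p - 1) / 8) := by
  have hpq : p ≠ q := by
    rintro rfl
    omega
  have hsf : Squarefree (p * q) := by
    rw [Nat.squarefree_mul ((Nat.coprime_primes hp hq).2 hpq)]
    exact ⟨hp.squarefree, hq.squarefree⟩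
  have ha8 : p * q % 8 = 7 := by
    rw [Nat.mul_mod, hp8, hq8]
  obtain ⟨K, _, _, s, hb⟩ := exists_base7 hsf ha8
  obtain ⟨S, hS⟩ := exists_S7 hb
  obtain ⟨v, hv⟩ : ∃ v : HeightOneSpectrum (𝓞 K), (2 : 𝓞 K) ∈ v.asIdeal := by
    obtain ⟨v, hv⟩ := Pool.Agent.Work.MP_787500_nt.Quad.exists_place (K := K) Nat.prime_two
    exact ⟨v, by exact_mod_cast hv⟩
  have h8 : 8 ∣ Nat.card (ClassGroup (𝓞 K)) := by
    by_contra h8
    exact hnc (main7 hb h8)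
  have h4 : 4 ∣ (Subgroup.zpowers (cl (pr v))).index := by
    by_contra h4
    refine hnc (T.main hb hv ?_)
    have h1 : cl (pr v)⁻¹ = (cl (pr v))⁻¹ := map_inv (ClassGroup.mk K) _
    rw [h1, Subgroup.zpowers_inv]
    exact h4
  have htwo := two7 hb hS hp hq rfl
  have hpa : p ∣ p * q := Dvd.intro q rfl
  have hg2 : (cl (idl (K6.r6 S p))) ^ 2 = 1 := by
    have h1 := r7_inv hb hS hpa
    have h2 : cl (idl (K6.r6 S p))⁻¹ = (cl (idl (K6.r6 S p)))⁻¹ := map_inv (ClassGroup.mk K) _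
    rw [h2] at h1
    rw [pow_two]
    nth_rewrite 1 [← h1]
    exact inv_mul_cancel _
  have h4p : 4 ∣ (Subgroup.zpowers (cl (idl (K6.r6 S p)))).index := by
    have e1 := (Subgroup.zpowers (cl (idl (K6.r6 S p)))).index_mul_card
    rw [Nat.card_zpowers] at e1
    have h1 : orderOf (cl (idl (K6.r6 S p))) ∣ 2 := orderOf_dvd_of_pow_eq_one hg2
    obtain ⟨j, hj⟩ := h8
    rw [hj] at e1
    rcases (Nat.dvd_prime Nat.prime_two).1 h1 with h2 | h2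
    · rw [h2, mul_one] at e1
      exact ⟨2 * j, by omega⟩
    · rw [h2] at e1
      exact ⟨j, by omega⟩
  obtain ⟨D1, hD1⟩ := mem_four htwo h4p
  obtain ⟨D2, hD2⟩ := mem_four htwo h4
  obtain ⟨x, y, n, hxy, hco, hx, hn, hj⟩ := el_p hb hS hp hq hp8 hq8 rfl hD1
  obtain ⟨x', y', n', hxy', hco', hx', hy', hn', hj'⟩ := el_v hb hS hp hq hp8 hq8 rfl hv hD2
  have hq1 : (q : ZMod p) ^ ((p - 1) / 4) = 1 := by
    rw [quart_m (m := q) hp hp8 hxy hco, hj, Int.cast_one]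
  refine ⟨hq1, fun u v huv => sym_v hp hq hp8 hq8 ?_ huv hxy' hco' hx' hy' hj'⟩
  have hpF : Fact p.Prime := ⟨hp⟩
  have hq0 : (q : ZMod p) ≠ 0 := by
    rw [Ne, ZMod.natCast_eq_zero_iff]
    intro h1
    exact hpq ((Nat.prime_dvd_prime_iff_eq hp hq).1 h1)
  have h1 : ((q : ℤ) : ZMod p) ≠ 0 := by exact_mod_cast hq0
  rw [← jacobiSym.legendreSym.to_jacobiSym, legendreSym.eq_one_iff p h1,
    ZMod.euler_criterion p h1]
  have h2 : p / 2 = (p - 1) / 4 * 2 := by omega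
  rw [h2, pow_mul, Int.cast_natCast, hq1, one_pow]

end Pool.Agent.Work.MP_8efaaa_nt.Z6
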