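import Mathlib

/-!
# Z6/A5B: the third symbol in the class `5` (pure number theory)

`even_jac`: `T T' = m A^2 + B^2`, `T` odd and prime to `m`, no prime divides all of `A`, `B`, `T`, `T'`:
then `jacobiSym (-m) T = 1`. Induction on `A`: a common prime `l` of `A` and `B` divides one of `T`, `T'`
twice.
`conic5v`: `p = c^2 + d^2`, `u = c e + d f`, `v = d e - c f`, `q = e^2 + f^2`. `N = y v + d w^2`,
`T = w^2 + e y`: `N^2 - 2 d y T v = p (d^2 x^2 + y^2 f^2)`, so `(v/p) = (T/p)`, and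
`T (w^2 - e y) = p x^2 + f^2 y^2`, `T = 1 (mod 4)`.
-/

set_option autoImplicit false

namespace Pool.Agent.Work.MP_8efaaa_nt.Z6

private theorem J_one' {a z c : ℤ} {b : ℕ} (h : (b : ℤ) ∣ a * z ^ 2 - c ^ 2) (hz : IsCoprime z b)
    (ha : IsCoprime a b) : jacobiSym a b = 1 := by
  have h1 : jacobiSym (c ^ 2) b = jacobiSym (a * z ^ 2) b :=
    jacobiSym.mod_left' (Int.modEq_iff_dvd.2 h)
  rw [jacobiSym.mul_left, jacobiSym.sq_one' (Int.isCoprime_iff_gcd_eq_one.1 hz), mul_one,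
    jacobiSym.pow_left] at h1
  have h2 := jacobiSym.ne_zero (Int.isCoprime_iff_gcd_eq_one.1 ha)
  rcases jacobiSym.trichotomy c b with h3 | h3 | h3
  · rw [h3] at h1
    exact absurd h1.symm h2
  · rw [h3] at h1
    rw [← h1]
    norm_num
  · rw [h3] at h1
    rw [← h1]
    norm_num

theorem even_jac {m : ℤ} : ∀ (n : ℕ) (T : ℕ) (T' A B : ℤ), A.natAbs ≤ n → A ≠ 0 → Odd T →
    IsCoprime m T → (T : ℤ) * T' = m * A ^ 2 + B ^ 2 →
    (∀ l : ℕ, l.Prime → (l : ℤ) ∣ A → (l : ℤ) ∣ B → (l : ℤ) ∣ T → ¬ (l : ℤ) ∣ T') →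
    jacobiSym (-m) T = 1 := by
  intro n
  induction n with
  | zero =>
    intro T T' A B h1 h2
    exact absurd (Int.natAbs_eq_zero.1 (by omega)) h2
  | succ n ih =>
    intro T T' A B hn hA hT hm h H
    by_cases hc : IsCoprime A B
    · refine J_one' (z := A) (c := B) ⟨-T', by linear_combination h⟩ ?_ hm.neg_left
      have h1 : IsCoprime A (m * A ^ 2 + B ^ 2) := by
        have h2 : IsCoprime A (B ^ 2) := hc.pow_right
        have h3 := h2.add_mul_left_right (m * A)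
        have e : m * A ^ 2 + B ^ 2 = B ^ 2 + A * (m * A) := by ring
        rw [e]
        exact h3
      rw [← h] at h1
      exact h1.of_mul_right_left
    · have hg : Int.gcd A B ≠ 1 := fun h1 => hc (Int.isCoprime_iff_gcd_eq_one.2 h1)
      obtain ⟨l, hl, hlg⟩ := Nat.exists_prime_and_dvd hg
      have hli : Prime (l : ℤ) := Nat.prime_iff_prime_int.1 hl
      have hlA : (l : ℤ) ∣ A := (Int.natCast_dvd_natCast.2 hlg).trans (Int.gcd_dvd_left _ _)
      have hlB : (l : ℤ) ∣ B := (Int.natCast_dvd_natCast.2 hlg).trans (Int.gcd_dvd_right _ _)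
      have Hl := H l hl hlA hlB
      obtain ⟨A1, rfl⟩ := hlA
      obtain ⟨B1, rfl⟩ := hlB
      have hl0 : (l : ℤ) ≠ 0 := hli.ne_zero
      have hA1 : A1 ≠ 0 := by
        rintro rfl
        exact hA (mul_zero _)
      have hn1 : A1.natAbs ≤ n := by
        rw [Int.natAbs_mul, Int.natAbs_natCast] at hn
        have h2 := hl.two_le
        have h3 : 0 < A1.natAbs := Int.natAbs_pos.2 hA1
        have h4 : 2 * A1.natAbs ≤ l * A1.natAbs := Nat.mul_le_mul_right _ h2
        omega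
      by_cases hlT : (l : ℤ) ∣ T
      · have hlT' := Hl hlT
        obtain ⟨T1, rfl⟩ : l ∣ T := Int.natCast_dvd_natCast.1 hlT
        have h1 : (l : ℤ) ∣ (T1 : ℤ) * T' := by
          refine ⟨m * A1 ^ 2 + B1 ^ 2, ?_⟩
          refine mul_left_cancel₀ hl0 ?_
          push_cast at h
          linear_combination h
        have h2 : (l : ℤ) ∣ T1 := (hli.dvd_or_dvd h1).resolve_right hlT'
        obtain ⟨T2, rfl⟩ : l ∣ T1 := Int.natCast_dvd_natCast.1 h2
        have hm1 : IsCoprime m (l : ℤ) := by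
          push_cast at hm
          exact hm.of_mul_right_left
        have hm2 : IsCoprime m (T2 : ℤ) := by
          push_cast at hm
          exact hm.of_mul_right_right.of_mul_right_right
        have hT0 : l * (l * T2) ≠ 0 := by
          rintro h3
          rw [h3] at hT
          exact absurd hT (by decide)
        have hl0' : l ≠ 0 := hl.ne_zero
        have hT2 : T2 ≠ 0 := by
          rintro rfl
          exact hT0 (by simp)
        have : NeZero l := ⟨hl0'⟩
        have : NeZero T2 := ⟨hT2⟩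
        have : NeZero (l * T2) := ⟨mul_ne_zero hl0' hT2⟩
        have h5 : jacobiSym (-m) l * jacobiSym (-m) l = 1 := by
          rcases jacobiSym.trichotomy (-m) l with h6 | h6 | h6
          · exact absurd h6 (jacobiSym.ne_zero (Int.isCoprime_iff_gcd_eq_one.1 hm1.neg_left))
          · rw [h6]
            norm_num
          · rw [h6]
            norm_num
        rw [jacobiSym.mul_right, jacobiSym.mul_right, ← mul_assoc, h5, one_mul]
        have hTo : Odd T2 := (Nat.odd_mul.1 (Nat.odd_mul.1 hT).2).2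
        refine ih T2 T' A1 B1 hn1 hA1 hTo hm2 ?_ ?_
        · refine mul_left_cancel₀ (mul_ne_zero hl0 hl0) ?_
          push_cast at h
          linear_combination h
        · intro r hr h7 h8 h9
          refine H r hr (h7.mul_left _) (h8.mul_left _) ?_
          push_cast
          exact (h9.mul_left _).mul_left _
      · have h1 : (l : ℤ) ∣ (T : ℤ) * T' := by
          refine ⟨l * (m * A1 ^ 2 + B1 ^ 2), ?_⟩
          linear_combination h
        obtain ⟨T1, rfl⟩ := (hli.dvd_or_dvd h1).resolve_left hlT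
        have h2 : (l : ℤ) ∣ (T : ℤ) * T1 := by
          refine ⟨m * A1 ^ 2 + B1 ^ 2, ?_⟩
          refine mul_left_cancel₀ hl0 ?_
          linear_combination h
        obtain ⟨T2, rfl⟩ := (hli.dvd_or_dvd h2).resolve_left hlT
        refine ih T T2 A1 B1 hn1 hA1 hT hm ?_ ?_
        · refine mul_left_cancel₀ (mul_ne_zero hl0 hl0) ?_
          linear_combination h
        · intro r hr h7 h8 h9 h10
          exact H r hr (h7.mul_left _) (h8.mul_left _) h9 ((h10.mul_left _).mul_left _)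

private theorem sym_one' {q : ℕ} {y : ℤ} (hq8 : q % 8 = 1) (hy0 : y ≠ 0)
    (h : ∀ b : ℕ, Odd b → (b : ℤ) ∣ y → jacobiSym q b = 1) : jacobiSym y q = 1 := by
  have hqo : Odd q := Nat.odd_iff.2 (by omega)
  have hq4 : q % 4 = 1 := by omega
  obtain ⟨k, m, hm, hkm⟩ := Nat.exists_eq_two_pow_mul_odd (Int.natAbs_ne_zero.2 hy0)
  have hmy : (m : ℤ) ∣ y := by
    rw [← Int.dvd_natAbs, hkm]
    exact_mod_cast Dvd.intro_left _ rfl
  have h1 : jacobiSym m q = 1 := by
    rw [jacobiSym.quadratic_reciprocity_one_mod_four' hm hq4]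
    exact h m hm hmy
  have h2 : jacobiSym 2 q ^ k = 1 := by
    have h3 : jacobiSym 2 q = 1 := by
      rw [jacobiSym.at_two hqo, ZMod.χ₈_nat_eq_if_mod_eight, if_neg (by omega),
        if_pos (Or.inl hq8)]
    rw [h3, one_pow]
  have h3 : jacobiSym (y.natAbs : ℤ) q = 1 := by
    rw [hkm]
    push_cast
    rw [jacobiSym.mul_left, jacobiSym.pow_left, h1, h2, one_mul]
  rcases Int.natAbs_eq y with h4 | h4
  · rw [h4]
    exact h3
  · rw [h4, jacobiSym.neg _ hqo, ZMod.χ₄_nat_one_mod_four hq4, one_mul]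
    exact h3

private theorem cop_of {p : ℕ} (hp : p.Prime) {z : ℤ} (h : ¬ (p : ℤ) ∣ z) :
    IsCoprime (p : ℤ) z :=
  ((Nat.prime_iff_prime_int.1 hp).coprime_iff_not_dvd).2 h

private theorem core5 {p q : ℕ} (hp : p.Prime) (hq : q.Prime) (hp8 : p % 8 = 1)
    (hq8 : q % 8 = 5) {x y w c d e f : ℤ} (h : p * x ^ 2 + q * y ^ 2 = w ^ 4)
    (hxy : IsCoprime x y) (hx : Odd x) (hcd : c ^ 2 + d ^ 2 = p) (hef : e ^ 2 + f ^ 2 = q)
    (hT : ¬ (p : ℤ) ∣ w ^ 2 + e * y) (hv : ¬ (p : ℤ) ∣ d * e - c * f)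
    (hpy : ¬ (p : ℤ) ∣ y) : jacobiSym (d * e - c * f) p = 1 := by
  have hpi : Prime (p : ℤ) := Nat.prime_iff_prime_int.1 hp
  have hqi : Prime (q : ℤ) := Nat.prime_iff_prime_int.1 hq
  have hpo : Odd p := Nat.odd_iff.2 (by omega)
  have hx0 : x ≠ 0 := by
    rintro rfl
    exact absurd hx (by decide)
  have hy0 : y ≠ 0 := by
    rintro rfl
    exact hpy (dvd_zero _)
  -- parity
  have h8 : (4 : ℤ) ∣ y ∧ w ^ 2 % 8 = 1 := by
    obtain ⟨k, hk⟩ := hx
    have key : ∀ k y w : ZMod 8, (2 * k + 1) ^ 2 + 5 * y ^ 2 = w ^ 4 →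
        2 * y = 0 ∧ w ^ 2 = 1 := by decide
    have hp' : ((p : ℤ) : ZMod 8) = 1 := by
      have : ((p : ℤ) : ZMod 8) = ((p : ℕ) : ZMod 8) := by push_cast; rfl
      rw [this, ← ZMod.natCast_mod, hp8]
      rfl
    have hq' : ((q : ℤ) : ZMod 8) = 5 := by
      have : ((q : ℤ) : ZMod 8) = ((q : ℕ) : ZMod 8) := by push_cast; rfl
      rw [this, ← ZMod.natCast_mod, hq8]
      rfl
    have h1 : ((p * x ^ 2 + q * y ^ 2 : ℤ) : ZMod 8) = ((w ^ 4 : ℤ) : ZMod 8) := by rw [h]
    rw [hk] at h1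
    simp only [Int.cast_add, Int.cast_mul, Int.cast_pow, Int.cast_ofNat, Int.cast_one] at h1
    rw [hp', hq', one_mul] at h1
    obtain ⟨h2, h3⟩ := key _ _ _ h1
    have h4 : ((2 * y : ℤ) : ZMod 8) = 0 := by
      rw [Int.cast_mul, Int.cast_ofNat]
      exact h2
    have h5 : ((w ^ 2 - 1 : ℤ) : ZMod 8) = 0 := by
      rw [Int.cast_sub, Int.cast_pow, h3, Int.cast_one, sub_self]
    rw [ZMod.intCast_zmod_eq_zero_iff_dvd] at h4 h5
    push_cast at h4 h5
    constructor
    · omega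
    · omega
  obtain ⟨h4y, hw8⟩ := h8
  have hw0 : w ≠ 0 := by
    rintro rfl
    norm_num at hw8
  -- the number `T`
  have hTT : (w ^ 2 + e * y) * (w ^ 2 - e * y) = p * x ^ 2 + (f * y) ^ 2 := by
    linear_combination (-1) * h - y ^ 2 * hef
  have hTpos : 0 < w ^ 2 + e * y := by
    by_contra hneg
    have h1 : w ^ 2 + e * y ≤ 0 := not_lt.1 hneg
    have h2 : 0 < w ^ 2 := by positivity
    have h3 : 0 ≤ w ^ 2 - e * y := by linarith
    have h4 := mul_nonpos_of_nonpos_of_nonneg h1 h3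
    have h5 : 0 < (p : ℤ) * x ^ 2 := by
      have : 0 < (p : ℤ) := by exact_mod_cast hp.pos
      positivity
    have h6 : 0 ≤ (f * y) ^ 2 := sq_nonneg _
    linarith
  obtain ⟨t, ht⟩ := Int.eq_ofNat_of_zero_le hTpos.le
  have ht4 : t % 4 = 1 := by
    obtain ⟨k, hk⟩ := h4y
    have h1 : (w ^ 2 + e * y) % 4 = 1 := by
      rw [hk]
      have : w ^ 2 + e * (4 * k) = w ^ 2 + 4 * (e * k) := by ring
      rw [this]
      omega
    rw [ht] at h1
    omega
  have hto : Odd t := Nat.odd_iff.2 (by omega)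
  have hj : jacobiSym (-(p : ℤ)) t = 1 := by
    refine even_jac x.natAbs t (w ^ 2 - e * y) x (f * y) le_rfl hx0 hto ?_ ?_ ?_
    · rw [← ht]
      exact cop_of hp hT
    · rw [← ht]
      exact hTT
    · intro l hl h1 h2 h3 h4
      rw [← ht] at h3
      have hli : Prime (l : ℤ) := Nat.prime_iff_prime_int.1 hl
      have hl2 : ¬ (l : ℤ) ∣ 2 := by
        intro h5
        have h6 : l ∣ 2 := by exact_mod_cast h5
        have h7 := (Nat.prime_dvd_prime_iff_eq hl Nat.prime_two).1 h6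
        rw [h7, ht] at h3
        have h8 : 2 ∣ t := by exact_mod_cast h3
        omega
      have hly : ¬ (l : ℤ) ∣ y := fun h5 => hli.not_isUnit (hxy.isUnit_of_dvd' h1 h5)
      have hlf : (l : ℤ) ∣ f := (hli.dvd_or_dvd h2).resolve_right hly
      have h5 : (l : ℤ) ∣ 2 * (e * y) := by
        have := dvd_sub h3 h4
        have e1 : w ^ 2 + e * y - (w ^ 2 - e * y) = 2 * (e * y) := by ring
        rwa [e1] at this
      have hle : (l : ℤ) ∣ e :=
        (hli.dvd_or_dvd ((hli.dvd_or_dvd h5).resolve_left hl2)).resolve_right hly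
      obtain ⟨e1, he1⟩ := hle
      obtain ⟨f1, hf1⟩ := hlf
      have h6 : (l : ℤ) * (l * (e1 ^ 2 + f1 ^ 2)) = q := by
        rw [← hef, he1, hf1]
        ring
      have h7 : l ∣ q := by
        have : (l : ℤ) ∣ q := Dvd.intro _ h6
        exact_mod_cast this
      have h8 := (Nat.prime_dvd_prime_iff_eq hl hq).1 h7
      rw [h8] at h6
      have h9 : (q : ℤ) * (e1 ^ 2 + f1 ^ 2) = 1 := by
        refine mul_left_cancel₀ hqi.ne_zero ?_
        rw [h6, mul_one]
      exact hqi.not_isUnit (IsUnit.of_mul_eq_one _ h9)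
  have hjt : jacobiSym (w ^ 2 + e * y) p = 1 := by
    rw [ht]
    rw [jacobiSym.quadratic_reciprocity_one_mod_four' hto (by omega)]
    rw [jacobiSym.neg _ hto, ZMod.χ₄_nat_one_mod_four ht4, one_mul] at hj
    exact hj
  have hpd : ¬ (p : ℤ) ∣ d := by
    intro h1
    have h2 : (p : ℤ) ∣ c := by
      refine hpi.dvd_of_dvd_pow (n := 2) ?_
      obtain ⟨k, hk⟩ := h1
      refine ⟨1 - d * k, ?_⟩
      linear_combination hcd - d * hk
    obtain ⟨k, hk⟩ := h1
    obtain ⟨r, hr⟩ := h2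
    have h3 : (p : ℤ) * (k ^ 2 + r ^ 2) = 1 := by
      refine mul_left_cancel₀ hpi.ne_zero ?_
      rw [hk, hr] at hcd
      linear_combination hcd
    exact hpi.not_isUnit (IsUnit.of_mul_eq_one _ h3)
  have hd0 : d ≠ 0 := by
    rintro rfl
    exact hpd (dvd_zero _)
  have hjd : jacobiSym d p = 1 := by
    refine sym_one' hp8 hd0 fun b hb hbd => ?_
    refine J_one' (z := 1) (c := c) ?_ isCoprime_one_left ?_
    · obtain ⟨k, hk⟩ := hbd
      refine ⟨d * k, ?_⟩
      linear_combination (-1) * hcd + d * hk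
    · exact cop_of hp fun h1 => hpd (h1.trans hbd)
  have hjy : jacobiSym y p = 1 := by
    refine sym_one' hp8 hy0 fun b hb hby => ?_
    refine J_one' (z := x) (c := w ^ 2) ?_ (hxy.of_isCoprime_of_dvd_right hby) ?_
    · obtain ⟨k, hk⟩ := hby
      refine ⟨-(q * y * k), ?_⟩
      linear_combination h - (q : ℤ) * y * hk
    · exact cop_of hp fun h1 => hpy (h1.trans hby)
  have hj2 : jacobiSym 2 p = 1 := by
    rw [jacobiSym.at_two hpo, ZMod.χ₈_nat_eq_if_mod_eight, if_neg (by omega),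
      if_pos (Or.inl hp8)]
  have hp2 : ¬ (p : ℤ) ∣ 2 := by
    intro h1
    have h2 : p ∣ 2 := by exact_mod_cast h1
    have := (Nat.prime_dvd_prime_iff_eq hp Nat.prime_two).1 h2
    omega
  -- the identity
  have hN : (y * (d * e - c * f) + d * w ^ 2) ^ 2 -
      2 * d * y * (w ^ 2 + e * y) * (d * e - c * f) = p * (d ^ 2 * x ^ 2 + y ^ 2 * f ^ 2) := by
    linear_combination (-d ^ 2) * h - d ^ 2 * y ^ 2 * hef + y ^ 2 * f ^ 2 * hcd
  have hprod : ¬ (p : ℤ) ∣ 2 * d * y * (w ^ 2 + e * y) * (d * e - c * f) := by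
    intro h1
    rcases hpi.dvd_or_dvd h1 with h1 | h1
    · rcases hpi.dvd_or_dvd h1 with h1 | h1
      · rcases hpi.dvd_or_dvd h1 with h1 | h1
        · rcases hpi.dvd_or_dvd h1 with h1 | h1
          · exact hp2 h1
          · exact hpd h1
        · exact hpy h1
      · exact hT h1
    · exact hv h1
  have hJ : jacobiSym (2 * d * y * (w ^ 2 + e * y) * (d * e - c * f)) p = 1 := by
    refine J_one' (z := 1) (c := y * (d * e - c * f) + d * w ^ 2) ?_ isCoprime_one_left ?_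
    · refine ⟨-(d ^ 2 * x ^ 2 + y ^ 2 * f ^ 2), ?_⟩
      linear_combination (-1) * hN
    · exact (cop_of hp hprod).symm
  rw [jacobiSym.mul_left, jacobiSym.mul_left, jacobiSym.mul_left, jacobiSym.mul_left, hj2, hjd,
    hjy, hjt, one_mul, one_mul, one_mul, one_mul] at hJ
  exact hJ

theorem conic5v {p q : ℕ} (hp : p.Prime) (hq : q.Prime) (hp8 : p % 8 = 1) (hq8 : q % 8 = 5)
    {x y w : ℤ} (h : p * x ^ 2 + q * y ^ 2 = w ^ 4) (hxy : IsCoprime x y) (hx : Odd x)
    {u v : ℤ} (huv : u ^ 2 + v ^ 2 = p * q) : jacobiSym v p = 1 := by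
  have hpi : Prime (p : ℤ) := Nat.prime_iff_prime_int.1 hp
  have hpo : Odd p := Nat.odd_iff.2 (by omega)
  have hpq : p ≠ q := by
    rintro rfl
    omega
  have hpq' : ¬ (p : ℤ) ∣ q := by
    intro h1
    exact hpq ((Nat.prime_dvd_prime_iff_eq hp hq).1 (Int.natCast_dvd_natCast.1 h1))
  have hpw : ¬ (p : ℤ) ∣ w := by
    intro h1
    have h2 : (p : ℤ) ∣ y := by
      have h3 : (p : ℤ) ∣ q * y ^ 2 := by
        obtain ⟨c, hc⟩ := h1
        refine ⟨c * w ^ 3 - x ^ 2, ?_⟩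
        linear_combination h + w ^ 3 * hc
      rcases hpi.dvd_or_dvd h3 with h4 | h4
      · exact absurd h4 hpq'
      · exact hpi.dvd_of_dvd_pow h4
    have h5 : (p : ℤ) ∣ x := by
      obtain ⟨c, hc⟩ := h1
      obtain ⟨d, hd⟩ := h2
      have h6 : (p : ℤ) ∣ x ^ 2 := by
        refine ⟨c ^ 2 * w ^ 2 - q * d ^ 2, ?_⟩
        refine mul_left_cancel₀ hpi.ne_zero ?_
        linear_combination h + (w ^ 3 + w ^ 2 * p * c) * hc - (q * y + q * p * d) * hd
      exact hpi.dvd_of_dvd_pow h6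
    exact hpi.not_isUnit (hxy.isUnit_of_dvd' h5 h2)
  have hpy : ¬ (p : ℤ) ∣ y := by
    intro h1
    refine hpw (hpi.dvd_of_dvd_pow (n := 4) ?_)
    obtain ⟨d, hd⟩ := h1
    refine ⟨x ^ 2 + q * y * d, ?_⟩
    linear_combination -h + q * y * hd
  have hpv : ¬ (p : ℤ) ∣ v := by
    intro h1
    have h2 : (p : ℤ) ∣ u := by
      refine hpi.dvd_of_dvd_pow (n := 2) ?_
      obtain ⟨k, hk⟩ := h1
      refine ⟨q - v * k, ?_⟩
      linear_combination huv - v * hk
    obtain ⟨k, hk⟩ := h1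
    obtain ⟨r, hr⟩ := h2
    refine hpq' ⟨k ^ 2 + r ^ 2, ?_⟩
    refine mul_left_cancel₀ hpi.ne_zero ?_
    rw [hk, hr] at huv
    linear_combination (-1) * huv
  have : Fact p.Prime := ⟨hp⟩
  obtain ⟨c0, d0, hcd0⟩ := Nat.Prime.sq_add_sq (p := p) (by omega)
  have hcd : ∃ c d : ℤ, c ^ 2 + d ^ 2 = p ∧ (p : ℤ) ∣ u * c + v * d := by
    have h1 : (c0 : ℤ) ^ 2 + (d0 : ℤ) ^ 2 = p := by exact_mod_cast hcd0
    have h2 : (p : ℤ) ∣ (u * c0 + v * d0) * (u * c0 + v * (-d0)) := by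
      refine ⟨(c0 : ℤ) ^ 2 * q - v ^ 2, ?_⟩
      linear_combination (c0 : ℤ) ^ 2 * huv - v ^ 2 * h1
    rcases hpi.dvd_or_dvd h2 with h3 | h3
    · exact ⟨c0, d0, h1, h3⟩
    · exact ⟨c0, -d0, by rw [neg_sq]; exact h1, h3⟩
  obtain ⟨c, d, hcd, e, he⟩ := hcd
  have hf : (p : ℤ) ∣ u * d - v * c := by
    refine hpi.dvd_of_dvd_pow (n := 2) ?_
    refine ⟨p * q - p * e ^ 2, ?_⟩
    linear_combination (c ^ 2 + d ^ 2) * huv + p * q * hcd - (u * c + v * d + p * e) * he
  obtain ⟨f, hf⟩ := hf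
  have hef : e ^ 2 + f ^ 2 = q := by
    refine mul_left_cancel₀ (mul_ne_zero hpi.ne_zero hpi.ne_zero) ?_
    linear_combination (c ^ 2 + d ^ 2) * huv + p * q * hcd - (u * c + v * d + p * e) * he -
      (u * d - v * c + p * f) * hf
  have hv : v = d * e - c * f := by
    refine mul_left_cancel₀ hpi.ne_zero ?_
    linear_combination (-v) * hcd + d * he - c * hf
  have hpv' : ¬ (p : ℤ) ∣ d * e - c * f := by
    rw [← hv]
    exact hpv
  by_cases hT : (p : ℤ) ∣ w ^ 2 + e * y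
  · have hT' : ¬ (p : ℤ) ∣ w ^ 2 + (-e) * y := by
      intro h1
      have h2 := dvd_add hT h1
      have e1 : w ^ 2 + e * y + (w ^ 2 + (-e) * y) = 2 * w ^ 2 := by ring
      rw [e1] at h2
      rcases hpi.dvd_or_dvd h2 with h3 | h3
      · have h4 : p ∣ 2 := by exact_mod_cast h3
        have := (Nat.prime_dvd_prime_iff_eq hp Nat.prime_two).1 h4
        omega
      · exact hpw (hpi.dvd_of_dvd_pow h3)
    have h1 : ¬ (p : ℤ) ∣ d * (-e) - c * (-f) := by
      have e1 : d * (-e) - c * (-f) = -(d * e - c * f) := by ring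
      rw [e1, dvd_neg]
      exact hpv'
    have h2 := core5 hp hq hp8 hq8 (e := -e) (f := -f) h hxy hx hcd
      (by rw [neg_sq, neg_sq]; exact hef) hT' h1 hpy
    have e1 : d * (-e) - c * (-f) = -v := by
      rw [hv]
      ring
    rw [e1, jacobiSym.neg _ hpo, ZMod.χ₄_nat_one_mod_four (by omega), one_mul] at h2
    exact h2
  · rw [hv]
    exact core5 hp hq hp8 hq8 h hxy hx hcd hef hT hpv' hpy

end Pool.Agent.Work.MP_8efaaa_nt.Z6
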