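import Mathlib
import Pool.Agent.Work.MP_8efaaa_nt.V6.Defs
import Pool.Agent.Work.MP_8efaaa_nt.V6.GSu
import Pool.Agent.Work.MP_8efaaa_nt.V6.GNu
import Pool.Agent.Work.MP_8efaaa_nt.W14.CEq
import Pool.Agent.Work.MP_8efaaa_nt.W14.CCh
import Pool.Agent.Work.MP_8efaaa_nt.W6.CGr
import Pool.Agent.Work.MP_8efaaa_nt.W6.CSq

/-!
# Z6/Cl (M): the classes

`grpz`: `W6.grp2` gives `ρ'` with ideal `r6 S (a/2) * r6 S q = r6 S p * r6 S q * r6 S q = (q) * r6 S p` (`a / 2 = p q`, `r6_mul`, `r6_sq`). `ρ := r6 S p` has norm `p = 1 (mod 8)` (`norm_r6`), and `cls ρ' = cls ρ` (`cls_mul`, `cls_span`), so `clN ρ' = clN ρ`.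
`prod_inv`: `∏ g = ∏ g⁻¹`.. : the involution `g ↦ g⁻¹` has the fixed points `1` and `e` (`hG`; `g⁻¹ = g` iff `g * g = 1`), so the other elements cancel in pairs: `Finset.prod_involution` for `univ \ {1, e}` (`∏ = 1`), and `1 * e = e`.
`nsqz`: the proof of `W6.nsq_p` (W6/CSq.lean), with `N b % 8 = 7` in place of `N b % 16 = 15` (copy it): `clN (c * c) = clN w0` gives `cls b = C * C` (`V6.clN_eq`, `cls (span {1+S}) = 1`), `V6.chi_sq1` for `q`: `jacobiSym (N b) q = 1`; but `jacobiSym q (N b) = 1` and both are `3 (mod 4)`: `jacobiSym (N b) q = -1`.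
`sym_wz`: `N w0 = (1 + a) N b` (`norm_g`), `p ∣ a`: `jacobiSym (N w0) p = jacobiSym (N b) p` (`jacobiSym.mod_left`), `= jacobiSym p (N b)` (`p = 1 (mod 4)`, `jacobiSym.quadratic_reciprocity_one_mod_four`).
`sym_c`: `clN c = clN (w ^ n)`, so `cls c = cls (w ^ n)` (`V6.clN_eq`), `c * cj τ (w ^ n)` is principal (`cls_cj`, `prin_of_cls`), `= (x + y S)`, so `N c * (N w) ^ n = x^2 + a y^2` (`norm_cj6`, `norm_lin6`), `= x^2 (mod p)`, prime to `p` (`jacobiSym (N w) p ≠ 0`), so `jacobiSym (N c * (N w)^n) p = 1`: `jacobiSym (N c) p = (jacobiSym (N w) p)^n`.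
-/

set_option autoImplicit false

namespace Pool.Agent.Work.MP_8efaaa_nt.Z6

open NumberField Pool.Agent.Work.MP_8efaaa_nt.R Pool.Agent.Work.MP_8efaaa_nt.N5
  Pool.Agent.Work.MP_8efaaa_nt.K6 Pool.Agent.Work.MP_8efaaa_nt.W14
open scoped Classical nonZeroDivisors

private theorem z_J_pm {p : ℕ} (hp : p.Prime) {n : ℕ} (h : ¬ p ∣ n) :
    jacobiSym n p = 1 ∨ jacobiSym n p = -1 := by
  apply jacobiSym.eq_one_or_neg_one
  rw [Int.gcd_natCast_natCast]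
  exact ((Nat.Prime.coprime_iff_not_dvd hp).2 h).symm

private theorem z_J_ne {p : ℕ} (hp : p.Prime) {n : ℕ} (h : jacobiSym n p ≠ 0) : ¬ p ∣ n := by
  intro h1
  apply h
  haveI : NeZero p := ⟨hp.ne_zero⟩
  rw [jacobiSym.eq_zero_iff_not_coprime]
  rw [Int.gcd_natCast_natCast, Nat.gcd_eq_right h1]
  exact hp.one_lt.ne'

private theorem z_nd_of_cop {p n m : ℕ} (hp : p.Prime) (hpm : p ∣ m) (h : Nat.Coprime n m) :
    ¬ p ∣ n := by
  intro hln
  have h1 : Nat.Coprime n p := Nat.Coprime.coprime_dvd_right hpm h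
  exact hp.one_lt.ne' ((Nat.gcd_eq_right hln).symm.trans h1)

private theorem z_a16 {p q : ℕ} (hp8 : p % 8 = 1) (hq8 : q % 8 = 3) : (2 * p * q) % 16 = 6 := by
  have h : (p * q) % 8 = 3 := by
    rw [Nat.mul_mod, hp8, hq8]
  rw [mul_assoc]
  omega

private theorem z_jac_mod {a b l : ℕ} (h : a % l = b % l) : jacobiSym a l = jacobiSym b l := by
  apply jacobiSym.mod_left'
  exact_mod_cast h

theorem prod_inv {G : Type*} [CommGroup G] [Fintype G] {e : G} (he : e ≠ 1)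
    (hG : ∀ g : G, g * g = 1 ↔ g = 1 ∨ g = e) : ∏ g : G, g = e := by
  classical
  rw [← Finset.mul_prod_erase Finset.univ (fun g : G => g) (Finset.mem_univ e)]
  have hee : e * e = 1 := (hG e).2 (Or.inr rfl)
  have h1 : ∏ x ∈ Finset.univ.erase e, x = 1 := by
    refine Finset.prod_involution (fun g _ => g⁻¹) ?_ ?_ ?_ ?_
    · intro g _
      exact mul_inv_cancel g
    · intro g hg h2 h3
      have h4 : g * g = 1 := by
        rw [← inv_eq_iff_mul_eq_one]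
        exact h3
      rcases (hG g).1 h4 with h5 | h5
      · exact h2 h5
      · exact (Finset.mem_erase.1 hg).1 h5
    · intro g hg
      rw [Finset.mem_erase]
      refine ⟨?_, Finset.mem_univ _⟩
      intro h2
      apply (Finset.mem_erase.1 hg).1
      rw [← inv_inv g, h2]
      exact inv_eq_iff_mul_eq_one.2 hee
    · intro g _
      exact inv_inv g
  rw [h1, mul_one]

variable {K : Type*} [Field K] [NumberField K] {s : K} {S : 𝓞 K} {τ : 𝓞 K ≃+* 𝓞 K}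

private theorem z_cls_g {p q : ℕ} (hb : B6 K (2 * p * q) s) (hS : algebraMap (𝓞 K) K S = s) :
    Ideal.span {(1 + S : 𝓞 K)} ≠ 0 ∧ cls (Ideal.span {(1 + S : 𝓞 K)}) = 1 := by
  have hg := norm_g hb hS
  have hg0 : Ideal.span {(1 + S : 𝓞 K)} ≠ 0 := by
    intro h
    rw [h, map_zero] at hg
    omega
  refine ⟨hg0, cls_span (by
    intro h
    apply hg0
    rw [h]
    exact Ideal.span_singleton_eq_bot.2 rfl)⟩

private theorem z_wdp {a : ℕ} (hb : B6 K a s) (hS : algebraMap (𝓞 K) K S = s) (hτ : τ S = -S)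
    {p : ℕ} (hp : p.Prime) (hp2 : p ≠ 2) (hpa : p ∣ a)
    {b c : Ideal (𝓞 K)} (hb0 : b ≠ 0) (hc0 : c ≠ 0) (hbp : ¬ p ∣ Ideal.absNorm b)
    (hcp : ¬ p ∣ Ideal.absNorm c) (h : cls b = cls c) :
    jacobiSym (Ideal.absNorm b) p = jacobiSym (Ideal.absNorm c) p := by
  obtain ⟨h1, h2⟩ := cls_cj hb hS hτ hc0
  obtain ⟨γ, hγ0, hγ⟩ := prin_of_cls (mul_ne_zero hb0 h1)
    (by rw [cls_mul hb0 h1, h2, h, mul_inv_cancel])
  obtain ⟨x, y, hxy⟩ := coords6 hb γ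
  have h3 := norm_lin6 hb hxy
  rw [← hγ, map_mul, (norm_cj6 hb hS hτ c).1] at h3
  have h4 : jacobiSym ((Ideal.absNorm b * Ideal.absNorm c : ℕ) : ℤ) p = 1 := by
    refine num_desc hp hp2 (a := a) hpa hb.sf (M := 1) (x := x) (y := y)
      one_ne_zero ?_ ?_
    · intro h5
      rcases (Nat.Prime.dvd_mul hp).1 h5 with h6 | h6
      · exact hbp h6
      · exact hcp h6
    · rw [h3]
      push_cast
      ring
  rw [Nat.cast_mul, jacobiSym.mul_left] at h4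
  rcases z_J_pm hp hbp with h5 | h5 <;> rcases z_J_pm hp hcp with h6 | h6 <;> rw [h5, h6] at h4 ⊢
  · norm_num at h4
  · norm_num at h4

theorem grpz {p q : ℕ} (hp : p.Prime) (hq : q.Prime) (hp8 : p % 8 = 1) (hq8 : q % 8 = 3)
    (hb : B6 K (2 * p * q) s) (hS : algebraMap (𝓞 K) K S = s) (hτ : τ S = -S) :
    ∃ ρ : V6.M1 K, (ρ : Ideal (𝓞 K)) = r6 S p ∧ V6.clN S ρ ≠ 1 ∧
      ∀ g : CG S, g * g = 1 ↔ g = 1 ∨ g = V6.clN S ρ := by
  obtain ⟨ρ', hρ', hne, hG⟩ := W6.grp2 hp hq hp8 hq8 hb hS hτ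
  have dp : p ∣ 2 * p * q := ⟨2 * q, by ring⟩
  have dq : q ∣ 2 * p * q := ⟨2 * p, by ring⟩
  have dpq : p * q ∣ 2 * p * q := ⟨2, by ring⟩
  have ha2 : 2 * p * q / 2 = p * q := by
    rw [show 2 * p * q = 2 * (p * q) by ring]
    exact Nat.mul_div_cancel_left _ (by norm_num)
  have hN : Ideal.absNorm (r6 S p) % 8 = 1 := by
    rw [norm_r6 hb hS dp, hp8]
  have hp0 := r6_ne hb hS dp
  have hq0 := r6_ne hb hS dq
  have hcl : V6.clN S ρ' = V6.clN S ⟨r6 S p, hN⟩ := by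
    show (QuotientGroup.mk (cls (ρ' : Ideal (𝓞 K))) : CG S) = QuotientGroup.mk (cls (r6 S p))
    have hqS : (q : 𝓞 K) ≠ 0 := by
      rw [Nat.cast_ne_zero]
      exact hq.ne_zero
    rw [hρ', ha2, r6_mul hb hS dpq, mul_assoc, r6_sq hb hS dq, cls_mul hp0 (by
      intro h
      exact hqS (Ideal.span_singleton_eq_bot.1 h)), cls_span hqS, mul_one]
  rw [hcl] at hne hG
  exact ⟨⟨r6 S p, hN⟩, rfl, hne, hG⟩

theorem nsqz {p q : ℕ} (hp : p.Prime) (hq : q.Prime) (hp8 : p % 8 = 1) (hq8 : q % 8 = 3)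
    (hb : B6 K (2 * p * q) s) (hS : algebraMap (𝓞 K) K S = s) (hτ : τ S = -S)
    {b : Ideal (𝓞 K)} (hb8 : Ideal.absNorm b % 8 = 7)
    (hbc : Nat.Coprime (Ideal.absNorm b) (2 * p * q))
    (hj : jacobiSym q (Ideal.absNorm b) = 1) {w0 : V6.M1 K}
    (hw : (w0 : Ideal (𝓞 K)) = Ideal.span {1 + S} * b) (g : CG S) :
    g * g ≠ V6.clN S w0 := by
  have _ := hp
  intro hg
  obtain ⟨c, rfl⟩ := V6.clN_surj hb hS (z_a16 hp8 hq8) g
  rw [← map_mul] at hg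
  have h1 := V6.clN_eq hb hS hτ (z_a16 hp8 hq8) hg
  have hb0 : b ≠ 0 := by
    rintro rfl
    rw [map_zero] at hb8
    norm_num at hb8
  obtain ⟨g0, g1⟩ := z_cls_g hb hS
  have hc0 : (c : Ideal (𝓞 K)) ≠ 0 := V6.M1.ne c.2
  have h2 : cls b = cls (c : Ideal (𝓞 K)) * cls (c : Ideal (𝓞 K)) := by
    rw [hw, cls_mul g0 hb0, g1, one_mul] at h1
    rw [← h1]
    exact cls_mul hc0 hc0
  have hqa : q ∣ 2 * p * q := ⟨2 * p, by ring⟩
  have h3 := (V6.chi_sq1 hb hS hτ hq (by omega) hqa hb0 (z_nd_of_cop hq hqa hbc)).1 h2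
  rw [jacobiSym.quadratic_reciprocity_three_mod_four (by omega) (by omega), h3] at hj
  norm_num at hj

theorem sym_wz {p q : ℕ} (hp : p.Prime) (hq : q.Prime) (hp8 : p % 8 = 1) (hq8 : q % 8 = 3)
    (hb : B6 K (2 * p * q) s) (hS : algebraMap (𝓞 K) K S = s)
    {b : Ideal (𝓞 K)} (hb8 : Ideal.absNorm b % 8 = 7)
    (hj : jacobiSym p (Ideal.absNorm b) = -1) {w0 : V6.M1 K}
    (hw : (w0 : Ideal (𝓞 K)) = Ideal.span {1 + S} * b) :
    jacobiSym (Ideal.absNorm (w0 : Ideal (𝓞 K))) p = -1 := by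
  have _ := hp
  have _ := hq8
  have hg := norm_g hb hS
  have hNw : Ideal.absNorm (w0 : Ideal (𝓞 K)) = (1 + 2 * p * q) * Ideal.absNorm b := by
    rw [hw, map_mul, hg]
  rw [hNw, Nat.cast_mul, jacobiSym.mul_left]
  have e1 : jacobiSym ((1 + 2 * p * q : ℕ) : ℤ) p = 1 := by
    have : jacobiSym ((1 + 2 * p * q : ℕ) : ℤ) p = jacobiSym ((1 : ℕ) : ℤ) p := by
      apply z_jac_mod
      rw [show 1 + 2 * p * q = 1 + p * (2 * q) by ring, Nat.add_mul_mod_self_left]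
    rw [this, Nat.cast_one, jacobiSym.one_left]
  have e2 : jacobiSym ((Ideal.absNorm b : ℕ) : ℤ) p = -1 := by
    rw [← hj]
    exact (jacobiSym.quadratic_reciprocity_one_mod_four (by omega)
      (Nat.odd_iff.2 (by omega))).symm
  rw [e1, e2, one_mul]

theorem sym_c {p q : ℕ} (hp : p.Prime) (hq : q.Prime) (hp8 : p % 8 = 1) (hq8 : q % 8 = 3)
    (hb : B6 K (2 * p * q) s) (hS : algebraMap (𝓞 K) K S = s) (hτ : τ S = -S)
    {c w0 : V6.M1 K} {n : ℕ} (hc : V6.clN S c = V6.clN S w0 ^ n)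
    (hcp : Nat.Coprime (Ideal.absNorm (c : Ideal (𝓞 K))) p)
    (hw : jacobiSym (Ideal.absNorm (w0 : Ideal (𝓞 K))) p = -1) :
    jacobiSym (Ideal.absNorm (c : Ideal (𝓞 K))) p = (-1) ^ n := by
  have _ := hq
  have hp2 : p ≠ 2 := by
    rintro rfl
    omega
  have hpa : p ∣ 2 * p * q := ⟨2 * q, by ring⟩
  rw [← map_pow] at hc
  have h1 := V6.clN_eq hb hS hτ (z_a16 hp8 hq8) hc
  have hcp' : ¬ p ∣ Ideal.absNorm (c : Ideal (𝓞 K)) := by
    intro h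
    exact hp.one_lt.ne' ((Nat.gcd_eq_right h).symm.trans hcp)
  have hwp : ¬ p ∣ Ideal.absNorm (w0 : Ideal (𝓞 K)) := z_J_ne hp (by rw [hw]; norm_num)
  have hN : Ideal.absNorm ((w0 ^ n : V6.M1 K) : Ideal (𝓞 K)) =
      Ideal.absNorm (w0 : Ideal (𝓞 K)) ^ n := by
    rw [SubmonoidClass.coe_pow, map_pow]
  have hwp' : ¬ p ∣ Ideal.absNorm ((w0 ^ n : V6.M1 K) : Ideal (𝓞 K)) := by
    rw [hN]
    intro h
    exact hwp (hp.dvd_of_dvd_pow h)
  rw [z_wdp hb hS hτ hp hp2 hpa (V6.M1.ne c.2) (V6.M1.ne (w0 ^ n).2) hcp' hwp' h1, hN,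
    Nat.cast_pow, jacobiSym.pow_left, hw]

end Pool.Agent.Work.MP_8efaaa_nt.Z6
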