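import Mathlib
import Pool.Agent.Work.MP_8efaaa_nt.W6.DXd
import Pool.Agent.Work.MP_8efaaa_nt.W6.AFz
import Pool.Agent.Work.MP_8efaaa_nt.W6.ATx
import Pool.Agent.Work.MP_8efaaa_nt.W6.AOr
import Pool.Agent.Work.MP_8efaaa_nt.K6.CDt
import Pool.Agent.Work.MP_8efaaa_nt.K6.AFk

/-!
# Z6/DXr (M-L): the exact data with its complex embedding

`zc_pos`: model: `W6/AFz.lean` (`ori_z6`, step (1); copy the private lemmas). `r = algebraMap K ℂ s`. `M6 s (r6 S d) = La6 s 3 ⊔ 8 • iv (r6 S d)`, `La6 s 3 = ⟨4 r, 1⟩`, `iv (r6 S d) = ⟨1, r/d⟩` (the inverse of `⟨d, r⟩`: `r6_sq`), so `M6 s (r6 S d) = ⟨4 r/d, 1⟩` (`d` odd: `4 r` and `8 r / d` generate `4 r/d ℤ` with `gcd (d, 2) = 1`). With `w' = r/(8 d)`: `⟨4 r/d, 1⟩ = ⟨32 w', 1⟩`, `w6 s = r/8 = d w'`, so `zc s (r6 S d) = fz ⟨32 w', 1⟩ (d w') = e8 d * fz ⟨32 w', 1⟩ w'` (`f_odd`), `e8 d = 1` for `d = ±1 (mod 8)`, and `W6.fz_pos` (`w'` is purely imaginary and not `0`: `conj_s6`). In `ori_z6`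 this is done for `d = a/2` (and `d = 1`); the private lemmas of `K6/AFk.lean` and `W6/AFz.lean` are the models for general `d`.
`exists_xr6`: the proof of `W6.exists_xd6` (W6/DXd.lean; copy the private theorem `xd6_of` and the private lemmas it needs, with the additional output), `ι = algebraMap F ℂ`, `ι (κ x) = conj (ι x)` is the property of `κ` from `exists_conj` used there, and `ι (z (r6 S d)) = zc s (r6 S d)` by `C6.hz` (`r6 S d` is odd: `norm_r6`).
-/

set_option autoImplicit false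

universe u

namespace Pool.Agent.Work.MP_8efaaa_nt.Z6

open NumberField Pool.Agent.Work.CM Pool.Agent.Work.MP_8efaaa_nt.R
  Pool.Agent.Work.MP_8efaaa_nt.N5 Pool.Agent.Work.MP_8efaaa_nt.K6 Pool.Agent.Work.MP_8efaaa_nt.W6
open scoped Pointwise

private theorem zr_smul {z y : ℂ} {S : Submodule ℤ ℂ} :
    y ∈ (z • S : Submodule ℤ ℂ) ↔ ∃ x ∈ S, z * x = y := by
  rw [Submodule.mem_smul_pointwise_iff_exists]
  rfl

private theorem zr_sq {K : Type*} [Field K] [NumberField K] [Algebra K ℂ] {a : ℕ} {s : K}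
    (hb : B6 K a s) : algebraMap K ℂ s ^ 2 = -(a : ℂ) := by
  rw [← map_pow, hb.sq, map_neg, map_natCast]

private theorem zr_re {K : Type*} [Field K] [NumberField K] [Algebra K ℂ] {a : ℕ} {s : K}
    (hb : B6 K a s) : (algebraMap K ℂ s).re = 0 ∧ algebraMap K ℂ s ≠ 0 := by
  have h := conj_s6 hb
  have h1 := congrArg Complex.re h
  rw [Complex.conj_re, Complex.neg_re] at h1
  refine ⟨by linarith, fun h2 => ?_⟩
  have h3 := zr_sq hb
  rw [h2, zero_pow two_ne_zero] at h3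
  have h4 : (a : ℂ) = 0 := by linear_combination h3
  exact hb.sf.ne_zero (Nat.cast_eq_zero.1 h4)

private theorem zr_lat {K : Type*} [Field K] [NumberField K] [Algebra K ℂ] {a : ℕ} {s : K}
    {S : 𝓞 K} (hb : B6 K a s) (hS : algebraMap (𝓞 K) K S = s) {d : ℕ} (hd : d ∣ a)
    (hodd : d % 2 = 1) :
    M6 s (r6 S d) = Submodule.span ℤ {32 * (algebraMap K ℂ s / (8 * (d : ℂ))), (1 : ℂ)} := by
  obtain ⟨e, he⟩ := hd
  obtain ⟨t, ht⟩ : ∃ t : ℕ, d = 2 * t + 1 := ⟨d / 2, by omega⟩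
  have hsq := zr_sq hb
  have hsq' := hb.sq
  have hdC : (d : ℂ) ≠ 0 := by
    rw [Nat.cast_ne_zero]; omega
  have hdK : (d : K) ≠ 0 := by
    rw [Nat.cast_ne_zero]; omega
  have haC : (a : ℂ) = d * e := by exact_mod_cast he
  have haK : (a : K) = d * e := by exact_mod_cast he
  have htC : (d : ℂ) = 2 * t + 1 := by exact_mod_cast ht
  have h1M : (1 : ℂ) ∈ M6 s (r6 S d) := by
    unfold M6 La6
    exact Submodule.mem_sup_left (Submodule.subset_span (by simp))
  have h4M : 2 ^ 3 * (algebraMap K ℂ s / 2) ∈ M6 s (r6 S d) := by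
    unfold M6 La6
    exact Submodule.mem_sup_left (Submodule.subset_span (by simp))
  have hiv : algebraMap K ℂ s / d ∈ iv (r6 S d) := by
    refine mem_iv.2 ⟨s / d, fun y hy => ?_, ?_⟩
    · unfold r6 at hy
      obtain ⟨α, β, rfl⟩ := Ideal.mem_span_pair.1 hy
      refine ⟨α * S - β * (e : 𝓞 K), ?_⟩
      simp only [map_add, map_mul, map_sub, map_natCast, hS]
      field_simp
      linear_combination (-(algebraMap (𝓞 K) K β)) * hsq' + (algebraMap (𝓞 K) K β) * haK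
    · rw [map_div₀, map_natCast]
  have h8M : 8 * (algebraMap K ℂ s / d) ∈ M6 s (r6 S d) := by
    unfold M6
    exact Submodule.mem_sup_right (zr_smul.2 ⟨_, hiv, rfl⟩)
  apply le_antisymm
  · intro y hy
    unfold M6 La6 at hy
    obtain ⟨u, hu, v, hv, rfl⟩ := Submodule.mem_sup.1 hy
    obtain ⟨m, n, rfl⟩ := Submodule.mem_span_pair.1 hu
    obtain ⟨z, hz, rfl⟩ := zr_smul.1 hv
    obtain ⟨x, hxx, rfl⟩ := mem_iv.1 hz
    obtain ⟨T, hT⟩ := hxx S (Ideal.subset_span (by simp))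
    obtain ⟨T', hT'⟩ := hxx ((d : ℕ) : 𝓞 K) (Ideal.subset_span (by simp))
    obtain ⟨p, q, hpq⟩ := coords6 hb T
    obtain ⟨p', q', hpq'⟩ := coords6 hb T'
    rw [hpq, hS] at hT
    rw [hpq', map_natCast] at hT'
    have hTC : (p : ℂ) + q * algebraMap K ℂ s = algebraMap K ℂ x * algebraMap K ℂ s := by
      have h3 := congrArg (algebraMap K ℂ) hT
      simpa only [map_add, map_mul, map_intCast] using h3
    have hTC' : (p' : ℂ) + q' * algebraMap K ℂ s = algebraMap K ℂ x * d := by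
      have h3 := congrArg (algebraMap K ℂ) hT'
      simpa only [map_add, map_mul, map_intCast, map_natCast] using h3
    have h4 := lin_indep6 hb (p := -(q' * (d * e)) - d * p)
      (q := p' - d * q) (by
        push_cast
        linear_combination (algebraMap K ℂ s) * hTC' - (d : ℂ) * hTC
          - (q' : ℂ) * hsq + (q' : ℂ) * haC)
    have h5 : (p' : ℂ) = d * q := by
      have h6 : (p' : ℚ) = d * q := by linarith [h4.2]
      exact_mod_cast h6
    refine Submodule.mem_span_pair.2 ⟨d * m + 2 * q', n + 8 * q, ?_⟩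
    rw [zsmul_eq_mul, zsmul_eq_mul, zsmul_eq_mul, zsmul_eq_mul]
    have h7 : algebraMap K ℂ x = (d * q + q' * algebraMap K ℂ s) / d := by
      rw [eq_div_iff hdC, ← hTC', h5]
    rw [h7]
    push_cast
    field_simp
    ring
  · rw [Submodule.span_le]
    rintro z (rfl | rfl)
    · have e1 : 32 * (algebraMap K ℂ s / (8 * (d : ℂ))) =
          2 ^ 3 * (algebraMap K ℂ s / 2) + (-(t : ℤ)) • (8 * (algebraMap K ℂ s / d)) := by
        rw [zsmul_eq_mul]
        push_cast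
        field_simp
        rw [htC]
        ring
      rw [e1]
      exact Submodule.add_mem _ h4M (Submodule.smul_mem _ _ h8M)
    · exact h1M

private theorem zr_odd {K : Type*} [Field K] [NumberField K] {a : ℕ} {s : K}
    {S : 𝓞 K} (hb : B6 K a s) (hS : algebraMap (𝓞 K) K S = s) {d : ℕ} (hd : d ∣ a)
    (hodd : d % 2 = 1) : OddI (r6 S d) := by
  unfold OddI
  rw [norm_r6 hb hS hd]
  exact Nat.odd_iff.2 hodd

theorem zc_pos {K : Type u} [Field K] [NumberField K] [Algebra K ℂ] {a : ℕ} {s : K} {S : 𝓞 K}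
    (hb : B6 K a s) (hS : algebraMap (𝓞 K) K S = s) {d : ℕ} (hd : d ∣ a)
    (hd8 : d % 8 = 1 ∨ d % 8 = 7) : ∃ r : ℝ, 0 < r ∧ zc s (r6 S d) = (r : ℂ) := by
  obtain ⟨hre, hs0⟩ := zr_re hb
  have hodd : d % 2 = 1 := by omega
  have hd0 : (d : ℂ) ≠ 0 := Nat.cast_ne_zero.2 (by omega)
  have hF2 : Fr (M6 s (r6 S d)) (w6 s) := fr_M6 hb (zr_odd hb hS hd hodd)
  set w' := algebraMap K ℂ s / (8 * (d : ℂ)) with hw'
  have hMM : M6 s (r6 S d) = Submodule.span ℤ {32 * w', 1} := zr_lat hb hS hd hodd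
  obtain ⟨r, hr, hz⟩ := fz_pos (w := w') (by
    have e : w' = ((1 / (8 * (d : ℝ)) : ℝ) : ℂ) * algebraMap K ℂ s := by
      rw [hw']
      push_cast
      field_simp
    rw [e, Complex.re_ofReal_mul, hre, mul_zero]) (div_ne_zero hs0 (mul_ne_zero (by norm_num) hd0))
  rw [← hMM] at hz
  have hw8 : w6 s = (d : ℂ) * w' := by
    rw [hw']
    unfold w6
    field_simp
  have hFw : Fr (M6 s (r6 S d)) w' := by
    refine ⟨hF2.lat, ?_, fun h => hF2.nmem ?_⟩
    · rw [hMM]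
      exact Submodule.subset_span (by simp)
    · rw [hw8]
      have e : 16 * ((d : ℂ) * w') = (d : ℂ) * (16 * w') := by ring
      rw [e]
      exact natmul_mem h _
  obtain ⟨o1, -, -⟩ := f_odd hFw (d := (d : ℤ)) (w' := w6 s) (by
    have : (d : ℤ) % 2 = 1 := by omega
    exact Int.odd_iff.2 this) (by
    rw [Int.cast_natCast, hw8, sub_self]
    exact Submodule.zero_mem _)
  have he8 : e8 (d : ℤ) = 1 := by
    unfold e8
    rw [if_pos]
    omega
  refine ⟨r, hr, ?_⟩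
  unfold zc
  rw [o1, he8, hz]
  push_cast
  ring

private theorem dxd_oddm {K : Type*} [Field K] [NumberField K] {b c : Ideal (𝓞 K)} (hb : OddI b)
    (hc : OddI c) : OddI (b * c) := by
  unfold OddI at *
  rw [map_mul]
  exact hb.mul hc

private theorem dxd_odd1 {K : Type*} [Field K] [NumberField K] : OddI (1 : Ideal (𝓞 K)) := by
  unfold OddI
  rw [Ideal.one_eq_top, Ideal.absNorm_top]
  exact odd_one

private theorem xr6_of {K : Type u} {F : Type} [Field K] [NumberField K] [Algebra K ℂ] [Field F]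
    [NumberField F] [Algebra K F] [Algebra F ℂ] [IsScalarTower K F ℂ] [IsGalois K F]
    [IsGalois ℚ F] {a m : ℕ} {s : K} (hb : B6 K a s)
    (ha : a % 16 = 6) (ham : a = 2 * m) {S : 𝓞 K} (hS : algebraMap (𝓞 K) K S = s)
    {τ : 𝓞 K ≃+* 𝓞 K} (hτ : τ S = -S) {u0 v0 : ℤ} {nu : ℕ → ℤ → ℤ} (hL : Law6 m u0 v0 nu)
    {ζ : F} {w : ℕ → F} {z k v : Ideal (𝓞 K) → F} {ξ θ e : F}
    (h : CX6 K F a s u0 v0 ζ w z k v ξ θ e) :
    ∃ κ : F ≃ₐ[ℚ] F, XD6 K F a s S τ ζ w z k v κ u0 v0 nu ξ θ e ∧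
      ∀ x, algebraMap F ℂ (κ x) = (starRingEnd ℂ) (algebraMap F ℂ x) := by
  obtain ⟨κ, hκ⟩ := exists_conj (F := F)
  have inj : Function.Injective (algebraMap F ℂ) := (algebraMap F ℂ).injective
  have ham' : (a : ℝ) / 2 = m := by
    rw [ham]
    push_cast
    ring
  have hm0 : 0 < m := by omega
  have hmR : (0 : ℝ) < (a : ℝ) / 2 := by
    rw [ham']
    exact_mod_cast hm0
  set ρr : ℝ := Real.sqrt ((a : ℝ) / 2) with hρr
  have hρr0 : 0 < ρr := Real.sqrt_pos.2 hmR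
  have hρr2 : ρr ^ 2 = (a : ℝ) / 2 := Real.sq_sqrt hmR.le
  have hρ0 : (ρr : ℂ) ≠ 0 := by exact_mod_cast hρr0.ne'
  have hρ2 : (ρr : ℂ) ^ 2 = (m : ℂ) := by
    have h1 : ρr ^ 2 = (m : ℝ) := hρr2.trans ham'
    exact_mod_cast h1
  have haC : (a : ℂ) = 2 * m := by
    rw [ham]
    push_cast
    ring
  have hr2 : (algebraMap K ℂ s) ^ 2 = -(a : ℂ) := by
    rw [← map_pow, hb.sq, map_neg, map_natCast]
  have hm0C : (m : ℂ) ≠ 0 := by exact_mod_cast hm0.ne'
  have hr0 : algebraMap K ℂ s ≠ 0 := by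
    intro h0
    rw [h0, haC] at hr2
    apply hm0C
    linear_combination (1 / 2 : ℂ) * hr2
  set r := algebraMap K ℂ s with hr
  set T := algebraMap F ℂ θ with hT
  have hth : T * (ρr : ℂ) = r := h.th
  have hT2 : T ^ 2 = -2 := by
    have h1 : T ^ 2 * (ρr : ℂ) ^ 2 = -(2 * (m : ℂ)) := by
      rw [← mul_pow, hth, hr2, haC]
    rw [hρ2] at h1
    apply mul_right_cancel₀ hm0C
    linear_combination h1
  have hTc : (starRingEnd ℂ) T = -T := by
    have h1 := congrArg (starRingEnd ℂ) hth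
    rw [map_mul, Complex.conj_ofReal, hr, conj_s6 hb, ← hr] at h1
    apply mul_right_cancel₀ hρ0
    linear_combination h1 + hth
  have hθ2 : θ ^ 2 = -2 := by
    apply inj
    rw [map_pow, map_neg, map_ofNat, ← hT, hT2]
  have hκθ : κ θ = -θ := by
    apply inj
    rw [hκ, map_neg, ← hT, hTc]
  have hx16 : (algebraMap F ℂ ξ) ^ 16 = 1 := by
    rw [← map_pow]
    have h1 : ξ ^ 16 = 1 := by
      calc ξ ^ 16 = (ξ ^ 2) ^ 8 := by ring
        _ = (ζ ^ 4) ^ 2 := by rw [h.x16]; ring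
        _ = 1 := by rw [h.c6.z8]; ring
    rw [h1, map_one]
  have hκξ : κ ξ = ξ ^ 15 := by
    apply inj
    rw [hκ, map_pow]
    set x := algebraMap F ℂ ξ with hx
    have hx0 : x ≠ 0 := by
      intro h0
      rw [h0, zero_pow (by norm_num)] at hx16
      exact zero_ne_one hx16
    have hn : ‖x‖ = 1 := Complex.norm_eq_one_of_pow_eq_one hx16 (by norm_num)
    apply mul_right_cancel₀ hx0
    rw [← pow_succ, hx16, mul_comm, Complex.mul_conj, Complex.normSq_eq_norm_sq, hn]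
    norm_num
  have hconj : e * κ e * θ = algebraMap K F s := by
    apply inj
    rw [map_mul, map_mul, hκ, ← hT, ← IsScalarTower.algebraMap_apply K F ℂ, ← hr, ← hth]
    set E := algebraMap F ℂ e with hE
    have hE2 : E ^ 2 = (u0 : ℂ) + (v0 : ℂ) * T := by
      rw [hE, ← map_pow, h.sq, map_add, map_mul, map_intCast, map_intCast]
    have hEc : ((starRingEnd ℂ) E) ^ 2 = (u0 : ℂ) - (v0 : ℂ) * T := by
      rw [← map_pow, hE2, map_add, map_mul, hTc]
      simp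
      ring
    have hns : ((Complex.normSq E : ℝ) : ℂ) ^ 2 = (m : ℂ) := by
      rw [← Complex.mul_conj, mul_pow, hE2, hEc]
      have h1 : ((u0 ^ 2 + 2 * v0 ^ 2 : ℤ) : ℂ) = ((m : ℤ) : ℂ) := by rw [hL.nrm]
      push_cast at h1
      linear_combination h1 - (v0 : ℂ) ^ 2 * hT2
    have hns2 : Complex.normSq E = ρr := by
      have h1 : (Complex.normSq E) ^ 2 = (a : ℝ) / 2 := by
        rw [ham']
        exact_mod_cast hns
      rw [hρr, ← h1, Real.sqrt_sq (Complex.normSq_nonneg E)]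
    rw [Complex.mul_conj, hns2, mul_comm]
  have hrr : OddI (r6 S (a / 2)) := by
    unfold OddI
    rw [norm_r6 hb hS ⟨2, by omega⟩]
    exact Nat.odd_iff.2 (by omega)
  have hsp : ∀ (x y : ℤ) (δ : 𝓞 K), Odd x → algebraMap (𝓞 K) K δ = x + y * s →
      OddI (Ideal.span {δ}) := fun x y δ hx hδ => (oddI_span6 hb hδ).2 hx
  have hκe : (κ e) ^ 2 = (u0 : F) - (v0 : F) * θ := by
    rw [← map_pow, h.sq, map_add, map_mul, hκθ, map_intCast, map_intCast]
    ring
  refine ⟨κ, ?_, hκ⟩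
  refine
    { ud := ud6_conj hb hS hτ h.c6 hκ
      x16 := h.x16
      kx := hκξ
      th := hθ2
      kth := hκθ
      sq := h.sq
      conj := hconj
      trx := fun x y δ hx hy hδ c hc => ?_
      ori := ?_
      act4 := fun σ M hM => act_prim6 ham hb hS h.c6 hL h.x16 hθ2 h.sq hκe hconj σ M hM }
  · have ho : OddI (Ideal.span {δ} * c) := dxd_oddm (hsp x y δ hx hδ) hc
    obtain ⟨t1, t2⟩ := tr_exact6 hb hc hx hy hδ
    constructor
    · apply inj
      rw [map_pow, map_mul, h.c6.hv _ ho, h.c6.hv _ hc, map_neg, map_one]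
      exact t1
    · apply inj
      rw [map_mul, map_sub, map_one, map_mul, map_mul, map_mul, map_mul, map_sub, map_one,
        map_mul, map_mul, map_intCast, h.c6.hv _ ho, h.c6.hv _ hc, h.c6.hz _ ho, h.c6.hz _ hc,
        h.c6.hk _ hc]
      exact t2
  · have h1S : OddI (Ideal.span {1 + S}) := by
      refine hsp 1 1 (1 + S) odd_one ?_
      rw [map_add, map_one, hS]
      push_cast
      ring
    have o1 := ori_v6 hb ha hS
    have o2 := ori_z6 hb ha hS
    apply inj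
    rw [map_mul, map_mul, map_mul, map_mul, map_mul, map_add, map_add, map_one, map_mul, map_ofNat,
      h.c6.hv _ h1S, h.c6.hv _ dxd_odd1, h.c6.hv _ hrr, h.c6.hz _ dxd_odd1, h.c6.hz _ hrr, o2, ← hT]
    apply mul_right_cancel₀ hr0
    apply mul_right_cancel₀ hρ0
    have e1 : Real.sqrt a * Real.sqrt 2 * ρr = a := by
      have e2 : Real.sqrt a = Real.sqrt 2 * ρr := by
        rw [hρr, ← Real.sqrt_mul (by norm_num)]
        congr 1
        ring
      rw [mul_assoc, ← e2]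
      exact Real.mul_self_sqrt (Nat.cast_nonneg a)
    have e3 : ((Real.sqrt a : ℝ) : ℂ) * ((Real.sqrt 2 : ℝ) : ℂ) * (ρr : ℂ) = (a : ℂ) := by
      exact_mod_cast congrArg (fun x : ℝ => (x : ℂ)) e1
    have e4 : vc s (Ideal.span {1 + S}) * vc s 1 * r = ((Real.sqrt a : ℝ) : ℂ) := o1
    calc vc s (Ideal.span {1 + S}) * vc s 1 * -(2 * ((Real.sqrt 2 : ℝ) : ℂ)) * r * (ρr : ℂ)
        = (vc s (Ideal.span {1 + S}) * vc s 1 * r) * -(2 * ((Real.sqrt 2 : ℝ) : ℂ)) *
            (ρr : ℂ) := by ring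
      _ = -2 * (((Real.sqrt a : ℝ) : ℂ) * ((Real.sqrt 2 : ℝ) : ℂ) * (ρr : ℂ)) := by
          rw [e4]
          ring
      _ = 2 * r ^ 2 := by rw [e3, hr2]; ring
      _ = 2 * T * r * (ρr : ℂ) := by linear_combination -2 * r * hth

theorem exists_xr6 {K : Type u} [Field K] [NumberField K] {a m : ℕ} {s : K} (hb : B6 K a s)
    (ha : a % 16 = 6) (ham : a = 2 * m) {S : 𝓞 K} (hS : algebraMap (𝓞 K) K S = s)
    {τ : 𝓞 K ≃+* 𝓞 K} (hτ : τ S = -S) {u0 v0 : ℤ} {nu : ℕ → ℤ → ℤ} (hL : Law6 m u0 v0 nu) :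
    ∃ (F : Type) (_ : Field F) (_ : NumberField F) (_ : Algebra K F)
      (_ : FiniteDimensional K F) (_ : IsGalois K F) (_ : IsGalois ℚ F) (ζ : F) (w : ℕ → F)
      (z k v : Ideal (𝓞 K) → F) (κ : F ≃ₐ[ℚ] F) (ξ θ e : F) (ι : F →+* ℂ),
      XD6 K F a s S τ ζ w z k v κ u0 v0 nu ξ θ e ∧
      (∀ x, ι (κ x) = (starRingEnd ℂ) (ι x)) ∧
      ∀ d, d ∣ a → (d % 8 = 1 ∨ d % 8 = 7) →
        ∃ r : ℝ, 0 < r ∧ ι (z (r6 S d)) = (r : ℂ) := by
  obtain ⟨φ⟩ : Nonempty (K →+* ℂ) := inferInstance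
  let _ : Algebra K ℂ := φ.toAlgebra
  obtain ⟨F, hF1, hF2, hF3, ζ, w, z, k, v, ξ, θ, e, h0⟩ := exists_cx6 hb u0 v0
  have hNF : NumberField F := NumberField.of_module_finite K F
  have hF4 : @IsGalois ℚ _ F _ DivisionRing.toRatAlgebra := by
    have hsub : Subsingleton (Algebra ℚ F) := inferInstance
    exact (hsub.elim _ _ : _ = (DivisionRing.toRatAlgebra : Algebra ℚ F)) ▸ hF3
  obtain ⟨κ, h, hκ⟩ := xr6_of hb ha ham hS hτ hL h0
  refine ⟨F, inferInstance, hNF, inferInstance, hF1, hF2, hF4, ζ, w, z, k, v, κ, ξ, θ, e,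
    algebraMap F ℂ, h, hκ, fun d hd hd8 => ?_⟩
  obtain ⟨r, hr, hz⟩ := zc_pos hb hS hd hd8
  exact ⟨r, hr, by rw [h0.c6.hz _ (zr_odd hb hS hd (by omega)), hz]⟩

end Pool.Agent.Work.MP_8efaaa_nt.Z6
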