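import Mathlib
import Pool.Agent.Work.MP_8efaaa_nt.V6.Defs
import Pool.Agent.Work.MP_8efaaa_nt.V6.GPi
import Pool.Agent.Work.MP_8efaaa_nt.V6.PEx
import Pool.Agent.Work.MP_8efaaa_nt.V6.QFa
import Pool.Agent.Work.MP_8efaaa_nt.W14.PVu
import Pool.Agent.Work.MP_8efaaa_nt.Y6.Prd

/-!
# Z6/Eq (M): comparison of the two systems

`P = PP z k v`, `E = W5.E1 V`, `x ≡ y` means `x - y ∈ E`, `h = P c0`.
(1) `kk` = `V6.kk_px` for `wq * cj τ c0` (in `M1 K`: `norm_cj6`) and `c0`: same class (`clN (cj τ c0) = (clN c0)⁻¹`, `cls_cj`, see `Y6/Sec.lean`; `hcl`). So `P (wq * cj τ c0 * y) = P (c0 * y) + ε` for odd `y`, `ε + ε = 0`, `qn ε = dd (N wq * N c0 * N c0) = n1`, because `N wq * (N c0)^2 = 9 (mod 16)` (`(N c0)^2 = 1 (mod 16)`). So `ε = ez` or `ep`: `qn (ε - ez) = 0` (`qn_em`), `V6.qn_eq_zero`, `two_ep` (`em + ez = ep`).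
(2) `hin` for `c0` with `y = 1`: `2 h + ε - (T + em) ∈ E`.
(3) `y = c0 * y'`: `wq * cj τ c0 * c0 * y' = (N c0) * (wq * y')` (`norm_cj6`), `V6.nat_px`: `P (wq * y') = P (c0 * c0 * y') + ε`, so `P (c0 * c0 * y') = P (wq * y') + ε`.
(4) `Y6.sum_prod` for `rq`, `rp`: `∑ P (rq g) - ∑ P (rp g) = P (∏ rq) - P (∏ rp)`, with `V6.nat_px` (`m % 8 = m' % 8 = 1`): `= P (wq ^ (N-1) * (c0 * (ρ * c0))) - P (wp ^ N)`, and by (3) with `y' = wq ^ (N-1) * ρ`: `P (wq ^ (N-1) * (c0 * (ρ * c0))) = P (wq * (wq ^ (N-1) * ρ)) + ε = P (wq ^ N * ρ) + ε`.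
(5) So modulo `E`: `(N-1) • (T + em) + h + P (ρ * c0) - N • (T + em) ≡ P (wq ^ N * ρ) + ε - P (wp ^ N)`, i.e. `h + P (ρ c0) - (T + em) - ε ≡ P (wq ^ N * ρ) - P (wp ^ N)` (`1 ≤ N`: `N = (N - 1) + 1`). With (2) (`T + em ≡ 2 h + ε`, `ε + ε = 0`): `P (ρ * c0) - h ≡ P (wq ^ N * ρ) - P (wp ^ N)`.
-/

set_option autoImplicit false

namespace Pool.Agent.Work.MP_8efaaa_nt.Z6

open NumberField Pool.Agent.Work.MP_8efaaa_nt.R Pool.Agent.Work.MP_8efaaa_nt.N5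
  Pool.Agent.Work.MP_8efaaa_nt.K6 Pool.Agent.Work.MP_8efaaa_nt.W14 Pool.Agent.Work.MP_8efaaa_nt.V6
open scoped Classical nonZeroDivisors

variable {K F : Type*} [Field K] [NumberField K] [Field F] [NumberField F] [Algebra K F] {a : ℕ}
  {s : K} {S : 𝓞 K} {τ : 𝓞 K ≃+* 𝓞 K} {ζ : F} {w : ℕ → F} {z k v : Ideal (𝓞 K) → F}
  {κ : F ≃ₐ[ℚ] F}

private theorem q_odd {c d : Ideal (𝓞 K)} (hc : OddI c) (hd : OddI d) : OddI (c * d) := by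
  unfold OddI at *
  rw [map_mul]
  exact hc.mul hd

private theorem q_one : OddI (1 : Ideal (𝓞 K)) := by
  unfold OddI
  rw [map_one]
  exact odd_one

private theorem q_mod {x y : ℕ} (hx : x % 16 = 9) (hy : y % 8 = 1) : (x * y * y) % 16 ≠ 1 := by
  have e : y % 16 = 1 ∨ y % 16 = 9 := by omega
  rcases e with e | e <;> simp [Nat.mul_mod, hx, e]

theorem eq_q (hb : B6 K a s) (hS : algebraMap (𝓞 K) K S = s) (hτ : τ S = -S)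
    (ha : a % 16 = 6) (hU : UD6 K F a s S τ ζ w z k v κ) {T : (cQ F).Point}
    {Γ : Type} [LinearOrderedCommGroupWithZero Γ] {V : Valuation F Γ} {wp wq ρ c0 : M1 K}
    (hin : ∀ c ∈ M1 K, PP z k v ((wq : Ideal (𝓞 K)) * cj τ c) + PP z k v c -
      (T + W14.em F) ∈ W5.E1 V)
    (hq16 : Ideal.absNorm (wq : Ideal (𝓞 K)) % 16 = 9)
    (hcl : clN S c0 * clN S c0 = clN S wq) [Fintype (CG S)] {N : ℕ} (hN : 1 ≤ N)
    {rp rq : CG S → M1 K} {m m' : ℕ} (hp1 : ∀ g, clN S (rp g) = g) (hm : m % 8 = 1)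
    (hp2 : ((∏ g, rp g : M1 K) : Ideal (𝓞 K)) = Ideal.span {(m : 𝓞 K)} *
      (wp : Ideal (𝓞 K)) ^ N)
    (hp3 : ∑ g, PP z k v (rp g : Ideal (𝓞 K)) = N • (T + W14.em F))
    (hq1 : ∀ g, clN S (rq g) = g) (hm' : m' % 8 = 1)
    (hq2 : ((∏ g, rq g : M1 K) : Ideal (𝓞 K)) = Ideal.span {(m' : 𝓞 K)} *
      ((wq : Ideal (𝓞 K)) ^ (N - 1) *
        ((c0 : Ideal (𝓞 K)) * ((ρ : Ideal (𝓞 K)) * (c0 : Ideal (𝓞 K))))))
    (hq3 : ∑ g, PP z k v (rq g : Ideal (𝓞 K)) - ((N - 1) • (T + W14.em F) +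
      (PP z k v (c0 : Ideal (𝓞 K)) +
        PP z k v ((ρ : Ideal (𝓞 K)) * (c0 : Ideal (𝓞 K))))) ∈ W5.E1 V) :
    ∃ ε : (cQ F).Point, (ε = ez F ∨ ε = ep F) ∧
      PP z k v (c0 : Ideal (𝓞 K)) + PP z k v (c0 : Ideal (𝓞 K)) -
        (T + W14.em F - ε) ∈ W5.E1 V ∧
      PP z k v ((ρ : Ideal (𝓞 K)) * (c0 : Ideal (𝓞 K))) - PP z k v (c0 : Ideal (𝓞 K)) -
        (PP z k v ((wq : Ideal (𝓞 K)) ^ N * (ρ : Ideal (𝓞 K))) -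
          PP z k v ((wp : Ideal (𝓞 K)) ^ N)) ∈ W5.E1 V := by
  obtain ⟨t1, t2, t3, t4, t5, t6⟩ := two_ep (F := F)
  obtain ⟨q1, q2, q3, q4, -⟩ := qn_em (F := F)
  have hcjm : ∀ c : Ideal (𝓞 K), c ∈ M1 K → cj τ c ∈ M1 K := by
    intro c hc
    show Ideal.absNorm (cj τ c) % 8 = 1
    rw [(norm_cj6 hb hS hτ c).1]
    exact M1.nrm hc
  have hinv : clN S ⟨cj τ (c0 : Ideal (𝓞 K)), hcjm _ c0.2⟩ = (clN S c0)⁻¹ := by
    show QuotientGroup.mk (cls (cj τ (c0 : Ideal (𝓞 K)))) =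
      (QuotientGroup.mk (cls (c0 : Ideal (𝓞 K))))⁻¹
    rw [(cls_cj hb hS hτ (M1.ne c0.2)).2]
    rfl
  have hcl2 : clN S (wq * ⟨cj τ (c0 : Ideal (𝓞 K)), hcjm _ c0.2⟩) = clN S c0 := by
    rw [map_mul, hinv, ← hcl, mul_inv_cancel_right]
  obtain ⟨ε, hεε, hqε, hx⟩ := kk_px hb hS hτ ha hU hcl2
  have hx' : ∀ x, OddI x → PP z k v (((wq : Ideal (𝓞 K)) * cj τ (c0 : Ideal (𝓞 K))) * x) =
      PP z k v ((c0 : Ideal (𝓞 K)) * x) + ε := hx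
  -- the value of ε
  have hnr : Ideal.absNorm ((wq * ⟨cj τ (c0 : Ideal (𝓞 K)), hcjm _ c0.2⟩ : M1 K) :
      Ideal (𝓞 K)) = Ideal.absNorm (wq : Ideal (𝓞 K)) * Ideal.absNorm (c0 : Ideal (𝓞 K)) := by
    show Ideal.absNorm ((wq : Ideal (𝓞 K)) * cj τ (c0 : Ideal (𝓞 K))) = _
    rw [map_mul, (norm_cj6 hb hS hτ (c0 : Ideal (𝓞 K))).1]
  have hqn : qn ε = n1 F := by
    rw [hqε, hnr]
    unfold dd
    rw [if_neg (q_mod hq16 (M1.nrm c0.2))]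
  have hε : ε = ez F ∨ ε = ep F := by
    have h1 : qn (ε - ez F) = 0 := by rw [map_sub, hqn, q2, sub_self]
    rcases qn_eq_zero.1 h1 with h2 | h2
    · left
      exact sub_eq_zero.1 h2
    · right
      rw [← t6, ← h2]
      abel
  -- (2)
  have h2 : PP z k v (c0 : Ideal (𝓞 K)) + PP z k v (c0 : Ideal (𝓞 K)) -
        (T + W14.em F - ε) ∈ W5.E1 V := by
    have h3 := hin c0 c0.2
    have h4 := hx' 1 q_one
    rw [mul_one, mul_one] at h4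
    rw [h4] at h3
    have h5 : PP z k v (c0 : Ideal (𝓞 K)) + PP z k v (c0 : Ideal (𝓞 K)) -
        (T + W14.em F - ε) = PP z k v (c0 : Ideal (𝓞 K)) + ε + PP z k v (c0 : Ideal (𝓞 K)) -
        (T + W14.em F) := by abel
    rw [h5]
    exact h3
  refine ⟨ε, hε, h2, ?_⟩
  -- (3)
  have h3 : ∀ y, OddI y → PP z k v ((c0 : Ideal (𝓞 K)) * ((c0 : Ideal (𝓞 K)) * y)) =
      PP z k v ((wq : Ideal (𝓞 K)) * y) + ε := by
    intro y hy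
    have h4 := hx' ((c0 : Ideal (𝓞 K)) * y) (q_odd (M1.odd c0.2) hy)
    have h5 : ((wq : Ideal (𝓞 K)) * cj τ (c0 : Ideal (𝓞 K))) * ((c0 : Ideal (𝓞 K)) * y) =
        Ideal.span {((Ideal.absNorm (c0 : Ideal (𝓞 K)) : ℕ) : 𝓞 K)} *
          ((wq : Ideal (𝓞 K)) * y) := by
      rw [← (norm_cj6 hb hS hτ (c0 : Ideal (𝓞 K))).2.1]
      ring
    rw [h5, nat_px hb hS hU (M1.odd c0.2) (q_odd (M1.odd wq.2) hy),
      if_pos (Or.inl (M1.nrm c0.2)), add_zero] at h4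
    rw [h4, add_assoc, hεε, add_zero]
  -- (4)
  have hwp : OddI ((wp : Ideal (𝓞 K)) ^ N) := M1.odd (Submonoid.pow_mem _ wp.2 N)
  have hwq : OddI ((wq : Ideal (𝓞 K)) ^ (N - 1)) := M1.odd (Submonoid.pow_mem _ wq.2 (N - 1))
  have hsum := Y6.sum_prod hb hS hτ ha hU hq1 hp1
  rw [hp2, hq2, nat_px hb hS hU (Nat.odd_iff.2 (by omega)) hwp, if_pos (Or.inl hm), add_zero,
    nat_px hb hS hU (Nat.odd_iff.2 (by omega))
      (q_odd hwq (q_odd (M1.odd c0.2) (q_odd (M1.odd ρ.2) (M1.odd c0.2)))), if_pos (Or.inl hm'),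
    add_zero] at hsum
  have h4 : (wq : Ideal (𝓞 K)) ^ (N - 1) *
      ((c0 : Ideal (𝓞 K)) * ((ρ : Ideal (𝓞 K)) * (c0 : Ideal (𝓞 K)))) =
      (c0 : Ideal (𝓞 K)) * ((c0 : Ideal (𝓞 K)) *
        ((wq : Ideal (𝓞 K)) ^ (N - 1) * (ρ : Ideal (𝓞 K)))) := by ring
  have h5 : (wq : Ideal (𝓞 K)) * ((wq : Ideal (𝓞 K)) ^ (N - 1) * (ρ : Ideal (𝓞 K))) =
      (wq : Ideal (𝓞 K)) ^ N * (ρ : Ideal (𝓞 K)) := by
    rw [← mul_assoc, ← pow_succ', Nat.sub_add_cancel hN]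
  rw [h4, h3 _ (q_odd hwq (M1.odd ρ.2)), h5, hp3] at hsum
  -- (5)
  obtain ⟨A, hA⟩ : ∃ A, A = PP z k v ((ρ : Ideal (𝓞 K)) * (c0 : Ideal (𝓞 K))) := ⟨_, rfl⟩
  obtain ⟨h, hh⟩ : ∃ h, h = PP z k v (c0 : Ideal (𝓞 K)) := ⟨_, rfl⟩
  obtain ⟨B, hB⟩ : ∃ B, B = PP z k v ((wq : Ideal (𝓞 K)) ^ N * (ρ : Ideal (𝓞 K))) := ⟨_, rfl⟩
  obtain ⟨D, hD⟩ : ∃ D, D = PP z k v ((wp : Ideal (𝓞 K)) ^ N) := ⟨_, rfl⟩
  obtain ⟨U, hUU⟩ : ∃ U, U = T + W14.em F := ⟨_, rfl⟩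
  obtain ⟨sq, hsq⟩ : ∃ sq, sq = ∑ g, PP z k v (rq g : Ideal (𝓞 K)) := ⟨_, rfl⟩
  rw [← hA, ← hh, ← hB, ← hD]
  rw [← hh, ← hUU] at h2
  rw [← hsq, ← hUU, ← hh, ← hA] at hq3
  rw [← hsq, ← hUU, ← hB, ← hD] at hsum
  have hNU : N • U = (N - 1) • U + U := by
    rw [← succ_nsmul, Nat.sub_add_cancel hN]
  have h6 : sq = B + ε - D + ((N - 1) • U + U) := by
    rw [← hNU, ← hsum]
    abel
  rw [h6] at hq3
  have h7 : A - h - (B - D) = -(B + ε - D + ((N - 1) • U + U) - ((N - 1) • U + (h + A))) -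
      (h + h - (U - ε)) + (ε + ε) := by abel
  rw [h7, hεε, add_zero]
  exact sub_mem (neg_mem hq3) h2

end Pool.Agent.Work.MP_8efaaa_nt.Z6
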