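import Mathlib
import Pool.Agent.Work.MP_8efaaa_nt.V6.Defs
import Pool.Agent.Work.MP_8efaaa_nt.V6.PEx
import Pool.Agent.Work.MP_8efaaa_nt.W6.Defs
import Pool.Agent.Work.MP_8efaaa_nt.W6.GFr

/-!
# Z6/EqF (S-M): the Fricke involution and the Frobenius element

`a = 2 p q`, `a / 2 = p q`, `r6 S (p q) = r6 S p * r6 S q` (`r6_mul`, see K6/ARm or the file where `r6_mul` is), `r6 S q * r6 S q = (q)` (`r6_sq`). `hfr` for `c = r6 S q * c0`, of norm `q N c0 = 3 (mod 8)` (`norm_r6`): `r6 S (a/2) * (r6 S q * c0) = (q) * (r6 S p * c0)`, and `V6.nat_px` (`q % 8 = 3`): `PP ((q) * (r6 S p * c0)) = PP (r6 S p * c0) + ez`. So `PP (r6 S p * c0) + ez + PP (r6 S q * c0) = R + ez`, `PP (r6 S p * c0) + PP (r6 S q * c0) = R`. With `hφ`: `R - PP (r6 S p * c0) - gal φ (PP c0) ∈ E1 V`. Together with `h`.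
-/

set_option autoImplicit false

namespace Pool.Agent.Work.MP_8efaaa_nt.Z6

open NumberField Pool.Agent.Work.MP_8efaaa_nt.R Pool.Agent.Work.MP_8efaaa_nt.N5
  Pool.Agent.Work.MP_8efaaa_nt.K6 Pool.Agent.Work.MP_8efaaa_nt.W14
open scoped Classical nonZeroDivisors

variable {K F : Type*} [Field K] [NumberField K] [Field F] [NumberField F] [Algebra K F]
  {s : K} {S : 𝓞 K} {τ : 𝓞 K ≃+* 𝓞 K} {ζ : F} {w : ℕ → F} {z k v : Ideal (𝓞 K) → F}
  {κ : F ≃ₐ[ℚ] F}

theorem eq_f {p q : ℕ} (hp : p.Prime) (hq : q.Prime) (hp8 : p % 8 = 1) (hq8 : q % 8 = 3)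
    (hb : B6 K (2 * p * q) s) (hS : algebraMap (𝓞 K) K S = s)
    (hU : UD6 K F (2 * p * q) s S τ ζ w z k v κ)
    {Γ : Type} [LinearOrderedCommGroupWithZero Γ] {V : Valuation F Γ} {φ : F ≃ₐ[K] F}
    (hφ : ∀ c, OddI c → PP z k v (r6 S q * c) - gal φ (PP z k v c) ∈ W5.E1 V)
    {R e : (cQ F).Point} (hfr : ∀ c, OddI c →
      PP z k v (r6 S ((2 * p * q) / 2) * c) + PP z k v c =
        R + if Ideal.absNorm c % 8 = 1 ∨ Ideal.absNorm c % 8 = 7 then 0 else ez F)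
    {c0 : Ideal (𝓞 K)} (hc0 : Ideal.absNorm c0 % 8 = 1)
    (h : PP z k v (r6 S p * c0) - PP z k v c0 - -e ∈ W5.E1 V) :
    PP z k v c0 + gal φ (PP z k v c0) - R - e ∈ W5.E1 V := by
  have hdvd : 2 * p * q = 2 * (p * q) := by ring
  have hhalf : (2 * p * q) / 2 = p * q := by
    rw [hdvd]
    exact Nat.mul_div_cancel_left _ two_pos
  have hqa : q ∣ 2 * p * q := dvd_mul_left _ _
  have hpa : p ∣ 2 * p * q := (dvd_mul_left p 2).mul_right q
  have hpqa : p * q ∣ 2 * p * q := by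
    rw [hdvd]
    exact dvd_mul_left _ _
  have hqo : Odd q := by
    rw [Nat.odd_iff]
    omega
  have hpo : Odd p := by
    rw [Nat.odd_iff]
    omega
  have hc0o : OddI c0 := by
    unfold OddI
    rw [Nat.odd_iff]
    omega
  have nq := norm_r6 hb hS hqa
  have np := norm_r6 hb hS hpa
  have hrq : OddI (r6 S q * c0) := by
    unfold OddI
    rw [map_mul, nq]
    exact hqo.mul hc0o
  have hrp : OddI (r6 S p * c0) := by
    unfold OddI
    rw [map_mul, np]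
    exact hpo.mul hc0o
  have h1 := hfr _ hrq
  have e1 : r6 S ((2 * p * q) / 2) * (r6 S q * c0) =
      Ideal.span {(q : 𝓞 K)} * (r6 S p * c0) := by
    rw [hhalf, r6_mul hb hS hpqa, ← r6_sq hb hS hqa]
    simp only [mul_comm, mul_left_comm, mul_assoc]
  have e2 : Ideal.absNorm (r6 S q * c0) % 8 = 3 := by
    rw [map_mul, nq, Nat.mul_mod, hq8, hc0]
  rw [e1, V6.nat_px hb hS hU hqo hrp, if_neg (by omega), if_neg (by omega)] at h1
  have h2 : PP z k v (r6 S p * c0) + PP z k v (r6 S q * c0) = R := by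
    have h3 : PP z k v (r6 S p * c0) + PP z k v (r6 S q * c0) + ez F = R + ez F := by
      rw [← h1]
      abel
    exact add_right_cancel h3
  have h4 := hφ c0 hc0o
  have h5 : PP z k v c0 + gal φ (PP z k v c0) - R - e =
      -(PP z k v (r6 S q * c0) - gal φ (PP z k v c0)) -
        (PP z k v (r6 S p * c0) - PP z k v c0 - -e) := by
    rw [← h2]
    abel
  rw [h5]
  exact AddSubgroup.sub_mem _ (AddSubgroup.neg_mem _ h4) h

end Pool.Agent.Work.MP_8efaaa_nt.Z6
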