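import Mathlib
import Pool.Agent.Work.MP_8efaaa_nt.W14.Defs
import Pool.Agent.Work.MP_8efaaa_nt.W14.PVu
import Pool.Agent.Work.MP_8efaaa_nt.W14.PGa

/-!
# Z6/PRl (S): the point of a real ideal lies in the real component

`c` odd, `cj τ c = c`, so `κ` fixes `z c`, `k c`, `v c` (`UD6.cc`), and `ι` of them is real (`Complex.conj_eq_iff_real`). `(v z)^2 = 2 k`, `v z ≠ 0`: `ι k > 0`. `pp_inv`: `PP c = pt x y`, `x = (1 + z)/k`, `y = 2 x/(v z)`: `ι x = (1 + r)/(ι k) > 0` for `ι (z c) = r > 0`; `κ y = y`. Apply `hB`.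
`gal_pk`: `gal_pp` with `UD6.cc`.
-/

set_option autoImplicit false

namespace Pool.Agent.Work.MP_8efaaa_nt.Z6

open NumberField Pool.Agent.Work.MP_8efaaa_nt.R Pool.Agent.Work.MP_8efaaa_nt.N5
  Pool.Agent.Work.MP_8efaaa_nt.K6 Pool.Agent.Work.MP_8efaaa_nt.W14
open scoped Classical nonZeroDivisors

variable {K F : Type*} [Field K] [NumberField K] [Field F] [NumberField F] [Algebra K F] {a : ℕ}
  {s : K} {S : 𝓞 K} {τ : 𝓞 K ≃+* 𝓞 K} {ζ : F} {w : ℕ → F} {z k v : Ideal (𝓞 K) → F}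
  {κ : F ≃ₐ[ℚ] F}

theorem gal_pk (hU : UD6 K F a s S τ ζ w z k v κ) {c : Ideal (𝓞 K)} (hc : OddI c) :
    gal κ (PP z k v c) = PP z k v (cj τ c) :=
  gal_pp κ (hU.cc c hc).1 (hU.cc c hc).2.1 (hU.cc c hc).2.2

theorem pp_real (hU : UD6 K F a s S τ ζ w z k v κ) {ι : F →+* ℂ}
    (hι : ∀ x, ι (κ x) = (starRingEnd ℂ) (ι x)) {B : AddSubgroup (cQ F).Point}
    (hB : ∀ (x y : F) (h : y ^ 2 = x ^ 3 - x) (r : ℝ), 0 < r → ι x = (r : ℂ) →
      κ y = y → pt x y h ∈ B) {c : Ideal (𝓞 K)} (hc : OddI c) (hcj : cj τ c = c) {r : ℝ}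
    (hr : 0 < r) (hz : ι (z c) = (r : ℂ)) : PP z k v c ∈ B := by
  obtain ⟨hcz, hck, hcv⟩ := hU.cc c hc
  rw [hcj] at hcz hck hcv
  obtain ⟨nz, nk, nv⟩ := hU.ne c hc
  obtain ⟨x, y, h, e1, hy, hx1, g1, g2, -⟩ := pp_inv hU hc
  rw [e1]
  have hreal : ∀ t : F, κ t = t → ∃ q : ℝ, ι t = (q : ℂ) := by
    intro t ht
    have h1 := hι t
    rw [ht] at h1
    obtain ⟨q, hq⟩ := Complex.conj_eq_iff_real.1 h1.symm
    exact ⟨q, hq⟩
  obtain ⟨q, hq⟩ := hreal _ hck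
  obtain ⟨p, hp⟩ := hreal (v c * z c) (by rw [map_mul, hcv, hcz])
  have hvz := hU.vz c hc
  have h2 : (p : ℂ) ^ 2 = 2 * (q : ℂ) := by
    rw [← hp, ← hq, ← map_pow, hvz, map_mul, map_ofNat]
  have h3 : p ^ 2 = 2 * q := by exact_mod_cast h2
  have hp0 : p ≠ 0 := by
    rintro rfl
    have h4 : ι (v c * z c) = 0 := by rw [hp, Complex.ofReal_zero]
    exact mul_ne_zero nv nz ((map_eq_zero ι).1 h4)
  have hp2 : 0 < p ^ 2 := by positivity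
  have hq0 : 0 < q := by linarith
  refine hB x y h ((1 + r) / q) (div_pos (by linarith) hq0) ?_ ?_
  · rw [g1, map_div₀, map_add, map_one, hz, hq]
    push_cast
    rfl
  · rw [g2, g1, map_div₀, map_mul, map_div₀, map_add, map_one, map_mul, hcz, hck, hcv,
      map_ofNat]

end Pool.Agent.Work.MP_8efaaa_nt.Z6
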