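import Mathlib
import Pool.Agent.Work.MP_8efaaa_nt.V6.Defs
import Pool.Agent.Work.MP_8efaaa_nt.V6.GPi
import Pool.Agent.Work.MP_8efaaa_nt.V6.PEx
import Pool.Agent.Work.MP_8efaaa_nt.Z6.PRl

/-!
# Z6/Ev (S-M): the number `N` is even

`kk` below is `V6.kk_px`. `ρ = r6 S d`, so `ρ * ρ = (d)` (`r6_sq`), `cj τ ρ = ρ` (`cj_r6`), `d % 8 = 1`. Write `P = PP z k v`, `x = w ^ N` in `M1 K`.
(1) `P (cj τ x) = P x`: `kk` for `x`, `ρ`: `P (x * y) = P (ρ * y) + ε` for all odd `y`, `ε + ε = 0`. `y = 1`: `P x = P ρ + ε`. `y = cj τ x`: `x * cj τ x = (N x)` (`norm_cj6`), `V6.nat_px` (`N x % 8 = 1`): `P 1 = P (ρ * cj τ x) + ε`. `clN (cj τ x) = (clN ρ)⁻¹ = clN ρ` (`cls_cj`, as in `Y6/Sec.lean`; `clN ρ * clN ρ = 1` because `ρ * ρ = (d)` is principal), `kk` for `cj τ x`, `ρ`: `P (cj τ x * y) = P (ρ * y) + ε'`. `y = ρ`: `P (cj τ x * ρ) = P ((d)) + ε' = P 1 + ε'`. So `ε' = ε`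 (as `ε = -ε`), and `y = 1`: `P (cj τ x) = P ρ + ε = P x`.
(2) `gal κ` fixes the element of `h` (`hB`), and `P ρ` (`gal_pk`, `cj τ ρ = ρ`), and `P (w ^ N)` (`gal_pk`, (1)). `gal κ T = T + em`: `V6.gal_T` with `κ (ζ ^ 2) = (ζ ^ 7) ^ 2 = ζ ^ 14 = -ζ ^ 2` (`ζ ^ 4 = -1`). So `N • (T + em + em) = N • (T + em)`, `N • em = 0` (`em + em = 0`: `two_ep`), and `em ≠ 0`: `N` is even.
-/

set_option autoImplicit false

namespace Pool.Agent.Work.MP_8efaaa_nt.Z6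

open NumberField Pool.Agent.Work.MP_8efaaa_nt.R Pool.Agent.Work.MP_8efaaa_nt.N5
  Pool.Agent.Work.MP_8efaaa_nt.K6 Pool.Agent.Work.MP_8efaaa_nt.W14 Pool.Agent.Work.MP_8efaaa_nt.V6
open scoped Classical nonZeroDivisors

variable {K F : Type*} [Field K] [NumberField K] [Field F] [NumberField F] [Algebra K F] {a : ℕ}
  {s : K} {S : 𝓞 K} {τ : 𝓞 K ≃+* 𝓞 K} {ζ : F} {w : ℕ → F} {z k v : Ideal (𝓞 K) → F}
  {κ : F ≃ₐ[ℚ] F}

private theorem ev_odd {c d : Ideal (𝓞 K)} (hc : OddI c) (hd : OddI d) : OddI (c * d) := by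
  unfold OddI at *
  rw [map_mul]
  exact hc.mul hd

private theorem ev_odd_one : OddI (1 : Ideal (𝓞 K)) := by
  unfold OddI
  rw [map_one]
  exact odd_one

private theorem ev_nat (hb : B6 K a s) (hS : algebraMap (𝓞 K) K S = s)
    (hU : UD6 K F a s S τ ζ w z k v κ) {n : ℕ} (hn : n % 8 = 1) :
    PP z k v (Ideal.span {(n : 𝓞 K)}) = PP z k v 1 := by
  have h := nat_px hb hS hU (n := n) (by rw [Nat.odd_iff]; omega) ev_odd_one
  rw [if_pos (Or.inl hn), add_zero, mul_one] at h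
  exact h

private theorem ev_cj (hb : B6 K a s) (hS : algebraMap (𝓞 K) K S = s) (hτ : τ S = -S)
    (ha : a % 16 = 6) (hU : UD6 K F a s S τ ζ w z k v κ) {d : ℕ} (hd : d ∣ a) (hd8 : d % 8 = 1)
    {ρ x : M1 K} (hρ : (ρ : Ideal (𝓞 K)) = r6 S d) (hu : clN S x = clN S ρ) :
    PP z k v (cj τ (x : Ideal (𝓞 K))) = PP z k v (x : Ideal (𝓞 K)) := by
  obtain ⟨n1, n2, -⟩ := norm_cj6 hb hS hτ (x : Ideal (𝓞 K))
  have hx1 : cj τ (x : Ideal (𝓞 K)) ∈ M1 K := by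
    show Ideal.absNorm (cj τ (x : Ideal (𝓞 K))) % 8 = 1
    rw [n1]
    exact M1.nrm x.2
  have hd0 : d ≠ 0 := by omega
  have hrr : clN S ρ * clN S ρ = 1 := by
    show (QuotientGroup.mk (cls (ρ : Ideal (𝓞 K))) : CG S) *
      QuotientGroup.mk (cls (ρ : Ideal (𝓞 K))) = 1
    rw [← QuotientGroup.mk_mul, ← cls_mul (M1.ne ρ.2) (M1.ne ρ.2), hρ, r6_sq hb hS hd,
      cls_span (by exact_mod_cast hd0)]
    rfl
  have hcl : clN S ⟨cj τ (x : Ideal (𝓞 K)), hx1⟩ = clN S ρ := by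
    have h1 : clN S ⟨cj τ (x : Ideal (𝓞 K)), hx1⟩ = (clN S x)⁻¹ := by
      show QuotientGroup.mk (cls (cj τ (x : Ideal (𝓞 K)))) =
        (QuotientGroup.mk (cls (x : Ideal (𝓞 K))))⁻¹
      rw [(cls_cj hb hS hτ (M1.ne x.2)).2]
      rfl
    rw [h1, hu]
    exact inv_eq_of_mul_eq_one_left hrr
  obtain ⟨ε, hε, -, h1⟩ := kk_px hb hS hτ ha hU hu
  obtain ⟨ε', hε', -, h2⟩ := kk_px hb hS hτ ha hU hcl
  have hxo : OddI (cj τ (x : Ideal (𝓞 K))) := M1.odd hx1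
  have hro : OddI (ρ : Ideal (𝓞 K)) := M1.odd ρ.2
  have a1 := h1 1 ev_odd_one
  have a2 := h1 _ hxo
  have b1 := h2 _ hro
  have b2 := h2 1 ev_odd_one
  rw [mul_one, mul_one] at a1
  rw [n2, ev_nat hb hS hU (M1.nrm x.2)] at a2
  rw [mul_one, mul_one] at b2
  have hrr2 : (ρ : Ideal (𝓞 K)) * (ρ : Ideal (𝓞 K)) = Ideal.span {(d : 𝓞 K)} := by
    rw [hρ, r6_sq hb hS hd]
  rw [hrr2, ev_nat hb hS hU hd8] at b1
  have c1 : ((⟨cj τ (x : Ideal (𝓞 K)), hx1⟩ : M1 K) : Ideal (𝓞 K)) * (ρ : Ideal (𝓞 K)) =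
      (ρ : Ideal (𝓞 K)) * cj τ (x : Ideal (𝓞 K)) := mul_comm _ _
  rw [c1] at b1
  rw [b1, add_assoc] at a2
  have a3 : ε' + ε = 0 := by
    have := a2.symm
    rwa [add_eq_left] at this
  have a4 : ε' = ε := by
    have h3 : ε' = ε' + (ε + ε) := by rw [hε, add_zero]
    rw [h3, ← add_assoc, a3, zero_add]
  have b3 : PP z k v (cj τ (x : Ideal (𝓞 K))) = PP z k v (ρ : Ideal (𝓞 K)) + ε' := b2
  rw [b3, a4, a1]

theorem even_z (hb : B6 K a s) (hS : algebraMap (𝓞 K) K S = s) (hτ : τ S = -S)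
    (ha : a % 16 = 6) (hU : UD6 K F a s S τ ζ w z k v κ) {T : (cQ F).Point}
    (hTT : T + T = ez F) {d : ℕ} (hd : d ∣ a) (hd8 : d % 8 = 1) {ρ u : M1 K}
    (hρ : (ρ : Ideal (𝓞 K)) = r6 S d) {N : ℕ} (hu : clN S u ^ N = clN S ρ)
    {B : AddSubgroup (cQ F).Point} (hB : ∀ R ∈ B, gal κ R = R)
    (h : N • (T + W14.em F) + PP z k v (ρ : Ideal (𝓞 K)) -
      PP z k v ((u : Ideal (𝓞 K)) ^ N) ∈ B) : Even N := by
  obtain ⟨t1, t2, t3, t4, t5, t6⟩ := two_ep (F := F)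
  have hκz : κ (ζ ^ 2) = -ζ ^ 2 := by
    rw [map_pow, hU.cz]
    have h4 := hU.z8
    linear_combination (ζ ^ 10 - ζ ^ 6 + ζ ^ 2) * h4
  have hgT : gal κ T = T + W14.em F := (gal_T hU.z8 κ hTT).2 hκz
  have hx := ev_cj hb hS hτ ha hU hd hd8 hρ (x := u ^ N) (by rw [map_pow]; exact hu)
  have hx' : PP z k v (cj τ ((u : Ideal (𝓞 K)) ^ N)) = PP z k v ((u : Ideal (𝓞 K)) ^ N) := hx
  have hro : OddI (ρ : Ideal (𝓞 K)) := M1.odd ρ.2
  have huo : OddI ((u : Ideal (𝓞 K)) ^ N) := M1.odd (u ^ N).2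
  have h1 := hB _ h
  rw [map_sub, map_add, map_nsmul, map_add, hgT, gal_em, gal_pk hU hro, gal_pk hU huo, hx', hρ,
    cj_r6 hb hS hτ] at h1
  have h2 : N • (T + W14.em F + W14.em F) = N • (T + W14.em F) := by
    have h3 := congrArg (fun R => R + PP z k v ((u : Ideal (𝓞 K)) ^ N) - PP z k v (r6 S d)) h1
    have e1 : ∀ A B C : (cQ F).Point, A + B - C + C - B = A := by
      intro A B C
      abel
    rw [e1, e1] at h3
    exact h3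
  rw [nsmul_add (T + W14.em F), add_eq_left] at h2
  by_contra hN
  rw [Nat.not_even_iff_odd] at hN
  obtain ⟨m, hm⟩ := hN
  rw [hm, add_nsmul, one_nsmul, mul_nsmul, two_nsmul, t2, nsmul_zero, zero_add] at h2
  exact pt_ne _ h2

end Pool.Agent.Work.MP_8efaaa_nt.Z6
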