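import Mathlib
import Pool.Agent.Work.MP_8efaaa_nt.V6.PEx
import Pool.Agent.Work.MP_8efaaa_nt.W6.Defs
import Pool.Agent.Work.MP_8efaaa_nt.W6.JTw
import Pool.Agent.Work.MP_8efaaa_nt.W14.PGa

/-!
# Z6/PTj (S-M): the quarter turn, exactly

`δ = 3 + 3 S = 3 (1 + S)`, `c = 1`: `J := -(v (span {δ} * 1) * v 1)`, `J^2 = -1` (`hX.trx 3 3 δ`, first statement, `neg_sq`), `e8 3 = -1`, so `W6.pq_x6`: `PP (span {δ} * 1) + PP 1 = TJ J`. `span {δ} * 1 = span {((3 : ℕ) : 𝓞 K)} * span {1 + S}`, so by `V6.nat_px` (`n = 3`, `c = span {1 + S}`, odd: norm `1 + a` (`norm_g`), or `oddI_span6`) `PP (span {δ} * 1) = PP (span {1 + S}) + ez`. `hT` for `c = 1` (norm `1`): `PP (span {1 + S} * 1) + PP 1 = T + 0`. So `T = TJ J + ez` (`ez + ez = 0`).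
`tj_em`: `TJ J + em = TJ (-J)`: the line through `(J, 1 - J)` and `(-1, 0)` has the slope `(1 - J)/(J + 1) = -J`, `x3 = J^2 - J + 1 = -J`, `y3 = -(-J (-2J) + 1 - J) = 1 + J` (`WeierstrassCurve.Affine.slope_of_X_ne` etc. as in `W6.TR_neg`, W6/GFr.lean).
So for `ε = ez`: `T + em - ez = TJ J + em = TJ (-J)` (`ez - ez`); for `ε = ep`: `T + em - ep = TJ J + ez + em - ep = TJ J` (`two_ep`: `em + ez = ep`).
-/

set_option autoImplicit false

namespace Pool.Agent.Work.MP_8efaaa_nt.Z6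

open NumberField Pool.Agent.Work.MP_8efaaa_nt.R Pool.Agent.Work.MP_8efaaa_nt.N5
  Pool.Agent.Work.MP_8efaaa_nt.K6 Pool.Agent.Work.MP_8efaaa_nt.W14 Pool.Agent.Work.MP_8efaaa_nt.W6
open scoped Classical nonZeroDivisors

private theorem add_eqT {F : Type*} [Field F] [CharZero F] {x1 y1 x2 y2 x3 y3 L : F}
    (h1 : y1 ^ 2 = x1 ^ 3 - x1)
    (h2 : y2 ^ 2 = x2 ^ 3 - x2) (hx : x1 ≠ x2) (hL : L * (x1 - x2) = y1 - y2)
    (h3x : x3 = L ^ 2 - x1 - x2) (h3y : y3 = -(L * (x3 - x1) + y1)) :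
    ∃ h3, pt x1 y1 h1 + pt x2 y2 h2 = pt x3 y3 h3 := by
  have hn := WeierstrassCurve.Affine.nonsingular_add (cQ_nonsingular.2 h1) (cQ_nonsingular.2 h2)
    (fun hc => hx hc.1)
  have hs : (cQ F).slope x1 x2 y1 y2 = L := by
    rw [WeierstrassCurve.Affine.slope_of_X_ne hx, div_eq_iff (sub_ne_zero.2 hx), hL]
  have eX : (cQ F).addX x1 x2 ((cQ F).slope x1 x2 y1 y2) = x3 := by
    rw [hs, h3x]
    simp only [WeierstrassCurve.Affine.addX, cQ]
    ring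
  have eY : (cQ F).addY x1 x2 y1 ((cQ F).slope x1 x2 y1 y2) = y3 := by
    simp only [WeierstrassCurve.Affine.addY, WeierstrassCurve.Affine.negAddY, eX]
    rw [hs, h3y]
    simp only [WeierstrassCurve.Affine.negY, cQ]
    ring
  refine ⟨?_, ?_⟩
  · have h3 := cQ_nonsingular.1 hn
    rw [eX, eY] at h3
    exact h3
  · unfold pt
    rw [WeierstrassCurve.Affine.Point.add_of_X_ne hx,
      WeierstrassCurve.Affine.Point.some.injEq]
    exact ⟨eX, eY⟩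

theorem tj_em {F : Type*} [Field F] [CharZero F] {J : F} (hJ : J ^ 2 = -1)
    (hJ' : (-J) ^ 2 = -1) : TJ hJ + W14.em F = TJ hJ' := by
  have hne : J ≠ -1 := by
    rintro rfl
    apply two_ne_zero (α := F)
    linear_combination hJ
  unfold TJ W14.em
  obtain ⟨h3, e3⟩ := add_eqT (x1 := J) (y1 := 1 - J) (x2 := -1) (y2 := 0) (L := -J)
    (x3 := -J) (y3 := 1 - -J) (sq_TJ hJ) (by norm_num) hne (by linear_combination -hJ)
    (by linear_combination -hJ) (by linear_combination 2 * hJ)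
  exact e3

variable {K F : Type*} [Field K] [NumberField K] [Field F] [NumberField F]
    [Algebra K F] {a : ℕ} {s : K} {S : 𝓞 K} {τ : 𝓞 K ≃+* 𝓞 K} {ζ : F}
    {w : ℕ → F} {z k v : Ideal (𝓞 K) → F} {κ : F ≃ₐ[ℚ] F} {u0 v0 : ℤ} {nu : ℕ → ℤ → ℤ}
    {ξ θ e : F}

theorem t_eps (hb : B6 K a s) (hS : algebraMap (𝓞 K) K S = s)
    (hX : XD6 K F a s S τ ζ w z k v κ u0 v0 nu ξ θ e) {T : (cQ F).Point}
    (hT : ∀ c, OddI c → PP z k v (Ideal.span {1 + S} * c) + PP z k v c =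
        T + if Ideal.absNorm c % 4 = 1 then 0 else W14.em F) {ε : (cQ F).Point}
    (hε : ε = ez F ∨ ε = ep F) : ∃ (J : F) (hJ : J ^ 2 = -1), T + W14.em F - ε = TJ hJ := by
  have hU := hX.ud
  have ho1 : OddI (1 : Ideal (𝓞 K)) := by
    unfold OddI
    rw [map_one]
    exact odd_one
  obtain ⟨δ, hδ⟩ : ∃ δ : 𝓞 K, δ = ((3 : ℕ) : 𝓞 K) * (1 + S) := ⟨_, rfl⟩
  have hδK : algebraMap (𝓞 K) K δ = ((3 : ℤ) : K) + ((3 : ℤ) : K) * s := by
    rw [hδ, map_mul, map_add, map_one, hS, map_natCast]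
    push_cast
    ring
  have h1S : algebraMap (𝓞 K) K (1 + S) = ((1 : ℤ) : K) + ((1 : ℤ) : K) * s := by
    rw [map_add, map_one, hS]
    push_cast
    ring
  have hg : OddI (Ideal.span {1 + S}) := (oddI_span6 hb h1S).2 odd_one
  have h3 : Odd (3 : ℤ) := by decide
  obtain ⟨h1, -⟩ := hX.trx 3 3 δ h3 h3 hδK 1 ho1
  have hJ : (-(v (Ideal.span {δ} * 1) * v 1)) ^ 2 = -1 := by
    rw [neg_sq, h1]
  have h4 := W6.pq_x6 hX h3 h3 (by unfold e8; norm_num) hδK ho1 hJ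
  have h5 : Ideal.span {δ} * (1 : Ideal (𝓞 K)) =
      Ideal.span {((3 : ℕ) : 𝓞 K)} * Ideal.span {1 + S} := by
    rw [mul_one, hδ, Ideal.span_singleton_mul_span_singleton]
  have h6 := V6.nat_px hb hS hU (n := 3) (by decide) hg
  rw [if_neg (by norm_num)] at h6
  have h7 := hT 1 ho1
  rw [mul_one, map_one, if_pos (by norm_num), add_zero] at h7
  have h8 : TJ hJ = T + ez F := by
    rw [← h4, h5, h6, ← h7]
    abel
  have hzz := (two_ep (F := F)).2.2.1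
  have hez := (two_ep (F := F)).2.2.2.2.2
  rcases hε with rfl | rfl
  · refine ⟨_, (neg_sq _).trans hJ, ?_⟩
    rw [← tj_em hJ _, h8]
    have h9 : T + W14.em F - ez F = T + ez F + W14.em F - (ez F + ez F) := by abel
    rw [h9, hzz, sub_zero]
  · refine ⟨_, hJ, ?_⟩
    rw [h8, ← hez]
    have h9 : T + W14.em F - (W14.em F + ez F) = T + ez F - (ez F + ez F) := by abel
    rw [h9, hzz, sub_zero]

end Pool.Agent.Work.MP_8efaaa_nt.Z6
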