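import Mathlib
import Pool.Agent.Work.MP_8efaaa_nt.W14.Defs
import Pool.Agent.Work.MP_8efaaa_nt.W14.PGa
import Pool.Agent.Work.MP_8efaaa_nt.W5.E1

/-!
# Z6/Rl (M): the real component

`ι : F →+* ℂ`, `κ` is complex conjugation: `ι (κ x) = conj (ι x)`. `B` := the points `R` with `R = 0` or `R = pt x y h`, `ι x = r` with `r > 0` real, `ι y = t` real (the identity component of `y^2 = x^3 - x` over `ℝ`). It is a subgroup: `neg`: `W5.neg_pt`. `add`: `R1 = (x1, y1)`, `R2 = (x2, y2)`, all coordinates real after `ι` (`ι` is injective), `x1, x2 > 0`.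
(a) `x1 ≠ x2`: slope `l = (y1 - y2)/(x1 - x2)`, `n = y1 - l x1`; `R1 + R2 = (x3, y3)`, `x3 = l^2 - x1 - x2`, `y3 = -(l (x3 - x1) + y1)` (real), and `x1 x2 x3 = n^2` (the line `y = l x + n` meets the curve in `x1, x2, x3`: `x^3 - x - (l x + n)^2 = (x - x1)(x - x2)(x - x3)` at `x = 0`; as an identity: `x1 x2 (l^2 - x1 - x2) = (y1 - l x1)^2` multiplied by `(x1 - x2)^2`, modulo the curve equations). So `x3 ≥ 0`. If `x3 = 0` then `n = 0`, `y1 = l x1`, `y2 = l x2`, `l^2 = x1 - 1/x1 = x2 - 1/x2`, `(x1 - x2)(1 + 1/(x1 x2)) = 0`: contradiction.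
(b) `x1 = x2`, `y1 = -y2`: the sum is `0`. (c) `x1 = x2`, `y1 = y2 ≠ 0`: `R1 + R1 = (x3, y3)`, `x3 = ((x1^2+1)/(2 y1))^2 > 0` (`W5.dbl_pt`; `y3`: from the formulas, real).
For `y3` real in all cases one can also argue: `gal κ` is additive, `gal κ R1 = R1`, `gal κ R2 = R2` (the coordinates are fixed by `κ` because `ι` is injective), so `gal κ` fixes the sum, so its coordinates are fixed by `κ`, i.e. `ι` of them is real. (So `B` can be defined as: `R = 0` or `R = pt x y h`, `κ x = x`, `κ y = y`, `0 < (ι x).re`.)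
`κ`-fixed: clear. `R + gal κ R ∈ B`: `R = pt x y h`, `gal κ R = pt (κ x) (κ y)`, `κ (κ x) = x` (injectivity of `ι`). It is fixed by `gal κ`. (a') `x ≠ κ x`: `x3 = l^2 - x - κ x`, `x * κ x * x3 = n^2` with `l = (y - κ y)/(x - κ x)` and `n = y - l x` fixed by `κ`, and `ι (x * κ x) = |ι x|^2 > 0` (`x ≠ 0`), so `x3 ≥ 0`; `x3 = 0` is excluded as in (a) (`1 + 1/|x|^2 ≠ 0`). (b') `x = κ x`, `κ y = -y`: the sum is `0`. (c') `x = κ x`, `κ y = y ≠ 0`: `W5.dbl_pt`, `x3 = ((x^2+1)/(2y))^2 > 0` (`x^2 + 1 > 0`). (`(κ y)^2 = y^2` gives `κ y = ± y`; `y = 0` is in case (b').)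
`ez ∉ B`: its first coordinate is `0`. `ep ∈ B` is clear.
-/

set_option autoImplicit false

namespace Pool.Agent.Work.MP_8efaaa_nt.Z6

open NumberField Pool.Agent.Work.MP_8efaaa_nt.R Pool.Agent.Work.MP_8efaaa_nt.N5
  Pool.Agent.Work.MP_8efaaa_nt.K6 Pool.Agent.Work.MP_8efaaa_nt.W14
open scoped Classical nonZeroDivisors

section rl

variable {F : Type*} [Field F] [NumberField F] {κ : F ≃ₐ[ℚ] F} {ι : F →+* ℂ}

private theorem rl_im (hι : ∀ x, ι (κ x) = (starRingEnd ℂ) (ι x)) {a : F} (ha : κ a = a) :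
    (ι a).im = 0 := by
  have h := hι a
  rw [ha] at h
  exact Complex.conj_eq_iff_im.1 h.symm

private theorem rl_mul (hι : ∀ x, ι (κ x) = (starRingEnd ℂ) (ι x)) {a b : F} (ha : κ a = a)
    (hb : κ b = b) : (ι (a * b)).re = (ι a).re * (ι b).re := by
  rw [map_mul, Complex.mul_re, rl_im hι ha, rl_im hι hb]
  ring

private theorem rl_ne (hι : ∀ x, ι (κ x) = (starRingEnd ℂ) (ι x)) {a : F} (ha : κ a = a)
    (h0 : a ≠ 0) : (ι a).re ≠ 0 := by
  intro h
  apply h0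
  apply ι.injective
  rw [map_zero]
  exact Complex.ext h (rl_im hι ha)

private theorem rl_kk (hι : ∀ x, ι (κ x) = (starRingEnd ℂ) (ι x)) (a : F) : κ (κ a) = a := by
  apply ι.injective
  rw [hι, hι, Complex.conj_conj]

private theorem rl_pos (hι : ∀ x, ι (κ x) = (starRingEnd ℂ) (ι x)) {x1 y1 x2 y2 x3 : F}
    (h1 : y1 ^ 2 = x1 ^ 3 - x1) (h2 : y2 ^ 2 = x2 ^ 3 - x2) (hx : x1 ≠ x2)
    (h3 : x3 * (x1 - x2) ^ 2 = (y1 - y2) ^ 2 - (x1 + x2) * (x1 - x2) ^ 2)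
    (hP : κ (x1 * x2) = x1 * x2) (hPp : 0 < (ι (x1 * x2)).re)
    (hn : κ ((x1 * y2 - x2 * y1) / (x1 - x2)) = (x1 * y2 - x2 * y1) / (x1 - x2))
    (hx3 : κ x3 = x3) : 0 < (ι x3).re := by
  have hd : x1 - x2 ≠ 0 := sub_ne_zero.2 hx
  have hP0 : x1 * x2 ≠ 0 := by
    intro h
    rw [h, map_zero] at hPp
    exact lt_irrefl _ hPp
  have hkey : x1 * x2 * x3 = ((x1 * y2 - x2 * y1) / (x1 - x2)) ^ 2 := by
    rw [div_pow, eq_div_iff (pow_ne_zero 2 hd)]
    linear_combination x1 * x2 * h3 + (x1 - x2) * x2 * h1 - (x1 - x2) * x1 * h2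
  have hn0 : (x1 * y2 - x2 * y1) / (x1 - x2) ≠ 0 := by
    intro h
    rcases div_eq_zero_iff.1 h with h4 | h4
    · have h5 : x1 * x2 * ((x2 - x1) * (x1 * x2 + 1)) = 0 := by
        linear_combination (x1 * y2 + x2 * y1) * h4 - x1 ^ 2 * h2 + x2 ^ 2 * h1
      rcases mul_eq_zero.1 h5 with h6 | h6
      · exact hP0 h6
      rcases mul_eq_zero.1 h6 with h7 | h7
      · exact hx (sub_eq_zero.1 h7).symm
      · have h8 : x1 * x2 = -1 := by linear_combination h7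
        rw [h8, map_neg, map_one, Complex.neg_re, Complex.one_re] at hPp
        linarith
    · exact hd h4
  have h6 : (ι (x1 * x2)).re * (ι x3).re
      = (ι ((x1 * y2 - x2 * y1) / (x1 - x2))).re ^ 2 := by
    rw [← rl_mul hι hP hx3, hkey, pow_two, pow_two, rl_mul hι hn hn]
  have h7 : 0 < (ι ((x1 * y2 - x2 * y1) / (x1 - x2))).re ^ 2 :=
    pow_pos_of_ne (rl_ne hι hn hn0)
  rw [← h6] at h7
  exact (mul_pos_iff_of_pos_left hPp).1 h7
where
  pow_pos_of_ne {t : ℝ} (ht : t ≠ 0) : 0 < t ^ 2 := by positivity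

private def IsB (κ : F ≃ₐ[ℚ] F) (ι : F →+* ℂ) (R : (cQ F).Point) : Prop :=
  R = 0 ∨ ∃ (x y : F) (h : y ^ 2 = x ^ 3 - x), R = pt x y h ∧ κ x = x ∧ κ y = y ∧ 0 < (ι x).re

private theorem rl_fix {x3 y3 : F} {h3 : y3 ^ 2 = x3 ^ 3 - x3}
    (h : gal κ (pt x3 y3 h3) = pt x3 y3 h3) : κ x3 = x3 ∧ κ y3 = y3 := by
  rw [gal_pt, pt_inj] at h
  exact h

private theorem rl_dbl (hι : ∀ x, ι (κ x) = (starRingEnd ℂ) (ι x)) {x y : F}
    (h : y ^ 2 = x ^ 3 - x) (hx : κ x = x) (hy : κ y = y) (hy0 : y ≠ 0) :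
    IsB κ ι (pt x y h + pt x y h) := by
  obtain ⟨x3, y3, h3, e, e2⟩ := W5.dbl_pt h hy0
  have hfix : gal κ (pt x3 y3 h3) = pt x3 y3 h3 := by
    rw [← e, map_add, gal_pt]
    have : pt (κ x) (κ y) (by rw [← map_pow, h, map_sub, map_pow]) = pt x y h := by
      rw [pt_inj]; exact ⟨hx, hy⟩
    rw [this]
  obtain ⟨f1, f2⟩ := rl_fix hfix
  refine Or.inr ⟨x3, y3, h3, e, f1, f2, ?_⟩
  have k2 : κ (2 * y) = 2 * y := by rw [map_mul, hy, map_ofNat]
  have kx : κ (x ^ 2 + 1) = x ^ 2 + 1 := by rw [map_add, map_pow, hx, map_one]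
  have k2' : κ (2 * y * (2 * y)) = 2 * y * (2 * y) := by rw [map_mul, k2]
  have e3 : (ι x3).re * ((ι (2 * y)).re * (ι (2 * y)).re)
      = (ι (x ^ 2 + 1)).re * (ι (x ^ 2 + 1)).re := by
    rw [← rl_mul hι k2 k2, ← rl_mul hι f1 k2', ← rl_mul hι kx kx]
    congr 2
    linear_combination e2
  have h5 : (ι (x ^ 2 + 1)).re = (ι x).re * (ι x).re + 1 := by
    rw [map_add, map_one, Complex.add_re, Complex.one_re, pow_two, rl_mul hι hx hx]
  have h6 : 0 < (ι (x ^ 2 + 1)).re := by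
    rw [h5]
    nlinarith [mul_self_nonneg (ι x).re]
  have h7 : (ι (2 * y)).re ≠ 0 := rl_ne hι k2 (mul_ne_zero two_ne_zero hy0)
  have h8 : 0 < (ι (2 * y)).re * (ι (2 * y)).re := mul_self_pos.2 h7
  have h9 : 0 < (ι x3).re * ((ι (2 * y)).re * (ι (2 * y)).re) := by
    rw [e3]; positivity
  exact (mul_pos_iff_of_pos_right h8).1 h9

private theorem rl_add (hι : ∀ x, ι (κ x) = (starRingEnd ℂ) (ι x)) {R R' : (cQ F).Point}
    (hR : IsB κ ι R) (hR' : IsB κ ι R') : IsB κ ι (R + R') := by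
  rcases hR with rfl | ⟨x1, y1, h1, rfl, a1, b1, c1⟩
  · rw [zero_add]; exact hR'
  rcases hR' with rfl | ⟨x2, y2, h2, rfl, a2, b2, c2⟩
  · rw [add_zero]; exact Or.inr ⟨x1, y1, h1, rfl, a1, b1, c1⟩
  by_cases hx : x1 = x2
  · subst hx
    have h4 : (y2 - y1) * (y2 + y1) = 0 := by linear_combination h2 - h1
    by_cases hs : y2 + y1 = 0
    · left
      have h5 : pt x1 y2 h2 = -(pt x1 y1 h1) := by
        rw [W5.neg_pt, pt_inj]
        exact ⟨rfl, by linear_combination hs⟩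
      rw [h5, add_neg_cancel]
    · have h5 : y2 = y1 := by
        have := (mul_eq_zero.1 h4).resolve_right hs
        linear_combination this
      subst h5
      have hy0 : y2 ≠ 0 := fun h => hs (by rw [h, add_zero])
      exact rl_dbl hι h1 a1 b1 hy0
  · obtain ⟨x3, y3, h3, e, e2⟩ := W5.add_pt h1 h2 hx
    have hfix : gal κ (pt x3 y3 h3) = pt x3 y3 h3 := by
      rw [← e, map_add, gal_pt, gal_pt]
      have t1 : pt (κ x1) (κ y1) (by rw [← map_pow, h1, map_sub, map_pow]) = pt x1 y1 h1 := by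
        rw [pt_inj]; exact ⟨a1, b1⟩
      have t2 : pt (κ x2) (κ y2) (by rw [← map_pow, h2, map_sub, map_pow]) = pt x2 y2 h2 := by
        rw [pt_inj]; exact ⟨a2, b2⟩
      rw [t1, t2]
    obtain ⟨f1, f2⟩ := rl_fix hfix
    refine Or.inr ⟨x3, y3, h3, e, f1, f2, ?_⟩
    refine rl_pos hι h1 h2 hx e2 (by rw [map_mul, a1, a2]) ?_ ?_ f1
    · rw [rl_mul hι a1 a2]
      exact mul_pos c1 c2
    · rw [map_div₀, map_sub, map_mul, map_mul, map_sub, a1, a2, b1, b2]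

private theorem rl_tr (hι : ∀ x, ι (κ x) = (starRingEnd ℂ) (ι x)) (R : (cQ F).Point) :
    IsB κ ι (R + gal κ R) := by
  rcases pt_cases R with rfl | ⟨x, y, h, rfl⟩
  · left
    rw [map_zero, add_zero]
  have h' : (κ y) ^ 2 = (κ x) ^ 3 - κ x := by rw [← map_pow, h, map_sub, map_pow]
  have hg : gal κ (pt x y h) = pt (κ x) (κ y) h' := by rw [gal_pt]
  by_cases hx : x = κ x
  · by_cases hy : κ y = -y
    · left
      have h5 : pt (κ x) (κ y) h' = -(pt x y h) := by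
        rw [W5.neg_pt, pt_inj]
        exact ⟨hx.symm, hy⟩
      rw [hg, h5, add_neg_cancel]
    · have h4 : (κ y - y) * (κ y + y) = 0 := by
        have h6 : (κ y) ^ 2 = x ^ 3 - x := by rw [h', ← hx]
        linear_combination h6 - h
      have h5 : κ y = y := by
        rcases mul_eq_zero.1 h4 with h6 | h6
        · linear_combination h6
        · exact absurd (by linear_combination h6) hy
      have hy0 : y ≠ 0 := fun h0 => hy (by rw [h0, map_zero, neg_zero])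
      have h6 : pt (κ x) (κ y) h' = pt x y h := by
        rw [pt_inj]; exact ⟨hx.symm, h5⟩
      rw [hg, h6]
      exact rl_dbl hι h hx.symm h5 hy0
  · obtain ⟨x3, y3, h3, e, e2⟩ := W5.add_pt h h' hx
    have hfix : gal κ (pt x3 y3 h3) = pt x3 y3 h3 := by
      rw [← e, map_add, gal_pt, gal_pt, add_comm]
      congr 1
      rw [pt_inj]
      exact ⟨rl_kk hι x, rl_kk hι y⟩
    obtain ⟨f1, f2⟩ := rl_fix hfix
    rw [hg]
    refine Or.inr ⟨x3, y3, h3, e, f1, f2, ?_⟩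
    have hx0 : x ≠ 0 := fun h0 => hx (by rw [h0, map_zero])
    refine rl_pos hι h h' hx e2 (by rw [map_mul, rl_kk hι, mul_comm]) ?_ ?_ f1
    · rw [map_mul, hι, Complex.mul_conj, Complex.ofReal_re]
      apply Complex.normSq_pos.2
      intro h0
      apply hx0
      apply ι.injective
      rw [h0, map_zero]
    · rw [map_div₀, map_sub, map_mul, map_mul, map_sub, rl_kk hι, rl_kk hι, ← neg_sub,
        ← neg_sub x (κ x), neg_div_neg_eq]

end rl

theorem exists_real {F : Type*} [Field F] [NumberField F] {κ : F ≃ₐ[ℚ] F} {ι : F →+* ℂ}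
    (hι : ∀ x, ι (κ x) = (starRingEnd ℂ) (ι x)) :
    ∃ B : AddSubgroup (cQ F).Point, (∀ R ∈ B, gal κ R = R) ∧ (∀ R, R + gal κ R ∈ B) ∧
      ez F ∉ B ∧ ∀ (x y : F) (h : y ^ 2 = x ^ 3 - x) (r : ℝ), 0 < r → ι x = (r : ℂ) →
        κ y = y → pt x y h ∈ B := by
  refine ⟨{ carrier := {R | IsB κ ι R}
            zero_mem' := Or.inl rfl
            add_mem' := fun hR hR' => rl_add hι hR hR'
            neg_mem' := ?_ }, ?_, fun R => rl_tr hι R, ?_, ?_⟩
  · rintro R (rfl | ⟨x, y, h, rfl, a, b, c⟩)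
    · left; exact neg_zero
    · refine Or.inr ⟨x, -y, by rw [neg_sq]; exact h, W5.neg_pt h, a, ?_, c⟩
      rw [map_neg, b]
  · rintro R (rfl | ⟨x, y, h, rfl, a, b, c⟩)
    · exact map_zero _
    · rw [gal_pt, pt_inj]
      exact ⟨a, b⟩
  · rintro (h0 | ⟨x, y, h, e, a, b, c⟩)
    · exact pt_ne _ h0
    · unfold ez at e
      rw [pt_inj] at e
      rw [← e.1, map_zero] at c
      exact lt_irrefl _ c
  · intro x y h r hr hx hy
    refine Or.inr ⟨x, y, h, rfl, ?_, hy, ?_⟩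
    · apply ι.injective
      rw [hι, hx, Complex.conj_ofReal]
    · rw [hx, Complex.ofReal_re]
      exact hr

end Pool.Agent.Work.MP_8efaaa_nt.Z6
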