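import Mathlib
import Pool.Agent.Work.MP_8efaaa_nt.V6.Defs
import Pool.Agent.Work.MP_8efaaa_nt.V6.GSu
import Pool.Agent.Work.MP_8efaaa_nt.W14.CEq
import Pool.Agent.Work.MP_8efaaa_nt.K6.ARg

/-!
# Z6/Sec (M): a system of representatives made of pairs `c`, `w0 * cj τ c`, and of two fixed classes

Model: `Y6/Sec.lean` (`exists_sec`; there without fixed classes). `ω = clN S w0`, `g0 = clN S c0`, `g1 = clN S ρ * g0`, `e = clN S ρ`, `e * e = 1`. The map `f g = ω * g⁻¹` is an involution of `CG S`; `f g = g` iff `g * g = ω = g0 * g0` iff `(g * g0⁻¹) * (g * g0⁻¹) = 1` iff `g = g0` or `g = g1` (`hG`), and `g0 ≠ g1` (`hρ1`). Choose a half system `H` of the complement: `H = {g | e g < e (f g)}`, `e = Fintype.equivFin`; then `univ` is the disjoint union of `H`, `H.image f` and `{g0, g1}`, so `card = 2 H.card + 2`, `card / 2 - 1 = H.card`.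
Let `c g` be a representative of `g` (`clN_surj`); `r g = c0` if `g = g0`, `ρ * c0` if `g = g1`, `c g` if `g ∈ H`, `w0 * cj τ (c (f g))` otherwise. Product: `∏ g, r g = (∏ g ∈ H, c g * (w0 * cj τ (c g))) * (c0 * (ρ * c0))` and `c * cj τ c = (N c)` (`norm_cj6`), `m = ∏ g ∈ H, N (c g)`. Sum: `∑ g, PP (r g) - (H.card • T' + (PP c0 + PP (ρ * c0))) = ∑ g ∈ H, (PP (w0 * cj τ (c g)) + PP (c g) - T') ∈ E`.
-/

set_option autoImplicit false

namespace Pool.Agent.Work.MP_8efaaa_nt.Z6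

open NumberField Pool.Agent.Work.MP_8efaaa_nt.R Pool.Agent.Work.MP_8efaaa_nt.N5
  Pool.Agent.Work.MP_8efaaa_nt.K6 Pool.Agent.Work.MP_8efaaa_nt.W14 Pool.Agent.Work.MP_8efaaa_nt.V6
open scoped Classical nonZeroDivisors

variable {K F : Type*} [Field K] [NumberField K] [Field F] [NumberField F] {a : ℕ}
  {s : K} {S : 𝓞 K} {τ : 𝓞 K ≃+* 𝓞 K}

private theorem sec_half {J : Type*} [Fintype J] {f : J → J} (hf : ∀ j, f (f j) = j) :
    ∃ H : Finset J, (∀ j ∈ H, f j ∉ H) ∧ (∀ j ∈ H, f j ≠ j) ∧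
      ∀ j, f j ≠ j → j ∈ H ∨ f j ∈ H := by
  let e : J ≃ Fin (Fintype.card J) := Fintype.equivFin J
  let H : Finset J := Finset.univ.filter fun j => e j < e (f j)
  have hmem : ∀ j, j ∈ H ↔ e j < e (f j) := by
    intro j
    simp [H]
  refine ⟨H, ?_, ?_, ?_⟩
  · intro j hj hj'
    rw [hmem] at hj hj'
    rw [hf] at hj'
    exact lt_asymm hj hj'
  · intro j hj h
    rw [hmem, h] at hj
    exact lt_irrefl _ hj
  · intro j hj
    have h1 : e j ≠ e (f j) := fun h => hj (e.injective h).symm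
    rcases lt_or_gt_of_ne h1 with h2 | h2
    · exact Or.inl ((hmem j).2 h2)
    · refine Or.inr ((hmem _).2 ?_)
      rw [hf]
      exact h2

private theorem sec_univ {J : Type*} [Fintype J] {f : J → J} {H : Finset J} {g0 g1 : J}
    (hf : ∀ j, f (f j) = j) (hfx : ∀ j, f j = j ↔ j = g0 ∨ j = g1) (h1 : ∀ j ∈ H, f j ∉ H)
    (h2 : ∀ j ∈ H, f j ≠ j) (h3 : ∀ j, f j ≠ j → j ∈ H ∨ f j ∈ H) :
    Disjoint H (H.image f) ∧ Disjoint (H ∪ H.image f) ({g0, g1} : Finset J) ∧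
      (Finset.univ : Finset J) = (H ∪ H.image f) ∪ {g0, g1} := by
  refine ⟨?_, ?_, ?_⟩
  · rw [Finset.disjoint_left]
    intro j hj hj'
    obtain ⟨k, hk, rfl⟩ := Finset.mem_image.1 hj'
    exact h1 k hk hj
  · rw [Finset.disjoint_left]
    intro j hj hj'
    have h4 : f j = j := by
      rw [hfx]
      simpa using hj'
    rcases Finset.mem_union.1 hj with h5 | h5
    · exact h2 j h5 h4
    · obtain ⟨k, hk, rfl⟩ := Finset.mem_image.1 h5
      rw [hf] at h4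
      exact h2 k hk h4.symm
  · symm
    rw [Finset.eq_univ_iff_forall]
    intro j
    by_cases h4 : f j = j
    · refine Finset.mem_union_right _ ?_
      simpa using (hfx j).1 h4
    · refine Finset.mem_union_left _ ?_
      rcases h3 j h4 with h5 | h5
      · exact Finset.mem_union_left _ h5
      · exact Finset.mem_union_right _ (Finset.mem_image.2 ⟨f j, h5, hf j⟩)

private theorem sec_card {J : Type*} [Fintype J] {f : J → J} {H : Finset J} {g0 g1 : J}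
    (hne : g0 ≠ g1) (hf : ∀ j, f (f j) = j) (hd : Disjoint H (H.image f))
    (hd2 : Disjoint (H ∪ H.image f) ({g0, g1} : Finset J))
    (hu : (Finset.univ : Finset J) = (H ∪ H.image f) ∪ {g0, g1}) :
    Fintype.card J = 2 * H.card + 2 := by
  have hinj : Function.Injective f := Function.Involutive.injective hf
  rw [← Finset.card_univ, hu, Finset.card_union_of_disjoint hd2,
    Finset.card_union_of_disjoint hd, Finset.card_image_of_injective _ hinj,
    Finset.card_pair hne]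
  ring

private theorem sec_prod {J M : Type*} [Fintype J] [CommMonoid M] {f : J → J} {H : Finset J}
    {g0 g1 : J} (hne : g0 ≠ g1) (hf : ∀ j, f (f j) = j) (hd : Disjoint H (H.image f))
    (hd2 : Disjoint (H ∪ H.image f) ({g0, g1} : Finset J))
    (hu : (Finset.univ : Finset J) = (H ∪ H.image f) ∪ {g0, g1}) (g : J → M) :
    ∏ j, g j = (∏ j ∈ H, (g j * g (f j))) * (g g0 * g g1) := by
  have hinj : Function.Injective f := Function.Involutive.injective hf
  rw [hu, Finset.prod_union hd2, Finset.prod_union hd, Finset.prod_image (fun x _ y _ h => hinj h),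
    Finset.prod_mul_distrib, Finset.prod_pair hne]

private theorem sec_sum {J M : Type*} [Fintype J] [AddCommMonoid M] {f : J → J} {H : Finset J}
    {g0 g1 : J} (hne : g0 ≠ g1) (hf : ∀ j, f (f j) = j) (hd : Disjoint H (H.image f))
    (hd2 : Disjoint (H ∪ H.image f) ({g0, g1} : Finset J))
    (hu : (Finset.univ : Finset J) = (H ∪ H.image f) ∪ {g0, g1}) (g : J → M) :
    ∑ j, g j = (∑ j ∈ H, (g j + g (f j))) + (g g0 + g g1) := by
  have hinj : Function.Injective f := Function.Involutive.injective hf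
  rw [hu, Finset.sum_union hd2, Finset.sum_union hd, Finset.sum_image (fun x _ y _ h => hinj h),
    Finset.sum_add_distrib, Finset.sum_pair hne]

theorem exists_sec2 (hb : B6 K a s) (hS : algebraMap (𝓞 K) K S = s) (hτ : τ S = -S)
    (ha : a % 16 = 6) {w0 ρ c0 : M1 K} (hρ1 : clN S ρ ≠ 1)
    (hG : ∀ g : CG S, g * g = 1 ↔ g = 1 ∨ g = clN S ρ)
    (hw : clN S c0 * clN S c0 = clN S w0) [Fintype (CG S)] :
    ∃ (r : CG S → M1 K) (m : ℕ), (∀ g, clN S (r g) = g) ∧ m % 8 = 1 ∧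
      ((∏ g, r g : M1 K) : Ideal (𝓞 K)) = Ideal.span {(m : 𝓞 K)} *
        ((w0 : Ideal (𝓞 K)) ^ (Fintype.card (CG S) / 2 - 1) *
          ((c0 : Ideal (𝓞 K)) * ((ρ : Ideal (𝓞 K)) * (c0 : Ideal (𝓞 K))))) ∧
      ∀ (z k v : Ideal (𝓞 K) → F) (T' : (cQ F).Point) (E : AddSubgroup (cQ F).Point),
        (∀ c ∈ M1 K, PP z k v ((w0 : Ideal (𝓞 K)) * cj τ c) + PP z k v c - T' ∈ E) →
        ∑ g, PP z k v (r g : Ideal (𝓞 K)) - ((Fintype.card (CG S) / 2 - 1) • T' +
          (PP z k v (c0 : Ideal (𝓞 K)) +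
            PP z k v ((ρ : Ideal (𝓞 K)) * (c0 : Ideal (𝓞 K))))) ∈ E := by
  set ω : CG S := clN S w0 with hω
  set g0 : CG S := clN S c0 with hg0
  set g1 : CG S := clN S ρ * g0 with hg1
  have hne : g0 ≠ g1 := by
    intro h
    apply hρ1
    rw [hg1] at h
    exact (mul_eq_right.1 h.symm)
  have hf : ∀ g : CG S, ω * (ω * g⁻¹)⁻¹ = g := by
    intro g
    rw [mul_inv_rev, inv_inv, mul_comm g ω⁻¹, mul_inv_cancel_left]
  have hfx : ∀ g : CG S, ω * g⁻¹ = g ↔ g = g0 ∨ g = g1 := by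
    intro g
    rw [mul_inv_eq_iff_eq_mul, ← hw]
    have h1 : g0 * g0 = g * g ↔ (g * g0⁻¹) * (g * g0⁻¹) = 1 := by
      rw [mul_mul_mul_comm, ← mul_inv_rev, mul_inv_eq_one]
      exact eq_comm
    rw [h1, hG, mul_inv_eq_one, mul_inv_eq_iff_eq_mul, hg1]
  obtain ⟨H, hH, hH2, hH3⟩ := sec_half (f := fun g : CG S => ω * g⁻¹) hf
  obtain ⟨hd, hd2, hu⟩ := sec_univ (f := fun g : CG S => ω * g⁻¹) hf hfx hH hH2 hH3
  have hcard : Fintype.card (CG S) = 2 * H.card + 2 := sec_card hne hf hd hd2 hu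
  have hN2 : Fintype.card (CG S) / 2 - 1 = H.card := by omega
  rw [hN2]
  have hcjm : ∀ c : Ideal (𝓞 K), c ∈ M1 K → cj τ c ∈ M1 K := by
    intro c hc
    show Ideal.absNorm (cj τ c) % 8 = 1
    rw [(norm_cj6 hb hS hτ c).1]
    exact M1.nrm hc
  have hinv : ∀ c : M1 K, clN S ⟨cj τ (c : Ideal (𝓞 K)), hcjm _ c.2⟩ = (clN S c)⁻¹ := by
    intro c
    show QuotientGroup.mk (cls (cj τ (c : Ideal (𝓞 K)))) =
      (QuotientGroup.mk (cls (c : Ideal (𝓞 K))))⁻¹
    rw [(cls_cj hb hS hτ (M1.ne c.2)).2]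
    rfl
  obtain ⟨c, hc⟩ := (clN_surj hb hS ha).hasRightInverse
  set r : CG S → M1 K := fun g => if g = g0 then c0 else if g = g1 then ρ * c0 else
    if g ∈ H then c g else
    w0 * ⟨cj τ (c (ω * g⁻¹) : Ideal (𝓞 K)), hcjm _ (c (ω * g⁻¹)).2⟩ with hr
  have hr0 : r g0 = c0 := by
    rw [hr]
    exact if_pos rfl
  have hr01 : r g1 = ρ * c0 := by
    rw [hr]
    show (if g1 = g0 then c0 else if g1 = g1 then ρ * c0 else _) = _
    rw [if_neg hne.symm, if_pos rfl]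
  have hr1 : ∀ g ∈ H, r g = c g := by
    intro g hg
    have h0 : ¬ (g = g0 ∨ g = g1) := fun h => hH2 g hg ((hfx g).2 h)
    rw [not_or] at h0
    rw [hr]
    show (if g = g0 then c0 else if g = g1 then ρ * c0 else if g ∈ H then c g else _) = _
    rw [if_neg h0.1, if_neg h0.2, if_pos hg]
  have hr3 : ∀ g, ω * g⁻¹ ≠ g → g ∉ H → r g =
      w0 * ⟨cj τ (c (ω * g⁻¹) : Ideal (𝓞 K)), hcjm _ (c (ω * g⁻¹)).2⟩ := by
    intro g hg hgH
    have h0 : ¬ (g = g0 ∨ g = g1) := fun h => hg ((hfx g).2 h)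
    rw [not_or] at h0
    rw [hr]
    show (if g = g0 then c0 else if g = g1 then ρ * c0 else if g ∈ H then c g else _) = _
    rw [if_neg h0.1, if_neg h0.2, if_neg hgH]
  have hr2 : ∀ g ∈ H, r (ω * g⁻¹) = w0 * ⟨cj τ (c g : Ideal (𝓞 K)), hcjm _ (c g).2⟩ := by
    intro g hg
    have h1 := hr3 (ω * g⁻¹) (by rw [hf]; exact (hH2 g hg).symm) (hH g hg)
    have h2 : ∀ x y : CG S, x = y → (w0 * ⟨cj τ (c x : Ideal (𝓞 K)), hcjm _ (c x).2⟩ : M1 K) =
        w0 * ⟨cj τ (c y : Ideal (𝓞 K)), hcjm _ (c y).2⟩ := by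
      rintro x y rfl
      rfl
    rw [h1]
    exact h2 _ _ (hf g)
  have hcl : ∀ g, clN S (r g) = g := by
    intro g
    by_cases h0 : g = g0
    · rw [h0, hr0]
    · by_cases h1 : g = g1
      · rw [h1, hr01, map_mul]
      · by_cases hg : g ∈ H
        · rw [hr1 g hg]
          exact hc g
        · have h2 : ω * g⁻¹ ≠ g := fun h => by
            rcases (hfx g).1 h with h3 | h3
            · exact h0 h3
            · exact h1 h3
          rw [hr3 g h2 hg, map_mul, hinv, hc (ω * g⁻¹), ← hω]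
          exact hf g
  refine ⟨r, ∏ g ∈ H, Ideal.absNorm (c g : Ideal (𝓞 K)), hcl, ?_, ?_, ?_⟩
  · refine Finset.prod_induction _ (fun n => n % 8 = 1) ?_ (by norm_num) ?_
    · intro x y hx hy
      rw [Nat.mul_mod, hx, hy]
    · intro g _
      exact M1.nrm (c g).2
  · rw [sec_prod hne hf hd hd2 hu r, hr0, hr01]
    have h1 : (∏ g ∈ H, (r g * r (ω * g⁻¹)) : M1 K) = ∏ g ∈ H,
        (c g * (w0 * ⟨cj τ (c g : Ideal (𝓞 K)), hcjm _ (c g).2⟩)) := by
      refine Finset.prod_congr rfl fun g hg => ?_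
      rw [hr1 g hg, hr2 g hg]
    have h2 : ∀ g ∈ H, ((c g * (w0 * ⟨cj τ (c g : Ideal (𝓞 K)), hcjm _ (c g).2⟩) : M1 K) :
        Ideal (𝓞 K)) = Ideal.span {((Ideal.absNorm (c g : Ideal (𝓞 K)) : ℕ) : 𝓞 K)} *
          (w0 : Ideal (𝓞 K)) := by
      intro g _
      show (c g : Ideal (𝓞 K)) * ((w0 : Ideal (𝓞 K)) * cj τ (c g : Ideal (𝓞 K))) = _
      rw [← (norm_cj6 hb hS hτ (c g : Ideal (𝓞 K))).2.1]
      ring
    show ((∏ g ∈ H, (r g * r (ω * g⁻¹)) : M1 K) : Ideal (𝓞 K)) *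
      ((c0 : Ideal (𝓞 K)) * ((ρ : Ideal (𝓞 K)) * (c0 : Ideal (𝓞 K)))) = _
    rw [h1, SubmonoidClass.coe_finsetProd, Finset.prod_congr rfl h2, Finset.prod_mul_distrib,
      Finset.prod_const, Ideal.prod_span_singleton, Nat.cast_prod, mul_assoc]
  · intro z k v T' E hE
    rw [sec_sum hne hf hd hd2 hu (fun g => PP z k v (r g : Ideal (𝓞 K)))]
    have h1 : (∑ g ∈ H, (PP z k v (r g : Ideal (𝓞 K)) +
          PP z k v (r (ω * g⁻¹) : Ideal (𝓞 K)))) + (PP z k v (r g0 : Ideal (𝓞 K)) +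
          PP z k v (r g1 : Ideal (𝓞 K))) - (H.card • T' +
          (PP z k v (c0 : Ideal (𝓞 K)) +
            PP z k v ((ρ : Ideal (𝓞 K)) * (c0 : Ideal (𝓞 K))))) =
        ∑ g ∈ H, (PP z k v (r g : Ideal (𝓞 K)) +
          PP z k v (r (ω * g⁻¹) : Ideal (𝓞 K)) - T') := by
      rw [hr0, hr01, Finset.sum_sub_distrib, Finset.sum_const]
      show _ + (PP z k v (c0 : Ideal (𝓞 K)) +
            PP z k v ((ρ : Ideal (𝓞 K)) * (c0 : Ideal (𝓞 K)))) - _ = _
      abel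
    refine Eq.mpr (congrArg (fun x => x ∈ E) h1) ?_
    refine E.sum_mem fun g hg => ?_
    rw [hr1 g hg, hr2 g hg]
    have h1 := hE (c g : Ideal (𝓞 K)) (c g).2
    rw [add_comm (PP z k v (c g : Ideal (𝓞 K)))]
    exact h1

end Pool.Agent.Work.MP_8efaaa_nt.Z6
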