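import Mathlib
import Pool.Agent.Work.MP_8efaaa_nt.V6.Defs
import Pool.Agent.Work.MP_8efaaa_nt.V6.GSu
import Pool.Agent.Work.MP_8efaaa_nt.W14.CEq
import Pool.Agent.Work.MP_8efaaa_nt.K6.ARg

/-!
# Z6/Sym (M): a system of representatives stable under complex conjugation

Model: `Y6/Sec.lean` (`exists_sec`). `f g = g⁻¹` is an involution of `CG S`, `f g = g` iff `g * g = 1` iff `g = 1` or `g = clN S ρ` (`hG`), two different elements (`hρ1`). `H = {g | e g < e (f g)}`, `e = Fintype.equivFin`; `univ` is the disjoint union of `H`, `H.image f` and `{1, clN S ρ}`. `c g` a representative of `g` (`clN_surj`); `r 1 = 1`, `r (clN S ρ) = ρ`, `r g = c g` if `g ∈ H`, `r g = cj τ (c g⁻¹)` otherwise (norm: `norm_cj6`; class `(clN (c g⁻¹))⁻¹ = g`: `cls_cj`, see `Y6/Sec.lean`).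
Product: `(∏ g ∈ H, c g * cj τ (c g)) * (1 * ρ)`, `c * cj τ c = (N c)`, `m = ∏ g ∈ H, N (c g)`. Sum: `PP 1 + PP ρ + ∑ g ∈ H, (PP (c g) + PP (cj τ (c g)))`.
-/

set_option autoImplicit false

namespace Pool.Agent.Work.MP_8efaaa_nt.Z6

open NumberField Pool.Agent.Work.MP_8efaaa_nt.R Pool.Agent.Work.MP_8efaaa_nt.N5
  Pool.Agent.Work.MP_8efaaa_nt.K6 Pool.Agent.Work.MP_8efaaa_nt.W14 Pool.Agent.Work.MP_8efaaa_nt.V6
open scoped Classical nonZeroDivisors

variable {K F : Type*} [Field K] [NumberField K] [Field F] [NumberField F] {a : ℕ}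
  {s : K} {S : 𝓞 K} {τ : 𝓞 K ≃+* 𝓞 K}

private theorem sym_half {J : Type*} [Fintype J] {f : J → J} (hf : ∀ j, f (f j) = j) {a b : J}
    (hfix : ∀ j, f j = j ↔ j = a ∨ j = b) :
    ∃ H : Finset J, (∀ j ∈ H, f j ∉ H) ∧ a ∉ H ∧ b ∉ H ∧ Disjoint H (H.image f) ∧
      Disjoint (H ∪ H.image f) {a, b} ∧
      (Finset.univ : Finset J) = (H ∪ H.image f) ∪ {a, b} := by
  let e : J ≃ Fin (Fintype.card J) := Fintype.equivFin J
  let H : Finset J := Finset.univ.filter fun j => e j < e (f j)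
  have hmem : ∀ j, j ∈ H ↔ e j < e (f j) := by
    intro j
    simp [H]
  have hH : ∀ j ∈ H, f j ∉ H := by
    intro j hj hj'
    rw [hmem] at hj hj'
    rw [hf] at hj'
    exact lt_asymm hj hj'
  have hfa : f a = a := (hfix a).2 (Or.inl rfl)
  have hfb : f b = b := (hfix b).2 (Or.inr rfl)
  have haH : a ∉ H := by
    rw [hmem, hfa]
    exact lt_irrefl _
  have hbH : b ∉ H := by
    rw [hmem, hfb]
    exact lt_irrefl _
  refine ⟨H, hH, haH, hbH, ?_, ?_, ?_⟩
  · rw [Finset.disjoint_left]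
    intro j hj hj'
    obtain ⟨k, hk, rfl⟩ := Finset.mem_image.1 hj'
    exact hH k hk hj
  · rw [Finset.disjoint_left]
    intro j hj hj'
    rw [Finset.mem_insert, Finset.mem_singleton] at hj'
    rw [Finset.mem_union, Finset.mem_image] at hj
    rcases hj with hj | ⟨k, hk, rfl⟩
    · rcases hj' with rfl | rfl
      · exact haH hj
      · exact hbH hj
    · have h1 : k = a ∨ k = b := by
        rcases hj' with h | h
        · left
          rw [← hf k, h, hfa]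
        · right
          rw [← hf k, h, hfb]
      rcases h1 with rfl | rfl
      · exact haH hk
      · exact hbH hk
  · symm
    rw [Finset.eq_univ_iff_forall]
    intro j
    rw [Finset.mem_union, Finset.mem_union, Finset.mem_image, Finset.mem_insert,
      Finset.mem_singleton]
    by_cases h0 : f j = j
    · exact Or.inr ((hfix j).1 h0)
    · left
      have h1 : e j ≠ e (f j) := fun h => h0 (e.injective h).symm
      rcases lt_or_gt_of_ne h1 with h2 | h2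
      · exact Or.inl ((hmem j).2 h2)
      · refine Or.inr ⟨f j, (hmem _).2 ?_, hf j⟩
        rw [hf]
        exact h2

private theorem sym_prod {J M : Type*} [Fintype J] [CommMonoid M] {f : J → J} {H : Finset J}
    {a b : J} (hab : a ≠ b) (hf : ∀ j, f (f j) = j) (hd : Disjoint H (H.image f))
    (hd' : Disjoint (H ∪ H.image f) {a, b})
    (hu : (Finset.univ : Finset J) = (H ∪ H.image f) ∪ {a, b}) (g : J → M) :
    ∏ j, g j = (∏ j ∈ H, (g j * g (f j))) * (g a * g b) := by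
  have hinj : Function.Injective f := Function.Involutive.injective hf
  rw [hu, Finset.prod_union hd', Finset.prod_union hd,
    Finset.prod_image (fun x _ y _ h => hinj h), Finset.prod_mul_distrib,
    Finset.prod_pair hab]

private theorem sym_sum {J M : Type*} [Fintype J] [AddCommMonoid M] {f : J → J} {H : Finset J}
    {a b : J} (hab : a ≠ b) (hf : ∀ j, f (f j) = j) (hd : Disjoint H (H.image f))
    (hd' : Disjoint (H ∪ H.image f) {a, b})
    (hu : (Finset.univ : Finset J) = (H ∪ H.image f) ∪ {a, b}) (g : J → M) :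
    ∑ j, g j = (∑ j ∈ H, (g j + g (f j))) + (g a + g b) := by
  have hinj : Function.Injective f := Function.Involutive.injective hf
  rw [hu, Finset.sum_union hd', Finset.sum_union hd,
    Finset.sum_image (fun x _ y _ h => hinj h), Finset.sum_add_distrib,
    Finset.sum_pair hab]

theorem exists_sym (hb : B6 K a s) (hS : algebraMap (𝓞 K) K S = s) (hτ : τ S = -S)
    (ha : a % 16 = 6) {ρ : M1 K} (hρ1 : clN S ρ ≠ 1)
    (hG : ∀ g : CG S, g * g = 1 ↔ g = 1 ∨ g = clN S ρ) [Fintype (CG S)] :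
    ∃ (r : CG S → M1 K) (m : ℕ), (∀ g, clN S (r g) = g) ∧ m % 8 = 1 ∧
      ((∏ g, r g : M1 K) : Ideal (𝓞 K)) = Ideal.span {(m : 𝓞 K)} * (ρ : Ideal (𝓞 K)) ∧
      ∀ (z k v : Ideal (𝓞 K) → F) (B : AddSubgroup (cQ F).Point),
        PP z k v 1 ∈ B → PP z k v (ρ : Ideal (𝓞 K)) ∈ B →
        (∀ c ∈ M1 K, PP z k v c + PP z k v (cj τ c) ∈ B) →
        ∑ g, PP z k v (r g : Ideal (𝓞 K)) ∈ B := by
  set ω : CG S := clN S ρ with hω
  have hf : ∀ g : CG S, (g⁻¹)⁻¹ = g := fun g => inv_inv g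
  have hfix : ∀ g : CG S, g⁻¹ = g ↔ g = 1 ∨ g = ω := by
    intro g
    rw [← hG g, inv_eq_iff_mul_eq_one]
  obtain ⟨H, hH, h1H, hωH, hd, hd', hu⟩ := sym_half (f := fun g : CG S => g⁻¹) hf hfix
  have hne : (1 : CG S) ≠ ω := fun h => hρ1 h.symm
  have hcjm : ∀ c : Ideal (𝓞 K), c ∈ M1 K → cj τ c ∈ M1 K := by
    intro c hc
    show Ideal.absNorm (cj τ c) % 8 = 1
    rw [(norm_cj6 hb hS hτ c).1]
    exact M1.nrm hc
  have hinv : ∀ c : M1 K, clN S ⟨cj τ (c : Ideal (𝓞 K)), hcjm _ c.2⟩ = (clN S c)⁻¹ := by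
    intro c
    show QuotientGroup.mk (cls (cj τ (c : Ideal (𝓞 K)))) =
      (QuotientGroup.mk (cls (c : Ideal (𝓞 K))))⁻¹
    rw [(cls_cj hb hS hτ (M1.ne c.2)).2]
    rfl
  obtain ⟨c, hc⟩ := (clN_surj hb hS ha).hasRightInverse
  set r : CG S → M1 K := fun g => if g = 1 then 1 else if g = ω then ρ else
    if g ∈ H then c g else ⟨cj τ (c g⁻¹ : Ideal (𝓞 K)), hcjm _ (c g⁻¹).2⟩ with hr
  have hr1 : r 1 = 1 := by
    rw [hr]
    exact if_pos rfl
  have hrω : r ω = ρ := by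
    rw [hr]
    show (if ω = 1 then (1 : M1 K) else _) = ρ
    rw [if_neg hρ1, if_pos rfl]
  have hHne : ∀ g ∈ H, g ≠ 1 ∧ g ≠ ω := by
    intro g hg
    constructor
    · rintro rfl
      exact h1H hg
    · rintro rfl
      exact hωH hg
  have hrH : ∀ g ∈ H, r g = c g := by
    intro g hg
    rw [hr]
    show (if g = 1 then (1 : M1 K) else _) = c g
    rw [if_neg (hHne g hg).1, if_neg (hHne g hg).2, if_pos hg]
  have hrN : ∀ g : CG S, g ≠ 1 → g ≠ ω → g ∉ H →
      r g = ⟨cj τ (c g⁻¹ : Ideal (𝓞 K)), hcjm _ (c g⁻¹).2⟩ := by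
    intro g h1 h2 h3
    rw [hr]
    show (if g = 1 then (1 : M1 K) else _) = _
    rw [if_neg h1, if_neg h2, if_neg h3]
  have hrH' : ∀ g ∈ H, r g⁻¹ = ⟨cj τ (c g : Ideal (𝓞 K)), hcjm _ (c g).2⟩ := by
    intro g hg
    have e1 : g⁻¹ ≠ 1 := by
      rw [Ne, inv_eq_one]
      exact (hHne g hg).1
    have e2 : g⁻¹ ≠ ω := by
      intro h
      have h3 : ω⁻¹ = ω := (hfix ω).2 (Or.inr rfl)
      apply (hHne g hg).2
      rw [← inv_inv g, h, h3]
    rw [hrN g⁻¹ e1 e2 (hH g hg)]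
    have h2 : ∀ x y : CG S, x = y → (⟨cj τ (c x : Ideal (𝓞 K)), hcjm _ (c x).2⟩ : M1 K) =
        ⟨cj τ (c y : Ideal (𝓞 K)), hcjm _ (c y).2⟩ := by
      rintro x y rfl
      rfl
    exact h2 _ _ (inv_inv g)
  have hcl : ∀ g, clN S (r g) = g := by
    intro g
    by_cases h1 : g = 1
    · rw [h1, hr1, map_one]
    · by_cases h2 : g = ω
      · rw [h2, hrω]
      · by_cases h3 : g ∈ H
        · rw [hrH g h3]
          exact hc g
        · rw [hrN g h1 h2 h3, hinv, hc g⁻¹, inv_inv]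
  refine ⟨r, ∏ g ∈ H, Ideal.absNorm (c g : Ideal (𝓞 K)), hcl, ?_, ?_, ?_⟩
  · refine Finset.prod_induction _ (fun n => n % 8 = 1) ?_ (by norm_num) ?_
    · intro x y hx hy
      rw [Nat.mul_mod, hx, hy]
    · intro g _
      exact M1.nrm (c g).2
  · rw [sym_prod hne hf hd hd' hu r]
    have h1 : (∏ g ∈ H, (r g * r g⁻¹) : M1 K) = ∏ g ∈ H,
        (c g * ⟨cj τ (c g : Ideal (𝓞 K)), hcjm _ (c g).2⟩) := by
      refine Finset.prod_congr rfl fun g hg => ?_
      rw [hrH g hg, hrH' g hg]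
    have h2 : ∀ g ∈ H, ((c g * ⟨cj τ (c g : Ideal (𝓞 K)), hcjm _ (c g).2⟩ : M1 K) :
        Ideal (𝓞 K)) = Ideal.span {((Ideal.absNorm (c g : Ideal (𝓞 K)) : ℕ) : 𝓞 K)} := by
      intro g _
      show (c g : Ideal (𝓞 K)) * cj τ (c g : Ideal (𝓞 K)) = _
      rw [← (norm_cj6 hb hS hτ (c g : Ideal (𝓞 K))).2.1]
    rw [h1, hr1, hrω, one_mul]
    show ((∏ g ∈ H, (c g * ⟨cj τ (c g : Ideal (𝓞 K)), hcjm _ (c g).2⟩) : M1 K) : Ideal (𝓞 K)) *
      (ρ : Ideal (𝓞 K)) = _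
    rw [SubmonoidClass.coe_finsetProd, Finset.prod_congr rfl h2,
      Ideal.prod_span_singleton, Nat.cast_prod]
  · intro z k v B hB1 hBρ hB
    rw [sym_sum hne hf hd hd' hu (fun g => PP z k v (r g : Ideal (𝓞 K)))]
    refine B.add_mem (B.sum_mem fun g hg => ?_) (B.add_mem ?_ ?_)
    · rw [hrH g hg, hrH' g hg]
      exact hB (c g : Ideal (𝓞 K)) (c g).2
    · rw [hr1]
      exact hB1
    · rw [hrω]
      exact hBρ

end Pool.Agent.Work.MP_8efaaa_nt.Z6
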