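import Mathlib
import Pool.Agent.Work.MP_8efaaa_nt.V6.Defs
import Pool.Agent.Work.MP_8efaaa_nt.V6.PEx
import Pool.Agent.Work.MP_8efaaa_nt.V6.PEt
import Pool.Agent.Work.MP_8efaaa_nt.K6.ARg

/-!
# Z6/Try (S-M): the exact translation by `x + y S`, `y` even

Model: the private part of `V6/PEt.lean` (`tr_px`; copy it). `P = PP z k v`, `e8 x` is `1` (`x = ±1 (mod 8)`) or `-1`.
(1) `P ((1+S) * ((1+S) * c)) = P c + em` for odd `c` (`V6.tq_px` for `(1+S) c` and for `c`; `N ((1+S) c) = (1+a) N c = 3 N c (mod 4)`).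
(2) `4 ∣ y`: `UD6.tr1`: `P (span {x + y S} * c) = P c` if `e8 x = 1`, `P c + ez` if `e8 x = -1` (in V6/PEt this is a private lemma).
(3) `y = 2 y'`, `y'` odd: `(x + y S)(1 + S)^2 = X + Y S`, `X = x (1-a) - 4 a y'`, `Y = 2 (x + y' (1-a))`, `4 ∣ Y`, `X` odd, `X = 3 x (mod 8)` (`a = 6 (mod 16)`: `1 - a = 3 (mod 8)`, `4 a y' = 0 (mod 8)`), so `e8 X = -e8 x`. (2) for `X + Y S`: `P (span {x + y S} * (span {1+S} * (span {1+S} * c)))` is `P c` if `e8 x = -1`, `P c + ez` if `e8 x = 1`; and it is `P (span {x + y S} * c) + em` by (1) (applied to `span {x + y S} * c`). `em + em = 0`, `ez + em = ep` (`two_ep`).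
-/

set_option autoImplicit false

namespace Pool.Agent.Work.MP_8efaaa_nt.Z6

open NumberField Pool.Agent.Work.MP_8efaaa_nt.R Pool.Agent.Work.MP_8efaaa_nt.N5
  Pool.Agent.Work.MP_8efaaa_nt.K6 Pool.Agent.Work.MP_8efaaa_nt.W14
open scoped Classical nonZeroDivisors

variable {K F : Type*} [Field K] [NumberField K] [Field F] [NumberField F] [Algebra K F] {a : ℕ}
  {s : K} {S : 𝓞 K} {τ : 𝓞 K ≃+* 𝓞 K} {ζ : F} {w : ℕ → F} {z k v : Ideal (𝓞 K) → F}
  {κ : F ≃ₐ[ℚ] F}

omit [NumberField F] in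
private theorem add_eq [CharZero F] {x1 y1 x2 y2 x3 y3 L : F} (h1 : y1 ^ 2 = x1 ^ 3 - x1)
    (h2 : y2 ^ 2 = x2 ^ 3 - x2) (hx : x1 ≠ x2) (hL : L = (y1 - y2) / (x1 - x2))
    (h3x : x3 = L ^ 2 - x1 - x2) (h3y : y3 = -(L * (x3 - x1) + y1)) :
    ∃ h3, pt x1 y1 h1 + pt x2 y2 h2 = pt x3 y3 h3 := by
  have hn := WeierstrassCurve.Affine.nonsingular_add (cQ_nonsingular.2 h1) (cQ_nonsingular.2 h2)
    (fun hc => hx hc.1)
  have hs : (cQ F).slope x1 x2 y1 y2 = L := by
    rw [WeierstrassCurve.Affine.slope_of_X_ne hx, hL]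
  have eX : (cQ F).addX x1 x2 ((cQ F).slope x1 x2 y1 y2) = x3 := by
    rw [hs, h3x]
    simp only [WeierstrassCurve.Affine.addX, cQ]
    ring
  have eY : (cQ F).addY x1 x2 y1 ((cQ F).slope x1 x2 y1 y2) = y3 := by
    simp only [WeierstrassCurve.Affine.addY, WeierstrassCurve.Affine.negAddY, eX]
    rw [hs, h3y]
    simp only [WeierstrassCurve.Affine.negY, cQ]
    ring
  refine ⟨?_, ?_⟩
  · have h3 := cQ_nonsingular.1 hn
    rw [eX, eY] at h3
    exact h3
  · unfold pt
    rw [WeierstrassCurve.Affine.Point.add_of_X_ne hx,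
      WeierstrassCurve.Affine.Point.some.injEq]
    exact ⟨eX, eY⟩

omit [NumberField F] in
private theorem add_ez [CharZero F] {x y : F} (h : y ^ 2 = x ^ 3 - x) (hx : x ≠ 0) :
    ∃ h3, pt x y h + ez F = pt (-1 / x) (y / x ^ 2) h3 := by
  have h3x : -1 / x = (y / x) ^ 2 - x - 0 := by
    field_simp
    linear_combination -h
  unfold ez
  refine add_eq h _ hx rfl ?_ ?_
  · rw [sub_zero, sub_zero, sub_zero]
    rw [sub_zero] at h3x
    exact h3x
  · rw [sub_zero, sub_zero]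
    field_simp
    ring

private theorem pp_congr {c c' : Ideal (𝓞 K)} (h1 : z c' = z c) (h2 : k c' = k c)
    (h3 : v c' = v c) : PP z k v c' = PP z k v c := by
  unfold W14.PP
  rw [h1, h2, h3]

/-- the translations of the first kind -/
private theorem tr1_px (hU : UD6 K F a s S τ ζ w z k v κ) {c c' : Ideal (𝓞 K)} (hc : OddI c)
    (hc' : OddI c') {x : ℤ} (h1 : z c' = (e8 x : ℤ) * z c) (h2 : k c' = k c) (h3 : v c' = v c) :
    PP z k v c' = PP z k v c + (if e8 x = 1 then 0 else ez F) := by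
  by_cases he : e8 x = 1
  · rw [if_pos he, add_zero]
    rw [he, Int.cast_one, one_mul] at h1
    rw [pp_congr h1 h2 h3]
  · rw [if_neg he]
    have he' : e8 x = -1 := by
      unfold e8 at he ⊢
      split_ifs at he ⊢
      · exact absurd rfl he
      · rfl
    rw [he'] at h1
    push_cast at h1
    obtain ⟨x1, y1, e1, f1, hy1, hx1, g1, g2, g3, g4, -, -⟩ := pp_inv hU hc
    obtain ⟨x2, y2, e2, f2, hy2, hx2, g1', g2', g3', g4', -, -⟩ := pp_inv hU hc'
    obtain ⟨n1, n2, n3⟩ := hU.ne c hc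
    have hx10 : x1 ≠ 0 := by
      rintro rfl
      apply hy1
      have h5 : y1 ^ 2 = 0 := by rw [e1]; ring
      exact pow_eq_zero_iff two_ne_zero |>.1 h5
    obtain ⟨e3, h4⟩ := add_ez e1 hx10
    rw [f1, f2, h4]
    rw [pt_inj]
    have hzk := hU.zk c hc
    have hX : x2 = -1 / x1 := by
      rw [eq_div_iff hx10, g1, g1', h1, h2]
      field_simp
      linear_combination -hzk
    refine ⟨hX, ?_⟩
    rw [g2', hX, h1, h3, g2]
    field_simp

private theorem odd_mul {b c : Ideal (𝓞 K)} (hb : OddI b) (hc : OddI c) : OddI (b * c) := by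
  unfold OddI at *
  rw [map_mul]
  exact hb.mul hc

private theorem odd_g (hb : B6 K a s) (hS : algebraMap (𝓞 K) K S = s) :
    OddI (Ideal.span {1 + S}) := by
  unfold OddI
  rw [norm_g hb hS, Nat.odd_iff]
  have := hb.mod
  omega

/-- `P ((1 + S) ^ 2 c) = P c + em` -/
private theorem g_sq (hb : B6 K a s) (hS : algebraMap (𝓞 K) K S = s)
    (hU : UD6 K F a s S τ ζ w z k v κ) {c : Ideal (𝓞 K)} (hc : OddI c) :
    PP z k v (Ideal.span {1 + S} * (Ideal.span {1 + S} * c)) = PP z k v c + W14.em F := by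
  obtain ⟨T, -, h⟩ := V6.tq_px hb hS hU
  have hc2 : OddI (Ideal.span {1 + S} * c) := odd_mul (odd_g hb hS) hc
  have h1 := h c hc
  have h2 := h _ hc2
  have hN : Ideal.absNorm (Ideal.span {1 + S} * c) % 4 = 3 * Ideal.absNorm c % 4 := by
    rw [map_mul, norm_g hb hS, Nat.mul_mod]
    have hmod := hb.mod
    have h3 : (1 + a) % 4 = 3 := by omega
    rw [h3]
    omega
  have hodd : Ideal.absNorm c % 2 = 1 := Nat.odd_iff.1 hc
  have hee := (two_ep (F := F)).2.1
  by_cases h4 : Ideal.absNorm c % 4 = 1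
  · rw [if_pos h4, add_zero] at h1
    rw [if_neg (by omega)] at h2
    have h5 : PP z k v (Ideal.span {1 + S} * (Ideal.span {1 + S} * c)) = 
        (PP z k v (Ideal.span {1 + S} * (Ideal.span {1 + S} * c)) +
          PP z k v (Ideal.span {1 + S} * c)) - (PP z k v (Ideal.span {1 + S} * c) + PP z k v c) +
          PP z k v c := by abel
    rw [h5, h1, h2]
    abel
  · rw [if_neg h4] at h1
    rw [if_pos (by omega), add_zero] at h2
    have h5 : PP z k v (Ideal.span {1 + S} * (Ideal.span {1 + S} * c)) = 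
        (PP z k v (Ideal.span {1 + S} * (Ideal.span {1 + S} * c)) +
          PP z k v (Ideal.span {1 + S} * c)) - (PP z k v (Ideal.span {1 + S} * c) + PP z k v c) +
          PP z k v c := by abel
    rw [h5, h1, h2]
    have h6 : T - (T + W14.em F) + PP z k v c = PP z k v c + W14.em F -
      (W14.em F + W14.em F) := by abel
    rw [h6, hee, sub_zero]

theorem tr_y (hb : B6 K a s) (hS : algebraMap (𝓞 K) K S = s) (ha : a % 16 = 6)
    (hU : UD6 K F a s S τ ζ w z k v κ) {x y : ℤ} (hx : Odd x) (hy : Even y)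
    {c : Ideal (𝓞 K)} (hc : OddI c) :
    PP z k v (Ideal.span {(x : 𝓞 K) + y * S} * c) = PP z k v c +
      (if (4 : ℤ) ∣ y then (if e8 x = 1 then 0 else ez F)
        else (if e8 x = 1 then ep F else W14.em F)) := by
  have hxy : algebraMap (𝓞 K) K ((x : 𝓞 K) + y * S) = x + y * s := by
    rw [map_add, map_mul, hS, map_intCast, map_intCast]
  have hodd : OddI (Ideal.span {(x : 𝓞 K) + y * S}) := (oddI_span6 hb hxy).2 hx
  by_cases h4 : (4 : ℤ) ∣ y
  · rw [if_pos h4]
    obtain ⟨y2, rfl⟩ := h4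
    obtain ⟨h1, h2, h3⟩ := hU.tr1 x y2 _ hx (by rw [hxy]; push_cast; ring) c hc
    exact tr1_px hU hc (odd_mul hodd hc) h1 h2 h3
  · rw [if_neg h4]
    obtain ⟨y', hy'⟩ := hy
    have hy2 : Odd y' := by
      rw [← Int.not_even_iff_odd]
      rintro ⟨t, ht⟩
      exact h4 ⟨t, by rw [hy', ht]; ring⟩
    obtain ⟨b, hb'⟩ : ∃ b : ℕ, a = 16 * b + 6 := ⟨a / 16, by omega⟩
    obtain ⟨X, hX⟩ : ∃ X : ℤ, X = x * (1 - a) - 4 * a * y' := ⟨_, rfl⟩
    have hodda : Odd (1 - (a : ℤ)) := by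
      rw [hb']
      push_cast
      exact ⟨-8 * b - 3, by ring⟩
    obtain ⟨Y2, hY2⟩ : Even (x + y' * (1 - (a : ℤ))) := hx.add_odd (hy2.mul hodda)
    have hXodd : Odd X := by
      rw [hX]
      apply (hx.mul hodda).sub_even
      exact ⟨2 * a * y', by ring⟩
    obtain ⟨M, hX8⟩ : ∃ M : ℤ, X = 3 * x + 8 * M :=
      ⟨-x - 2 * b * x - (8 * b + 3) * y', by
        rw [hX, hb']
        push_cast
        ring⟩
    have hx2 : x % 2 = 1 := Int.odd_iff.1 hx
    have hs2 := hb.sq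
    have hα2 : algebraMap (𝓞 K) K (((x : 𝓞 K) + y * S) * (1 + S) ^ 2) = X + 4 * Y2 * s := by
      rw [map_mul, map_pow, hxy, map_add, map_one, hS, hX, hy']
      have h5 : (((x + y' * (1 - (a : ℤ)) : ℤ)) : K) = ((Y2 + Y2 : ℤ) : K) := by rw [hY2]
      push_cast at h5 ⊢
      linear_combination (x + 2 * (y' + y') * 1 + (y' + y') * s) * hs2 + 2 * s * h5
    obtain ⟨h1, h2, h3⟩ := hU.tr1 X Y2 _ hXodd hα2 c hc
    have hg := odd_g hb hS
    have e1 : Ideal.span {((x : 𝓞 K) + y * S) * (1 + S) ^ 2} * c =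
        Ideal.span {1 + S} * (Ideal.span {1 + S} * (Ideal.span {(x : 𝓞 K) + y * S} * c)) := by
      rw [← Ideal.span_singleton_mul_span_singleton, ← Ideal.span_singleton_pow]
      ring
    have hodd2 : OddI (Ideal.span {((x : 𝓞 K) + y * S) * (1 + S) ^ 2} * c) := by
      rw [e1]
      exact odd_mul hg (odd_mul hg (odd_mul hodd hc))
    have h5 := tr1_px hU hc hodd2 h1 h2 h3
    rw [e1, g_sq hb hS hU (odd_mul hodd hc)] at h5
    have hee := (two_ep (F := F)).2.1
    have hez := (two_ep (F := F)).2.2.2.2.2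
    have h6 : PP z k v (Ideal.span {(x : 𝓞 K) + y * S} * c) =
        (PP z k v (Ideal.span {(x : 𝓞 K) + y * S} * c) + W14.em F) +
          W14.em F - (W14.em F + W14.em F) := by abel
    rw [h6, h5, hee, sub_zero]
    by_cases he : e8 x = 1
    · have heX : ¬ e8 X = 1 := by
        unfold e8 at he ⊢
        split_ifs at he with h7
        · rw [if_neg (by omega)]
          norm_num
      rw [if_neg heX, if_pos he, ← hez]
      abel
    · have heX : e8 X = 1 := by
        unfold e8 at he ⊢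
        split_ifs at he with h7
        · exact absurd rfl he
        · have h8 : x % 8 = 3 ∨ x % 8 = 5 := by omega
          have h9 : X % 8 = 1 ∨ X % 8 = 7 := by
            rcases h8 with h8 | h8 <;> omega
          rw [if_pos h9]
      rw [if_pos heX, if_neg he]
      abel

end Pool.Agent.Work.MP_8efaaa_nt.Z6
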