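import Mathlib
import Pool.Agent.Work.MP_8efaaa_nt.W14.DEx
import Pool.Agent.Work.MP_8efaaa_nt.W6.SLaw
import Pool.Agent.Work.MP_8efaaa_nt.W6.SAr
import Pool.Agent.Work.MP_8efaaa_nt.W6.DIx
import Pool.Agent.Work.MP_8efaaa_nt.W6.GFr
import Pool.Agent.Work.MP_8efaaa_nt.W6.CSq
import Pool.Agent.Work.MP_8efaaa_nt.W6.CPr
import Pool.Agent.Work.MP_8efaaa_nt.W6.Main
import Pool.Agent.Work.MP_8efaaa_nt.V6.SIn
import Pool.Agent.Work.MP_8efaaa_nt.W14.LPt
import Pool.Agent.Work.MP_8efaaa_nt.Y6.Sec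
import Pool.Agent.Work.MP_8efaaa_nt.Y6.Tor
import Pool.Agent.Work.MP_8efaaa_nt.Y6.Prd
import Pool.Agent.Work.MP_8efaaa_nt.Z6.LLo
import Pool.Agent.Work.MP_8efaaa_nt.Z6.PTj
import Pool.Agent.Work.MP_8efaaa_nt.Z6.Sec
import Pool.Agent.Work.MP_8efaaa_nt.Z6.Sym
import Pool.Agent.Work.MP_8efaaa_nt.Z6.Rl
import Pool.Agent.Work.MP_8efaaa_nt.Z6.PRl
import Pool.Agent.Work.MP_8efaaa_nt.Z6.DXr
import Pool.Agent.Work.MP_8efaaa_nt.Z6.Ev
import Pool.Agent.Work.MP_8efaaa_nt.Z6.Pw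
import Pool.Agent.Work.MP_8efaaa_nt.Z6.Eq
import Pool.Agent.Work.MP_8efaaa_nt.Z6.EqF
import Pool.Agent.Work.MP_8efaaa_nt.Z6.Try
import Pool.Agent.Work.MP_8efaaa_nt.Z6.El
import Pool.Agent.Work.MP_8efaaa_nt.Z6.Cl
import Pool.Agent.Work.MP_8efaaa_nt.Z6.Ar1
import Pool.Agent.Work.MP_8efaaa_nt.Z6.Ar2

/-!
# Z6/Main: the theorem
-/

set_option autoImplicit false

namespace Pool.Agent.Work.MP_8efaaa_nt.Z6

open NumberField Pool.Agent.Work.MP_8efaaa_nt.R Pool.Agent.Work.MP_8efaaa_nt.N5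
  Pool.Agent.Work.MP_8efaaa_nt.K6 Pool.Agent.Work.MP_8efaaa_nt.W14
open scoped Classical nonZeroDivisors

private theorem mod_facts {p q : ℕ} (hp8 : p % 8 = 1) (hq8 : q % 8 = 3) :
    (2 * p * q) % 16 = 6 ∧ (2 * p * q) / 2 = p * q := by
  have h1 : (p * q) % 8 = 3 := by rw [Nat.mul_mod, hp8, hq8]
  have h2 : 2 * p * q = 2 * (p * q) := by ring
  rw [h2]
  refine ⟨by omega, by omega⟩

private theorem sqf {p q : ℕ} (hp : p.Prime) (hq : q.Prime) (hp8 : p % 8 = 1)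
    (hq8 : q % 8 = 3) : Squarefree (2 * p * q) := by
  have h2p : Nat.Coprime 2 p := (Nat.coprime_primes Nat.prime_two hp).2 (by omega)
  have h2q : Nat.Coprime 2 q := (Nat.coprime_primes Nat.prime_two hq).2 (by omega)
  have hpq : Nat.Coprime p q := (Nat.coprime_primes hp hq).2 (by omega)
  rw [Nat.squarefree_mul (Nat.Coprime.mul_left h2q hpq), Nat.squarefree_mul h2p]
  exact ⟨⟨Nat.prime_two.squarefree, hp.squarefree⟩, hq.squarefree⟩

private theorem r6_one {K : Type*} [Field K] [NumberField K] {S : 𝓞 K} :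
    r6 S 1 = (1 : Ideal (𝓞 K)) := by
  unfold r6
  rw [Nat.cast_one, Ideal.one_eq_top, Ideal.eq_top_iff_one]
  exact Ideal.subset_span (Set.mem_insert _ _)

private theorem odd1 {K : Type*} [Field K] [NumberField K] : OddI (1 : Ideal (𝓞 K)) := by
  unfold OddI
  rw [map_one]
  exact odd_one

/-- the sign at the real place -/
private theorem real_sign {F : Type*} [Field F] [CharZero F] {B : AddSubgroup (cQ F).Point}
    (hB : ez F ∉ B) {T A C ε : (cQ F).Point} (hTT : T + T = ez F) {n : ℕ} {P : Prop}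
    [Decidable P] (hε : ε = if P then 0 else ez F) (hC : C = A + ε)
    (h : (n + n) • (T + W14.em F) + A - C ∈ B) : P ↔ Even n := by
  obtain ⟨-, t2, t3, -, -, -⟩ := two_ep (F := F)
  have h1 : (n + n) • (T + W14.em F) = n • ez F := by
    have h2 : (T + W14.em F) + (T + W14.em F) = ez F := by
      have h3 : (T + W14.em F) + (T + W14.em F) = (T + T) + (W14.em F + W14.em F) := by abel
      rw [h3, hTT, t2, add_zero]
    rw [← two_mul, mul_comm, mul_smul, two_smul, h2]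
  have h4 : (n + n) • (T + W14.em F) + A - C = n • ez F - ε := by
    rw [h1, hC]
    abel
  rw [h4, hε] at h
  have hev : Even n → n • ez F = 0 := by
    rintro ⟨j, rfl⟩
    rw [← two_mul, mul_comm, mul_smul, two_smul, t3, smul_zero]
  have hod : ¬ Even n → n • ez F = ez F := by
    intro hn
    rw [Nat.not_even_iff_odd] at hn
    obtain ⟨j, rfl⟩ := hn
    rw [add_smul, one_smul, mul_comm, mul_smul, two_smul, t3, smul_zero, zero_add]
  constructor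
  · intro hP
    rw [if_pos hP, sub_zero] at h
    by_contra hn
    rw [hod hn] at h
    exact hB h
  · intro hn
    by_contra hP
    rw [if_neg hP, hev hn, zero_sub] at h
    exact hB (by
      have h5 := B.neg_mem h
      rwa [neg_neg] at h5)

theorem core_z {p q : ℕ} (hp : p.Prime) (hq : q.Prime) (hp8 : p % 8 = 1) (hq8 : q % 8 = 3)
    (hnc : ¬ IsCongruent (2 * p * q)) {u v : ℤ} (huv : u ^ 2 + 2 * v ^ 2 = p * q) :
    ((2 * q : ℕ) : ZMod p) ^ ((p - 1) / 4) = (-1) ^ ((p - 1) / 8) ∧ jacobiSym u p = 1 := by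
  obtain ⟨ha, ha2⟩ := mod_facts hp8 hq8
  have hsf := sqf hp hq hp8 hq8
  have hp2 : p ≠ 2 := by omega
  have hq2 : q ≠ 2 := by omega
  have hpa : p ∣ 2 * p * q := ⟨2 * q, by ring⟩
  have hqa : q ∣ 2 * p * q := dvd_mul_left _ _
  have hpq : ¬ p ∣ q := fun h => by
    have := (Nat.prime_dvd_prime_iff_eq hp hq).1 h
    omega
  have hqp : ¬ q ∣ p := fun h => by
    have := (Nat.prime_dvd_prime_iff_eq hq hp).1 h
    omega
  have ha0 : 2 * p * q ≠ 0 := mul_ne_zero (mul_ne_zero two_ne_zero hp.ne_zero) hq.ne_zero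
  have hu0 : u ≠ 0 := by
    rintro rfl
    have h1 : ((p * q : ℕ) : ℤ) % 2 = 1 := by
      have h2 : (p * q) % 2 = 1 := by
        have h3 : (p * q) % 8 = 3 := by rw [Nat.mul_mod, hp8, hq8]
        omega
      exact_mod_cast h2
    push_cast at h1
    rw [← huv] at h1
    omega
  obtain ⟨u1, v1, -, -, -, -, huv1⟩ := W6.exists_uv hp hq hp8 hq8
  have hL := W6.law6 huv1
  obtain ⟨K, _, _, s, hb⟩ := exists_base6 hsf (a := 2 * p * q) (by omega)
  obtain ⟨S, hS, -, -⟩ := exists_S6 hb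
  obtain ⟨τ, hτ⟩ := exists_tau6 hb hS
  obtain ⟨F, _, _, _, _, _, _, ζ, w, z, k, v2, κ, ξ, θ, e, ι, hX, hι, hpos⟩ :=
    exists_xr6 hb ha (m := p * q) (by ring) hS hτ hL
  have hU := hX.ud
  obtain ⟨T, hTT, hT⟩ := V6.tq_px hb hS hU
  have : Fintype (CG S) := Fintype.ofFinite _
  obtain ⟨ρ, hρ, hρ1, hG⟩ := grpz hp hq hp8 hq8 hb hS hτ
  -- the prime above `p`
  obtain ⟨Lp, hLp', hLp⟩ := exists_prime6 (F := F) hp
  obtain ⟨Γp, _, Vp, hVp⟩ := exists_vl hLp'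
  have h2p := (vl_odd hVp hp hp2 hLp).2.1
  obtain ⟨bp, wp, hbp8, hbpc, hwp, hbp1, hbp2, hwpP⟩ :=
    V6.in_pp hb hS hτ ha hU hT hVp hp hp2 hpa hLp
  have hsq := nsqz hp hq hp8 hq8 hb hS hτ hbp8 hbpc (hbp1 q hqa hpq) hwp
  have hsy := sym_wz hp hq hp8 hq8 hb hS hbp8 (hbp2 p hpa dvd_rfl) hwp
  obtain ⟨hprod, rp, mp, hrp, hmp, hrpP, hrpS⟩ := Y6.exists_sec (F := F) hb hS hτ ha hsq
  have hsum := Y6.sum_eq hb hS hτ ha hU hnc hTT h2p hrp (hrpS z k v2 _ _ hwpP)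
  rw [prod_inv hρ1 hG] at hprod
  set N := Fintype.card (CG S) / 2 with hNdef
  have hN1 : 1 ≤ N := by
    rcases Nat.eq_zero_or_pos N with h0 | h0
    · rw [h0, pow_zero] at hprod
      exact absurd hprod.symm hρ1
    · exact h0
  have hρo : OddI (ρ : Ideal (𝓞 K)) := V6.M1.odd ρ.2
  have hwpo : OddI ((wp : Ideal (𝓞 K)) ^ N) := by
    have h1 := V6.M1.odd (wp ^ N).2
    rwa [SubmonoidClass.coe_pow] at h1
  -- the real place
  obtain ⟨B, hB1, hB2, hB3, hB4⟩ := exists_real hι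
  obtain ⟨rs, ms, hrs, hms, hrsP, hrsS⟩ := exists_sym (F := F) hb hS hτ ha hρ1 hG
  have hP1 : PP z k v2 1 ∈ B := by
    obtain ⟨r, hr, hz⟩ := hpos 1 (one_dvd _) (Or.inl rfl)
    have hcj := cj_r6 hb hS hτ 1
    rw [r6_one] at hz hcj
    exact pp_real hU hι hB4 odd1 hcj hr hz
  have hPρ : PP z k v2 (ρ : Ideal (𝓞 K)) ∈ B := by
    obtain ⟨r, hr, hz⟩ := hpos p hpa (Or.inl hp8)
    have hcj := cj_r6 hb hS hτ p
    rw [← hρ] at hz hcj
    exact pp_real hU hι hB4 hρo hcj hr hz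
  have hW := hrsS z k v2 B hP1 hPρ (fun c hc => by
    rw [← gal_pk hU (V6.M1.odd hc)]
    exact hB2 _)
  have hcmp := Y6.sum_prod hb hS hτ ha hU hrs hrp
  have e8m : ∀ (j : ℕ) (x : Ideal (𝓞 K)), j % 8 = 1 → OddI x →
      PP z k v2 (Ideal.span {(j : 𝓞 K)} * x) = PP z k v2 x := by
    intro j x hj hx
    rw [V6.nat_px hb hS hU (n := j) (c := x) (Nat.odd_iff.2 (by omega)) hx, if_pos (Or.inl hj),
      add_zero]
  rw [hsum, hrsP, hrpP, e8m _ _ hms hρo, e8m _ _ hmp hwpo] at hcmp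
  have hW' : N • (T + W14.em F) + PP z k v2 (ρ : Ideal (𝓞 K)) -
      PP z k v2 ((wp : Ideal (𝓞 K)) ^ N) ∈ B := by
    have h1 : N • (T + W14.em F) + PP z k v2 (ρ : Ideal (𝓞 K)) -
        PP z k v2 ((wp : Ideal (𝓞 K)) ^ N) = ∑ g, PP z k v2 (rs g : Ideal (𝓞 K)) := by
      rw [add_sub_assoc, ← hcmp]
      abel
    rw [h1]
    exact hW
  obtain ⟨n, hn⟩ := even_z hb hS hτ ha hU hTT hpa hp8 hρ hprod hB1 hW'
  -- the ideal `c0`
  have hM0 : 2 * (2 * p * q) * u.natAbs ≠ 0 :=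
    mul_ne_zero (mul_ne_zero two_ne_zero ha0) (Int.natAbs_ne_zero.2 hu0)
  obtain ⟨c0, u', hc16, hcM, hcu, hccl⟩ := W6.exists_prim6 hb ha hS
    (C := cls ((wp ^ n : V6.M1 K) : Ideal (𝓞 K))) ⟨_, V6.M1.nrm (wp ^ n).2, rfl⟩ hM0
  have hc8 : Ideal.absNorm c0 % 8 = 1 := by omega
  set c : V6.M1 K := ⟨c0, hc8⟩ with hcdef
  have hcw : V6.clN S c = V6.clN S wp ^ n := by
    rw [← map_pow]
    show (QuotientGroup.mk (cls c0) : CG S) =
      QuotientGroup.mk (cls ((wp ^ n : V6.M1 K) : Ideal (𝓞 K)))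
    rw [hccl]
  have hcc : V6.clN S c * V6.clN S c = V6.clN S ρ := by
    rw [hcw, ← pow_add, ← hn, hprod]
  have hcop : Nat.Coprime (Ideal.absNorm c0) (2 * (2 * p * q)) :=
    Nat.Coprime.coprime_dvd_right ⟨u.natAbs, rfl⟩ hcM
  have hk : cls c0 * cls c0 = cls (r6 S p) := by
    have h1 : V6.clN S (c * c) = V6.clN S ρ := by
      rw [map_mul, hcc]
    have h2 := V6.clN_eq hb hS hτ ha h1
    rw [Submonoid.coe_mul, cls_mul (V6.M1.ne c.2) (V6.M1.ne c.2), hρ] at h2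
    exact h2
  obtain ⟨x, y, hx, hy, hxy, hpx, hnorm, hspan⟩ := exists_elz hb hS hτ hp hp8 hpa hc16 hcop hcu hk
  obtain ⟨ε, -, hε1, hε2⟩ := pw_e hb hS hτ ha hU (ρ := ρ) (c := c)
    (γ := (x : 𝓞 K) + y * S) hcc (by rw [hρ]; exact hspan)
  have hc0o : OddI c0 := V6.M1.odd (show c0 ∈ V6.M1 K from hc8)
  have htr := tr_y hb hS ha hU hx hy (c := c0) hc0o
  have hεv : ε = if (4 : ℤ) ∣ y then (if e8 x = 1 then 0 else ez F)
      else (if e8 x = 1 then ep F else W14.em F) := by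
    have h1 : PP z k v2 c0 + ε = PP z k v2 c0 + (if (4 : ℤ) ∣ y then
      (if e8 x = 1 then 0 else ez F) else (if e8 x = 1 then ep F else W14.em F)) := by
      rw [← htr]
      exact hε2.symm
    exact add_left_cancel h1
  have hpc : PP z k v2 ((wp : Ideal (𝓞 K)) ^ N) = PP z k v2 (ρ : Ideal (𝓞 K)) + ε := by
    have h1 := pw_c hb hS hτ ha hU (u := wp) (c := c) (n := n) hcw
    rw [two_mul, ← hn, hε1] at h1
    exact h1
  -- the prime above `q`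
  obtain ⟨Lq, hLq', hLq⟩ := exists_prime6 (F := F) hq
  obtain ⟨Γ, _, V, hV⟩ := exists_vl hLq'
  obtain ⟨bq, tq, hbqo, hbqc, -, -, hbq16, hbqj, hbqP, -⟩ :=
    W6.inert_x6 hb hS hτ hX hV hq hq2 hqa hLq (M := 2 * p * q) ha0
  obtain ⟨wq, hwq, hwq16, hwqP⟩ := W6.in_w0 hb hS hτ ha hT hbq16 hbqP
  obtain ⟨g0, hg0⟩ := W6.sq_q hp hq hp8 hq8 hb hS hτ hbq16 hbqc (hbqj p hpa hqp) hwq
  obtain ⟨cq, hcq⟩ := V6.clN_surj hb hS ha g0
  have hcqq : V6.clN S cq * V6.clN S cq = V6.clN S wq := by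
    rw [hcq]
    exact hg0
  obtain ⟨rq, mq, hrq, hmq, hrqP, hrqS⟩ := exists_sec2 (F := F) hb hS hτ ha hρ1 hG hcqq
  obtain ⟨ε1, hε1c, hE1, hE2⟩ := eq_q hb hS hτ ha hU (T := T) (V := V) (wp := wp) hwqP hwq16
    hcqq hN1 hrp hmp hrpP hsum hrq hmq hrqP (hrqS z k v2 _ _ hwqP)
  obtain ⟨φ, hφ, hφ', hφP⟩ := pp_frob hb hS hU hV hq hq2 hqa hLq
  obtain ⟨hr1, -, hfr⟩ := W6.fr_T3 hb hS hU
  have hpwq : PP z k v2 ((wq : Ideal (𝓞 K)) ^ N * (ρ : Ideal (𝓞 K))) =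
      PP z k v2 (ρ : Ideal (𝓞 K)) := by
    have h1 := pw_q hb hS hτ ha hU hpa hp8 hρ hG (u := wq) (n := n) (by
      have h2 : V6.clN S wq ^ (2 * n) = (V6.clN S cq) ^ Fintype.card (CG S) := by
        have h3 : 2 * N = Fintype.card (CG S) := by
          have h4 : 2 ∣ Fintype.card (CG S) := by
            have h5 : orderOf (V6.clN S ρ) = 2 := by
              refine orderOf_eq_prime ?_ hρ1
              rw [pow_two]
              exact (hG _).2 (Or.inr rfl)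
            rw [← h5]
            exact orderOf_dvd_card
          omega
        rw [two_mul, ← hn, ← hcqq, ← pow_two, ← pow_mul, h3]
      rw [h2, pow_card_eq_one]) hρo
    rw [two_mul, ← hn] at h1
    exact h1
  have hE3 := eq_f hp hq hp8 hq8 hb hS hU hφP hfr (c0 := (cq : Ideal (𝓞 K))) (V6.M1.nrm cq.2)
    (e := ε) (by
      rw [hpwq, hpc] at hE2
      have h1 : PP z k v2 (ρ : Ideal (𝓞 K)) - (PP z k v2 (ρ : Ideal (𝓞 K)) + ε) = -ε := by abel
      rw [h1, hρ] at hE2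
      exact hE2)
  obtain ⟨J, hJ, hTJ⟩ := t_eps hb hS hX hT hε1c
  rw [hTJ] at hE1
  have hy4 : (4 : ℤ) ∣ y := by
    by_contra hy4
    rw [if_neg hy4] at hεv
    refine loc_e hV hq hq8 hLq hφ hφ' hJ hr1 hE1 ?_ hE3
    by_cases h8 : e8 x = 1
    · left
      rw [hεv, if_pos h8]
    · right
      rw [hεv, if_neg h8]
  rw [if_pos hy4] at hεv
  rw [hn] at hW'
  have hpc' : PP z k v2 ((wp : Ideal (𝓞 K)) ^ (n + n)) =
      PP z k v2 (ρ : Ideal (𝓞 K)) + ε := by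
    rw [← hn]
    exact hpc
  have hiff := real_sign hB3 hTT hεv hpc' hW'
  -- arithmetic
  have hnorm' : x ^ 2 + 2 * (p * q) * y ^ 2 = p * (Ideal.absNorm c0 : ℤ) ^ 2 := by
    rw [← hnorm]
    push_cast
    ring
  have hnorm2 : x ^ 2 + 2 * ((p * q : ℕ) : ℤ) * y ^ 2 = p * (Ideal.absNorm c0 : ℤ) ^ 2 := by
    push_cast
    exact hnorm'
  have hms := mod_sq hp8 hnorm2 hc8 hy4 hx
  have he8 : e8 x = 1 ↔ (x % 8 = 1 ∨ x % 8 = 7) := by
    unfold e8
    split_ifs with h1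
    · exact ⟨fun _ => h1, fun _ => rfl⟩
    · exact ⟨fun h2 => by norm_num at h2, fun h2 => absurd h2 h1⟩
  have hpar : Even n ↔ Even ((p - 1) / 8) := by
    rw [← hiff, he8, hms]
  have hcp : Nat.Coprime (Ideal.absNorm (c : Ideal (𝓞 K))) p :=
    Nat.Coprime.coprime_dvd_right ⟨4 * q, by ring⟩ hcop
  have hsc := sym_c hp hq hp8 hq8 hb hS hτ hcw hcp hsy
  have hqt := quart (q := q) hp hp8 hnorm' hpx hxy hx
  constructor
  · rw [hqt]
    have h1 : jacobiSym (Ideal.absNorm c0) p = (-1) ^ n := hsc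
    rw [h1]
    push_cast
    rcases Nat.even_or_odd n with h2 | h2
    · rw [h2.neg_one_pow, (hpar.1 h2).neg_one_pow]
    · have h3 : Odd ((p - 1) / 8) := by
        rw [← Nat.not_even_iff_odd, ← hpar, Nat.not_even_iff_odd]
        exact h2
      rw [h2.neg_one_pow, h3.neg_one_pow]
  · refine redei hp hq hp8 hq8 huv hnorm' hpx hxy hx hy4 hc8 ?_
    have h1 : Nat.Coprime (Ideal.absNorm c0) ((u * (p * q)).natAbs) := by
      refine Nat.Coprime.coprime_dvd_right ?_ hcM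
      rw [Int.natAbs_mul]
      refine ⟨4, ?_⟩
      have h2 : ((p : ℤ) * q).natAbs = p * q := by
        rw [Int.natAbs_mul, Int.natAbs_natCast, Int.natAbs_natCast]
      rw [h2]
      ring
    rw [Int.isCoprime_iff_gcd_eq_one]
    have h3 : Int.gcd ((Ideal.absNorm c0 : ℕ) : ℤ) (u * (p * q)) =
        Nat.gcd (Ideal.absNorm c0) ((u * (p * q)).natAbs) := by
      rw [Int.gcd_def]
      congr 1
    rw [h3]
    exact h1

/-- If `2 p q` is not a congruent number, `p = 1`, `q = 3 (mod 8)` prime, then three conditions hold. -/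
theorem main_z6 {p q : ℕ} (hp : p.Prime) (hq : q.Prime) (hp8 : p % 8 = 1) (hq8 : q % 8 = 3)
    (hnc : ¬ IsCongruent (2 * p * q)) :
    (2 : ZMod p) ^ ((p - 1) / 4) = 1 ∧ (q : ZMod p) ^ ((p - 1) / 4) = (-1) ^ ((p - 1) / 8) ∧
      ∀ u v : ℤ, u ^ 2 + 2 * v ^ 2 = p * q → jacobiSym u p = 1 := by
  have h2 : (2 : ZMod p) ^ ((p - 1) / 4) = 1 := by
    by_contra h
    exact hnc (W6.main_w6 hp hq hp8 h hq8)
  refine ⟨h2, ?_, fun u v huv => (core_z hp hq hp8 hq8 hnc huv).2⟩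
  obtain ⟨u, v, -, -, -, -, huv⟩ := W6.exists_uv hp hq hp8 hq8
  have h3 := (core_z hp hq hp8 hq8 hnc (u := u) (v := v) (by
    rw [huv]
    push_cast
    ring)).1
  rw [Nat.cast_mul, mul_pow, Nat.cast_ofNat, h2, one_mul] at h3
  exact h3

end Pool.Agent.Work.MP_8efaaa_nt.Z6
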