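import Mathlib
import Pool.Agent.Work.MP_8efaaa_nt.K7.Defs
import Pool.Agent.Work.MP_8efaaa_nt.K7.ARs
import Pool.Agent.Work.MP_8efaaa_nt.K7.ATu
import Pool.Agent.Work.MP_8efaaa_nt.K7.GAm
import Pool.Agent.Work.MP_8efaaa_nt.K7.GEx
import Pool.Agent.Work.MP_8efaaa_nt.K7.GPr
import Pool.Agent.Work.MP_8efaaa_nt.K7.GRm
import Pool.Agent.Work.MP_8efaaa_nt.K7.GSq
import Pool.Agent.Work.MP_8efaaa_nt.N7.ESub
import Pool.Agent.Work.MP_8efaaa_nt.N7.IBas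

/-!
# Z6/A7E (M): elements from fourth powers in the class group of `ℚ(√-pq)`, `p q = 7 (mod 8)`

Models: `K7/GEx.lean` (`exists_xyc`; its private lemma `GEx_princ`), `K7/GSq.lean` (the symbol of the norm), `W6/CEl.lean` (coprimality). `E = D ^ 2`. `exists_prim7` for the class `E⁻¹` and `M = 2 a`: `c`, `t`, `S - t ∈ c`, `n = absNorm c` odd, prime to `2 a`, `cl (idl c) = E⁻¹`.
`jacobiSym n p = 1`: `E⁻¹ = (D⁻¹)^2`; `exists_rep` (or `exists_prim7`) for `D` with norm prime to `2 a`: `k`, `cl (idl k) = D`; `c * (k * k)` is principal `= (μ)`, `2 μ = X + Y S` (`coords7`), `4 n (N k)^2 = X^2 + a Y^2` (`norm_half7'`), `p ∣ a`, `p ∤ n N k`: `jacobiSym (4 n (N k)^2) p = jacobiSym (X^2) p = 1`.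
`el_p`: `I = r6 S p` (norm `p`: `norm_r7`), `I * (c * c)` is principal (`cl`: `D^4 * E⁻¹ * E⁻¹ = 1`), `= (μ)`, `2 μ = X + Y S`, `X^2 + a Y^2 = 4 p n^2`. `X`, `Y` odd would give `0 = 4 (mod 8)` (`a % 8 = 7`, `p n` odd); `X`, `Y` have the same parity, so `X = 2 x`, `Y = 2 y`: `x^2 + a y^2 = p n^2`, `μ = x + y S`. `x` is odd: if `x` is even then `y` is odd and `x^2 + 7 = 1 (mod 8)` (`p = 1 (mod 8)`), `x^2 = 2`: impossible.
Coprime: let `r` be a prime with `r ∣ x`, `r ∣ y`; `r` odd; `r^2 ∣ p n^2`, so `r ∣ n`, `r ∤ 2 a`. `μ ∈ (r)`: `span {r} ∣ I * (c * c)`, coprime to `I` (contains `p`), so `span {r} ∣ c * c`, which contains `(S - t)^2 = (t^2 - a) - 2 t S`, so `r ∣ 2 t`, `r ∣ t^2 - a` (coordinates of an element `r (u + v S)/2`, `r` odd), `r ∣ a`: contradiction.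
`el_v`: the same with `I = v.asIdeal` (norm `2`: `norm_v7`): `X^2 + a Y^2 = 8 n^2`. `X`, `Y` even would give `x^2 + a y^2 = 2 n^2 = 2 (mod 16)`, impossible (see `GEx_int`); so `X`, `Y` are odd. Coprime: as before (`r` odd, coprime to `I` which contains `2`).
-/

set_option autoImplicit false

namespace Pool.Agent.Work.MP_8efaaa_nt.Z6

open IsDedekindDomain NumberField Pool.Agent.Work.MP_787500_nt.HC
open Pool.Agent.Work.MP_8efaaa_nt.T Pool.Agent.Work.MP_8efaaa_nt.R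
open Pool.Agent.Work.MP_8efaaa_nt.N5 Pool.Agent.Work.MP_8efaaa_nt.N7
open Pool.Agent.Work.MP_8efaaa_nt.K7
open scoped nonZeroDivisors

variable {K : Type*} [Field K] [NumberField K] {a : ℕ} {s : K} {S : 𝓞 K}

private theorem a7_sq8 {x : ℤ} (h : Odd x) : x ^ 2 % 8 = 1 := by
  obtain ⟨k, rfl⟩ := h
  obtain ⟨j, hj⟩ := Int.even_mul_succ_self k
  have h1 : (2 * k + 1) ^ 2 = 8 * j + 1 := by linear_combination 4 * hj
  omega

private theorem a7_princ {I : Ideal (𝓞 K)} (hI : I ≠ ⊥) (h : cl (idl I) = 1) :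
    ∃ μ : 𝓞 K, I = Ideal.span {μ} := by
  obtain ⟨x, hx⟩ := cl_eq_iff.1 (show cl (1 : Idl K) = cl (idl I) by rw [h, cl_one])
  rw [mul_one] at hx
  have h1 : ((I : Ideal (𝓞 K)) : FractionalIdeal (𝓞 K)⁰ K) =
      FractionalIdeal.spanSingleton (𝓞 K)⁰ (x : K) := by
    rw [← idl_ne hI, hx]
    unfold prin
    rw [coe_toPrincipalIdeal]
  have h2 : (x : K) ∈ ((I : Ideal (𝓞 K)) : FractionalIdeal (𝓞 K)⁰ K) := by
    rw [h1]
    exact FractionalIdeal.mem_spanSingleton_self _ _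
  obtain ⟨μ, hμ, hμx⟩ := (FractionalIdeal.mem_coeIdeal _).1 h2
  refine ⟨μ, ?_⟩
  apply FractionalIdeal.coeIdeal_injective (K := K)
  show ((I : Ideal (𝓞 K)) : FractionalIdeal (𝓞 K)⁰ K) =
    ((Ideal.span {μ} : Ideal (𝓞 K)) : FractionalIdeal (𝓞 K)⁰ K)
  rw [h1, FractionalIdeal.coeIdeal_span_singleton, hμx]

private theorem a7_S2 (hb : Base K a s) (hS : algebraMap (𝓞 K) K S = s) :
    S * S = -(a : 𝓞 K) := by
  apply FaithfulSMul.algebraMap_injective (𝓞 K) K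
  rw [map_mul, hS, map_neg, map_natCast, ← hb.sq, pow_two]

private theorem a7_jac (hb : Base K a s) (hS : algebraMap (𝓞 K) K S = s) {p : ℕ} (hp : p.Prime)
    (hp2 : p ≠ 2) (hpa : p ∣ a) {c : Ideal (𝓞 K)} (hc : c ≠ ⊥)
    (hcp : Nat.Coprime (Ideal.absNorm c) p) {D : ClassGroup (𝓞 K)}
    (h : cl (idl c) = (D ^ 2)⁻¹) : jacobiSym (Ideal.absNorm c) p = 1 := by
  obtain ⟨k, hk0, hk2, hkc⟩ := exists_rep (K := K) hp.ne_zero D
  have hkk : k * k ≠ ⊥ := mul_ne_zero hk0 hk0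
  have hck : c * (k * k) ≠ ⊥ := mul_ne_zero hc hkk
  obtain ⟨μ, hμ⟩ := a7_princ hck (by
    rw [idl_mul hc hkk, idl_mul hk0 hk0, cl_mul, cl_mul, hkc, h]
    group)
  obtain ⟨X, Y, hXY, -⟩ := coords7 hb hS μ
  have h4 := norm_half7' hb hS hXY
  rw [← hμ, map_mul, map_mul] at h4
  obtain ⟨d, hd⟩ := hpa
  have h5 : jacobiSym (X ^ 2) p =
      jacobiSym ((Ideal.absNorm c : ℤ) * (2 * (Ideal.absNorm k : ℤ)) ^ 2) p := by
    refine jacobiSym.mod_left' (Int.modEq_iff_dvd.2 ⟨d * Y ^ 2, ?_⟩)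
    have hd' : (a : ℤ) = p * d := by exact_mod_cast hd
    push_cast at h4
    rw [hd'] at h4
    linear_combination h4
  have h6 : Int.gcd (2 * (Ideal.absNorm k : ℤ)) p = 1 := by
    have h7 : Nat.Coprime (2 * Ideal.absNorm k) p :=
      Nat.Coprime.mul_left ((Nat.coprime_primes Nat.prime_two hp).2 (Ne.symm hp2)) hk2
    have h8 : (2 * (Ideal.absNorm k : ℤ)) = ((2 * Ideal.absNorm k : ℕ) : ℤ) := by push_cast; rfl
    rw [h8, Int.gcd_natCast_natCast]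
    exact h7
  rw [jacobiSym.mul_left, jacobiSym.sq_one' h6, mul_one, jacobiSym.pow_left] at h5
  have h9 : Int.gcd (Ideal.absNorm c : ℤ) p = 1 := by
    rw [Int.gcd_natCast_natCast]
    exact hcp
  have h10 := jacobiSym.ne_zero h9
  rcases jacobiSym.trichotomy X p with e | e | e
  · rw [e] at h5
    exact absurd h5.symm h10
  · rw [e] at h5
    rw [← h5]
    norm_num
  · rw [e] at h5
    rw [← h5]
    norm_num

private theorem a7_cop (hb : Base K a s) (hS : algebraMap (𝓞 K) K S = s) {I c : Ideal (𝓞 K)}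
    {t X Y : ℤ} {μ : 𝓞 K} {N : ℕ} (hI : (N : 𝓞 K) ∈ I) (hc : S - (t : 𝓞 K) ∈ c)
    (hμ : I * (c * c) = Ideal.span {μ}) (hXY : 2 * μ = X + Y * S)
    (hnorm : 4 * ((N * (Ideal.absNorm c * Ideal.absNorm c) : ℕ) : ℤ) = X ^ 2 + a * Y ^ 2)
    (hna : Nat.Coprime (Ideal.absNorm c) a) {r : ℕ} (hr : r.Prime) (hr2 : r ≠ 2)
    (hrN : ¬ r ∣ N) (hX : (r : ℤ) ∣ X) (hY : (r : ℤ) ∣ Y) : False := by
  have hri : Prime (r : ℤ) := Nat.prime_iff_prime_int.1 hr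
  obtain ⟨X', rfl⟩ := hX
  obtain ⟨Y', rfl⟩ := hY
  have hr4 : ¬ (r : ℤ) ∣ 4 * N := by
    intro h1
    have h2 : r ∣ 4 * N := by exact_mod_cast h1
    rcases (Nat.Prime.dvd_mul hr).1 h2 with h3 | h3
    · have h4 : r ∣ 2 := hr.dvd_of_dvd_pow (n := 2) h3
      exact hr2 ((Nat.prime_dvd_prime_iff_eq hr Nat.prime_two).1 h4)
    · exact hrN h3
  have hrn : r ∣ Ideal.absNorm c := by
    have h1 : (r : ℤ) ∣ 4 * N * ((Ideal.absNorm c : ℤ) * Ideal.absNorm c) := by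
      refine ⟨r * (X' ^ 2 + a * Y' ^ 2), ?_⟩
      push_cast at hnorm
      linear_combination hnorm
    rcases hri.dvd_or_dvd h1 with h2 | h2
    · exact absurd h2 hr4
    · rcases hri.dvd_or_dvd h2 with h3 | h3 <;> exact Int.natCast_dvd_natCast.1 h3
  have hro : Odd r := hr.odd_of_ne_two hr2
  obtain ⟨j, hj⟩ := hro
  have hμr : μ ∈ Ideal.span {(r : 𝓞 K)} := by
    rw [Ideal.mem_span_singleton]
    refine ⟨μ - j * (X' + Y' * S), ?_⟩
    have hj' : (r : 𝓞 K) = 2 * j + 1 := by rw [hj]; push_cast; ring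
    push_cast at hXY
    linear_combination -(j : 𝓞 K) * hXY - μ * hj'
  have hmem : (N : 𝓞 K) * ((S - t) * (S - t)) ∈ Ideal.span {(r : 𝓞 K)} := by
    have h1 : (N : 𝓞 K) * ((S - t) * (S - t)) ∈ I * (c * c) :=
      Ideal.mul_mem_mul hI (Ideal.mul_mem_mul hc hc)
    rw [hμ] at h1
    exact ((Ideal.span_singleton_le_iff_mem _).2 hμr) h1
  obtain ⟨z, hz⟩ := Ideal.mem_span_singleton.1 hmem
  obtain ⟨u, w, huw, -⟩ := coords7 hb hS z
  have hS2 := a7_S2 hb hS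
  have h0 : ((2 * N * (t ^ 2 - a) - r * u : ℤ) : 𝓞 K) + ((-(4 * N * t) - r * w : ℤ) : 𝓞 K) * S = 0 := by
    push_cast
    linear_combination 2 * hz + (r : 𝓞 K) * huw - 2 * (N : 𝓞 K) * hS2
  obtain ⟨h1, h2⟩ := coords7_uniq hb hS h0
  have hrt : (r : ℤ) ∣ t := by
    have h3 : (r : ℤ) ∣ 4 * N * t := ⟨-w, by linarith⟩
    rcases hri.dvd_or_dvd h3 with h4 | h4
    · exact absurd h4 hr4
    · exact h4
  have hra : (r : ℤ) ∣ a := by
    have h3 : (r : ℤ) ∣ 4 * N * (t ^ 2 - a) := ⟨2 * u, by linarith⟩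
    rcases hri.dvd_or_dvd h3 with h4 | h4
    · exact absurd h4 hr4
    · have h5 : (r : ℤ) ∣ t ^ 2 := dvd_pow hrt two_ne_zero
      have h6 := dvd_sub h5 h4
      rwa [sub_sub_cancel] at h6
  have hra' : r ∣ a := Int.natCast_dvd_natCast.1 hra
  have h7 := Nat.dvd_gcd hrn hra'
  rw [Nat.Coprime] at hna
  rw [hna] at h7
  exact hr.one_lt.ne' (Nat.dvd_one.1 h7)

private theorem a7_core (hb : Base K a s) (hS : algebraMap (𝓞 K) K S = s) {I : Ideal (𝓞 K)}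
    (hI0 : I ≠ ⊥) {D : ClassGroup (𝓞 K)} (hD : D ^ 4 = cl (idl I)) {p : ℕ} (hp : p.Prime)
    (hp2 : p ≠ 2) (hpa : p ∣ a) :
    ∃ (X Y : ℤ) (n : ℕ), X ^ 2 + a * Y ^ 2 = 4 * Ideal.absNorm I * (n : ℤ) ^ 2 ∧
      (2 : ℤ) ∣ X - Y ∧ Odd n ∧ Nat.Coprime n a ∧ jacobiSym n p = 1 ∧
      ∀ r : ℕ, r.Prime → r ≠ 2 → ¬ r ∣ Ideal.absNorm I → (r : ℤ) ∣ X → (r : ℤ) ∣ Y → False := by
  have ha0 : a ≠ 0 := by
    have := hb.mod
    omega
  obtain ⟨c, t, hco, hca, hct, hcc⟩ := exists_prim7 hb hS (D ^ 2)⁻¹ ha0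
  have hc0 : c ≠ ⊥ := oddI_ne7 hco
  have hcc0 : c * c ≠ ⊥ := mul_ne_zero hc0 hc0
  obtain ⟨μ, hμ⟩ := a7_princ (mul_ne_zero hI0 hcc0 : I * (c * c) ≠ ⊥) (by
    rw [idl_mul hI0 hcc0, idl_mul hc0 hc0, cl_mul, cl_mul, hcc, ← hD]
    group)
  obtain ⟨X, Y, hXY, h2⟩ := coords7 hb hS μ
  have h4 := norm_half7' hb hS hXY
  rw [← hμ, map_mul, map_mul] at h4
  refine ⟨X, Y, Ideal.absNorm c, ?_, h2, hco, hca, ?_, ?_⟩
  · rw [← h4]
    push_cast
    ring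
  · exact a7_jac hb hS hp hp2 hpa hc0 (Nat.Coprime.coprime_dvd_right hpa hca) hcc
  · intro r hr hr2 hrN hX hY
    exact a7_cop hb hS (Ideal.absNorm_mem I) hct hμ hXY h4 hca hr hr2 hrN hX hY

theorem el_p (hb : Base K a s) (hS : algebraMap (𝓞 K) K S = s) {p q : ℕ} (hp : p.Prime)
    (hq : q.Prime) (hp8 : p % 8 = 1) (hq8 : q % 8 = 7) (ha : a = p * q)
    {D : ClassGroup (𝓞 K)} (hD : D ^ 4 = cl (idl (K6.r6 S p))) :
    ∃ (x y : ℤ) (n : ℕ), x ^ 2 + p * q * y ^ 2 = p * (n : ℤ) ^ 2 ∧ IsCoprime x y ∧ Odd x ∧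
      Odd n ∧ jacobiSym n p = 1 := by
  have hpa : p ∣ a := ha ▸ dvd_mul_right p q
  have hp2 : p ≠ 2 := by omega
  have hnr := norm_r7 hb hS hpa
  have hI0 : K6.r6 S p ≠ ⊥ := by
    intro h
    rw [h, Ideal.absNorm_bot] at hnr
    exact hp.ne_zero hnr.symm
  obtain ⟨X, Y, n, hN, hpar, hno, hna, hj, hcop⟩ := a7_core hb hS hI0 hD hp hp2 hpa
  rw [hnr] at hN hcop
  have ha8 : (a : ℤ) % 8 = 7 := by
    have := hb.mod
    omega
  have hpri : Prime (p : ℤ) := Nat.prime_iff_prime_int.1 hp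
  have hnz : (n : ℤ) ^ 2 % 8 = 1 := a7_sq8 (by exact_mod_cast hno)
  have hp8' : (p : ℤ) % 8 = 1 := by omega
  have hpn : ((p : ℤ) * (n : ℤ) ^ 2) % 8 = 1 := by
    rw [Int.mul_emod, hp8', hnz]
    norm_num
  have hXe : Even X := by
    by_contra hXo
    rw [Int.not_even_iff_odd] at hXo
    have hYo : Odd Y := by
      rcases Int.even_or_odd Y with h | h
      · exfalso
        obtain ⟨u, hu⟩ := hXo
        obtain ⟨w, hw⟩ := h
        omega
      · exact h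
    have h1 := a7_sq8 hXo
    have h2 := a7_sq8 hYo
    have h3 : ((a : ℤ) * Y ^ 2) % 8 = 7 := by
      rw [Int.mul_emod, ha8, h2]
      norm_num
    have h4 : 4 * (p : ℤ) * (n : ℤ) ^ 2 = 4 * (p * (n : ℤ) ^ 2) := by ring
    rw [h4] at hN
    omega
  have hYe : Even Y := by
    obtain ⟨u, hu⟩ := hXe
    rcases Int.even_or_odd Y with h | h
    · exact h
    · exfalso
      obtain ⟨w, hw⟩ := h
      omega
  obtain ⟨x, hx⟩ := hXe
  obtain ⟨y, hy⟩ := hYe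
  have hX2 : X = 2 * x := by omega
  have hY2 : Y = 2 * y := by omega
  have hmain : x ^ 2 + a * y ^ 2 = p * (n : ℤ) ^ 2 := by
    rw [hX2, hY2] at hN
    linarith
  have hxo : Odd x := by
    by_contra hxe
    rw [Int.not_odd_iff_even] at hxe
    obtain ⟨u, hu⟩ := hxe
    have h1 : x ^ 2 = 4 * u ^ 2 := by
      rw [hu]
      ring
    rcases Int.even_or_odd y with ⟨w, hw⟩ | h
    · have h2 : (a : ℤ) * y ^ 2 = 4 * (a * w ^ 2) := by
        rw [hw]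
        ring
      omega
    · have h2 := a7_sq8 h
      have h3 : ((a : ℤ) * y ^ 2) % 8 = 7 := by
        rw [Int.mul_emod, ha8, h2]
        norm_num
      omega
  refine ⟨x, y, n, ?_, ?_, hxo, hno, hj⟩
  · rw [← hmain, ha]
    push_cast
    ring
  · rw [Int.isCoprime_iff_gcd_eq_one]
    by_contra hg
    obtain ⟨r, hr, hrg⟩ := Nat.exists_prime_and_dvd hg
    have hrx : (r : ℤ) ∣ x := (Int.natCast_dvd_natCast.2 hrg).trans (Int.gcd_dvd_left _ _)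
    have hry : (r : ℤ) ∣ y := (Int.natCast_dvd_natCast.2 hrg).trans (Int.gcd_dvd_right _ _)
    have hr2 : r ≠ 2 := by
      rintro rfl
      obtain ⟨u, hu⟩ := hxo
      obtain ⟨w, hw⟩ := hrx
      push_cast at hw
      omega
    refine hcop r hr hr2 ?_ (by rw [hX2]; exact hrx.mul_left 2) (by rw [hY2]; exact hry.mul_left 2)
    intro hrp
    have hrp' : r = p := (Nat.prime_dvd_prime_iff_eq hr hp).1 hrp
    subst hrp'
    obtain ⟨u, hu⟩ := hrx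
    obtain ⟨w, hw⟩ := hry
    have h1 : (r : ℤ) ∣ (n : ℤ) ^ 2 := by
      refine ⟨u ^ 2 + a * w ^ 2, ?_⟩
      refine mul_left_cancel₀ hpri.ne_zero ?_
      rw [← hmain, hu, hw]
      ring
    have h2 : r ∣ n := by
      have := hpri.dvd_of_dvd_pow h1
      exact Int.natCast_dvd_natCast.1 this
    have h3 := Nat.dvd_gcd h2 hpa
    rw [Nat.Coprime] at hna
    rw [hna] at h3
    exact hp.one_lt.ne' (Nat.dvd_one.1 h3)

theorem el_v (hb : Base K a s) (hS : algebraMap (𝓞 K) K S = s) {p q : ℕ} (hp : p.Prime)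
    (hq : q.Prime) (hp8 : p % 8 = 1) (hq8 : q % 8 = 7) (ha : a = p * q)
    {v : HeightOneSpectrum (𝓞 K)} (hv : (2 : 𝓞 K) ∈ v.asIdeal)
    {D : ClassGroup (𝓞 K)} (hD : D ^ 4 = cl (pr v)) :
    ∃ (x y : ℤ) (n : ℕ), x ^ 2 + p * q * y ^ 2 = 8 * (n : ℤ) ^ 2 ∧ IsCoprime x y ∧ Odd x ∧
      Odd y ∧ Odd n ∧ jacobiSym n p = 1 := by
  have hpa : p ∣ a := ha ▸ dvd_mul_right p q
  have hp2 : p ≠ 2 := by omega
  have hnr := norm_v7 hb hv
  rw [← idl_pr] at hD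
  obtain ⟨X, Y, n, hN, hpar, hno, hna, hj, hcop⟩ := a7_core hb hS v.ne_bot hD hp hp2 hpa
  rw [hnr] at hN hcop
  have ha8 : (a : ℤ) % 8 = 7 := by
    have := hb.mod
    omega
  have hnz : (n : ℤ) ^ 2 % 8 = 1 := a7_sq8 (by exact_mod_cast hno)
  have hXo : Odd X := by
    by_contra hXe
    rw [Int.not_odd_iff_even] at hXe
    obtain ⟨x, hx⟩ := hXe
    obtain ⟨y, hy⟩ : ∃ y, Y = 2 * y := by
      obtain ⟨w, hw⟩ := hpar
      exact ⟨x - w, by omega⟩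
    have hX2 : X = 2 * x := by omega
    have hmain : x ^ 2 + a * y ^ 2 = 2 * (n : ℤ) ^ 2 := by
      rw [hX2, hy] at hN
      push_cast at hN
      linarith
    rcases Int.even_or_odd x with ⟨u, hu⟩ | hxo
    · have h1 : x ^ 2 = 4 * u ^ 2 := by
        rw [hu]
        ring
      rcases Int.even_or_odd y with ⟨w, hw⟩ | h
      · have h2 : (a : ℤ) * y ^ 2 = 4 * (a * w ^ 2) := by
          rw [hw]
          ring
        omega
      · have h2 := a7_sq8 h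
        have h3 : ((a : ℤ) * y ^ 2) % 8 = 7 := by
          rw [Int.mul_emod, ha8, h2]
          norm_num
        omega
    · have h1 := a7_sq8 hxo
      rcases Int.even_or_odd y with ⟨w, hw⟩ | h
      · have h2 : (a : ℤ) * y ^ 2 = 4 * (a * w ^ 2) := by
          rw [hw]
          ring
        omega
      · have h2 := a7_sq8 h
        have h3 : ((a : ℤ) * y ^ 2) % 8 = 7 := by
          rw [Int.mul_emod, ha8, h2]
          norm_num
        omega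
  have hYo : Odd Y := by
    obtain ⟨u, hu⟩ := hXo
    rcases Int.even_or_odd Y with h | h
    · exfalso
      obtain ⟨w, hw⟩ := h
      omega
    · exact h
  refine ⟨X, Y, n, ?_, ?_, hXo, hYo, hno, hj⟩
  · rw [ha] at hN
    push_cast at hN ⊢
    linarith
  · rw [Int.isCoprime_iff_gcd_eq_one]
    by_contra hg
    obtain ⟨r, hr, hrg⟩ := Nat.exists_prime_and_dvd hg
    have hrx : (r : ℤ) ∣ X := (Int.natCast_dvd_natCast.2 hrg).trans (Int.gcd_dvd_left _ _)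
    have hry : (r : ℤ) ∣ Y := (Int.natCast_dvd_natCast.2 hrg).trans (Int.gcd_dvd_right _ _)
    have hr2 : r ≠ 2 := by
      rintro rfl
      obtain ⟨u, hu⟩ := hXo
      obtain ⟨w, hw⟩ := hrx
      push_cast at hw
      omega
    exact hcop r hr hr2 (fun h => hr2 ((Nat.prime_dvd_prime_iff_eq hr Nat.prime_two).1 h)) hrx hry

end Pool.Agent.Work.MP_8efaaa_nt.Z6
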