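import Mathlib
import Pool.Agent.Work.MP_8efaaa_nt.Rf.Ex
import Pool.Agent.Work.MP_8efaaa_nt.Rg.KOut
import Pool.Agent.Work.MP_8efaaa_nt.N5.EMain
import Pool.Agent.Work.MP_8efaaa_nt.Z6.A7P

/-!
# Z6/MA5: the class `5`, two prime factors
-/

set_option autoImplicit false

namespace Pool.Agent.Work.MP_8efaaa_nt.Z6

open NumberField Pool.Agent.Work.MP_8efaaa_nt.R Pool.Agent.Work.MP_8efaaa_nt.N5
  Pool.Agent.Work.MP_8efaaa_nt.Rf Pool.Agent.Work.MP_8efaaa_nt.Rg

private theorem div_pq {p q d : ℕ} (hp : p.Prime) (hq : q.Prime) (h : d ∣ p * q) :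
    d = 1 ∨ d = p ∨ d = q ∨ d = p * q := by
  obtain ⟨d1, d2, h1, h2, rfl⟩ := (Nat.dvd_mul (k := d) (m := p) (n := q)).1 h
  rcases (Nat.dvd_prime hp).1 h1 with rfl | rfl <;>
    rcases (Nat.dvd_prime hq).1 h2 with rfl | rfl
  · left; rfl
  · right; right; left; rw [one_mul]
  · right; left; rw [mul_one]
  · right; right; right; rfl

theorem main_5 {p q : ℕ} (hp : p.Prime) (hq : q.Prime) (hp8 : p % 8 = 1) (hq8 : q % 8 = 5)
    (hnc : ¬ IsCongruent (p * q)) :
    (q : ZMod p) ^ ((p - 1) / 4) = 1 ∧ (p : ZMod q) ^ ((q - 1) / 4) = 1 := by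
  have hne : p ≠ q := by
    rintro rfl
    omega
  have hsf : Squarefree (p * q) := by
    rw [Nat.squarefree_mul ((Nat.coprime_primes hp hq).2 hne)]
    exact ⟨hp.squarefree, hq.squarefree⟩
  have ha : (p * q) % 8 = 5 := by rw [Nat.mul_mod, hp8, hq8]
  obtain ⟨K, _, _, s, hb⟩ := Rf.exists_base hsf ha
  have hq4 : ∀ l : ℕ, l.Prime → l ∣ p * q → l % 4 = 1 := by
    intro l hl hlpq
    rcases (Nat.Prime.dvd_mul hl).1 hlpq with h | h
    · rw [(Nat.prime_dvd_prime_iff_eq hl hp).1 h]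
      omega
    · rw [(Nat.prime_dvd_prime_iff_eq hl hq).1 h]
      omega
  have hno : ∀ b : Ideal (𝓞 K), OddI b → ∃ x y : ℤ, ∃ δ : 𝓞 K,
      algebraMap (𝓞 K) K δ = x + 4 * y * s ∧
      b ^ (Fintype.card (ClassGroup (𝓞 K)) / 2) = Ideal.span {δ} ∧ ¬ e8 (x + 4 * y) = -1 := by
    intro b hbo
    by_contra hcon
    exact hnc (main5b hb hbo fun x y δ h1 h2 => by
      by_contra h3
      exact hcon ⟨x, y, δ, h1, h2, h3⟩)
  have hdv : dv (p * q) ⊆ {1, p} := by
    intro d hd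
    unfold dv at hd
    rw [Finset.mem_filter, Nat.mem_divisors] at hd
    rw [Finset.mem_insert, Finset.mem_singleton]
    obtain ⟨⟨h1, -⟩, h2⟩ := hd
    rcases div_pq hp hq h1 with h | h | h | h
    · exact Or.inl h
    · exact Or.inr h
    · rw [h] at h2
      omega
    · rw [h, ha] at h2
      omega
  have hc2 : (dv (p * q)).card ≤ 2 := (Finset.card_le_card hdv).trans Finset.card_le_two
  obtain ⟨-, h2⟩ := k_out hb hq4 hno (by omega)
  obtain ⟨d, e, hde, hd8, hd1, x, y, w, hxy, hco, hx, -⟩ := h2 hc2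
  have hdp : d = p := by
    rcases div_pq hp hq (Dvd.intro e hde) with h | h | h | h
    · omega
    · exact h
    · rw [h] at hd8
      omega
    · rw [h, ha] at hd8
      omega
  subst hdp
  have heq : e = q := Nat.eq_of_mul_eq_mul_left hp.pos hde
  subst heq
  exact conic5 hp hq hp8 hq8 hxy hco hx

end Pool.Agent.Work.MP_8efaaa_nt.Z6
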