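import Mathlib
import Pool.Agent.Work.MP_8efaaa_nt.V6.Defs
import Pool.Agent.Work.MP_8efaaa_nt.V6.GPi
import Pool.Agent.Work.MP_8efaaa_nt.V6.PEx
import Pool.Agent.Work.MP_8efaaa_nt.K6.ARg

/-!
# Z6/Pw (S-M): powers and points

`kk` is `V6.kk_px`, `P = PP z k v`, all ideals odd; `clN` of an ideal of `M1 K` is the class.
`pw_q`: `g = clN u ^ n`, `g * g = 1`, so (`hG`) `g = 1` or `g = clN ρ`. If `g = 1`: `kk` for `u ^ n` and `1`: `P (u ^ n * y) = P y + ε`, `ε + ε = 0`; apply it twice: `P (u ^ (2 n) * y) = P (u ^ n * (u ^ n * y)) = P y + ε + ε`. If `g = clN ρ`: `P (u ^ n * y) = P (ρ * y) + ε`, so `P (u ^ (2n) * y) = P (ρ * (u ^ n * y)) + ε = P (u ^ n * (ρ * y)) + ε = P (ρ * (ρ * y)) + ε + ε = P ((d) * y) = P y` (`r6_sq`: `r6 S d * r6 S d = (d)`, `V6.nat_px`, `d % 8 = 1`).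
`pw_c`: `kk` for `u ^ n` and `c` (`hc`): `P (u ^ n * y) = P (c * y) + ε`; twice: `P (u ^ (2 n)) = P (c * u ^ n) + ε = P (u ^ n * c) + ε = P (c * c) + ε + ε`.
`pw_e`: `kk` for `c * c` and `ρ` (`hcc`): `P (c * c * y) = P (ρ * y) + ε`, `ε + ε = 0`. `y = 1`: first claim. `y = cj τ c`: `c * c * cj τ c = (N c) * c` (`norm_cj6`), `V6.nat_px` (`N c % 8 = 1`): `P c = P (ρ * cj τ c) + ε`. And `span {γ} * c = ρ * (cj τ c * cj τ c) * c = (N c) * (ρ * cj τ c)`, so `P (span {γ} * c) = P (ρ * cj τ c) = P c + ε`.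
-/

set_option autoImplicit false

namespace Pool.Agent.Work.MP_8efaaa_nt.Z6

open NumberField Pool.Agent.Work.MP_8efaaa_nt.R Pool.Agent.Work.MP_8efaaa_nt.N5
  Pool.Agent.Work.MP_8efaaa_nt.K6 Pool.Agent.Work.MP_8efaaa_nt.W14 Pool.Agent.Work.MP_8efaaa_nt.V6
open scoped Classical nonZeroDivisors

variable {K F : Type*} [Field K] [NumberField K] [Field F] [NumberField F] [Algebra K F] {a : ℕ}
  {s : K} {S : 𝓞 K} {τ : 𝓞 K ≃+* 𝓞 K} {ζ : F} {w : ℕ → F} {z k v : Ideal (𝓞 K) → F}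
  {κ : F ≃ₐ[ℚ] F}

private theorem pw_odd {c d : Ideal (𝓞 K)} (hc : OddI c) (hd : OddI d) : OddI (c * d) := by
  unfold OddI at *
  rw [map_mul]
  exact hc.mul hd

private theorem pw_odd_one : OddI (1 : Ideal (𝓞 K)) := by
  unfold OddI
  rw [map_one]
  exact odd_one

private theorem pw_nat (hb : B6 K a s) (hS : algebraMap (𝓞 K) K S = s)
    (hU : UD6 K F a s S τ ζ w z k v κ) {n : ℕ} (hn : n % 8 = 1) {c : Ideal (𝓞 K)} (hc : OddI c) :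
    PP z k v (Ideal.span {(n : 𝓞 K)} * c) = PP z k v c := by
  have h := nat_px hb hS hU (n := n) (by rw [Nat.odd_iff]; omega) hc
  rw [if_pos (Or.inl hn), add_zero] at h
  exact h

theorem pw_q (hb : B6 K a s) (hS : algebraMap (𝓞 K) K S = s) (hτ : τ S = -S)
    (ha : a % 16 = 6) (hU : UD6 K F a s S τ ζ w z k v κ) {d : ℕ} (hd : d ∣ a)
    (hd8 : d % 8 = 1) {ρ u : M1 K} (hρ : (ρ : Ideal (𝓞 K)) = r6 S d)
    (hG : ∀ g : CG S, g * g = 1 ↔ g = 1 ∨ g = clN S ρ) {n : ℕ}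
    (hu : clN S u ^ (2 * n) = 1) {y : Ideal (𝓞 K)} (hy : OddI y) :
    PP z k v ((u : Ideal (𝓞 K)) ^ (2 * n) * y) = PP z k v y := by
  have hun : OddI ((u : Ideal (𝓞 K)) ^ n) := M1.odd (u ^ n).2
  have e1 : (u : Ideal (𝓞 K)) ^ (2 * n) * y =
      (u : Ideal (𝓞 K)) ^ n * ((u : Ideal (𝓞 K)) ^ n * y) := by
    rw [two_mul, pow_add, mul_assoc]
  have h1 : clN S u ^ n * clN S u ^ n = 1 := by
    rw [← pow_add, ← two_mul]
    exact hu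
  rw [e1]
  rcases (hG _).1 h1 with h2 | h2
  · obtain ⟨ε, hε, -, hx⟩ := kk_px hb hS hτ ha hU (b := u ^ n) (c := 1)
      (by rw [map_pow, map_one]; exact h2)
    have hx' : ∀ x, OddI x → PP z k v ((u : Ideal (𝓞 K)) ^ n * x) = PP z k v x + ε := by
      intro x hox
      have h3 := hx x hox
      have h4 : ((1 : M1 K) : Ideal (𝓞 K)) * x = x := one_mul x
      rw [h4] at h3
      exact h3
    rw [hx' _ (pw_odd hun hy), hx' _ hy, add_assoc, hε, add_zero]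
  · obtain ⟨ε, hε, -, hx⟩ := kk_px hb hS hτ ha hU (b := u ^ n) (c := ρ)
      (by rw [map_pow]; exact h2)
    have hx' : ∀ x, OddI x → PP z k v ((u : Ideal (𝓞 K)) ^ n * x) =
        PP z k v ((ρ : Ideal (𝓞 K)) * x) + ε := fun x hox => hx x hox
    have hro : OddI (ρ : Ideal (𝓞 K)) := M1.odd ρ.2
    rw [hx' _ (pw_odd hun hy)]
    have e2 : (ρ : Ideal (𝓞 K)) * ((u : Ideal (𝓞 K)) ^ n * y) =
        (u : Ideal (𝓞 K)) ^ n * ((ρ : Ideal (𝓞 K)) * y) := by ring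
    rw [e2, hx' _ (pw_odd hro hy), add_assoc, hε, add_zero, ← mul_assoc, hρ, r6_sq hb hS hd,
      pw_nat hb hS hU hd8 hy]

theorem pw_c (hb : B6 K a s) (hS : algebraMap (𝓞 K) K S = s) (hτ : τ S = -S)
    (ha : a % 16 = 6) (hU : UD6 K F a s S τ ζ w z k v κ) {u c : M1 K} {n : ℕ}
    (hc : clN S c = clN S u ^ n) :
    PP z k v ((u : Ideal (𝓞 K)) ^ (2 * n)) =
      PP z k v ((c : Ideal (𝓞 K)) * (c : Ideal (𝓞 K))) := by
  obtain ⟨ε, hε, -, hx⟩ := kk_px hb hS hτ ha hU (b := u ^ n) (c := c)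
    (by rw [map_pow]; exact hc.symm)
  have hx' : ∀ x, OddI x → PP z k v ((u : Ideal (𝓞 K)) ^ n * x) =
      PP z k v ((c : Ideal (𝓞 K)) * x) + ε := fun x hox => hx x hox
  have hun : OddI ((u : Ideal (𝓞 K)) ^ n) := M1.odd (u ^ n).2
  have e1 : (u : Ideal (𝓞 K)) ^ (2 * n) = (u : Ideal (𝓞 K)) ^ n * (u : Ideal (𝓞 K)) ^ n := by
    rw [two_mul, pow_add]
  rw [e1, hx' _ hun, mul_comm (c : Ideal (𝓞 K)), hx' _ (M1.odd c.2), add_assoc, hε, add_zero]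

theorem pw_e (hb : B6 K a s) (hS : algebraMap (𝓞 K) K S = s) (hτ : τ S = -S)
    (ha : a % 16 = 6) (hU : UD6 K F a s S τ ζ w z k v κ) {ρ c : M1 K} {γ : 𝓞 K}
    (hcc : clN S c * clN S c = clN S ρ)
    (hγ : Ideal.span {γ} = (ρ : Ideal (𝓞 K)) * (cj τ (c : Ideal (𝓞 K)) * cj τ (c : Ideal (𝓞 K)))) :
    ∃ ε : (cQ F).Point, ε + ε = 0 ∧
      PP z k v ((c : Ideal (𝓞 K)) * (c : Ideal (𝓞 K))) = PP z k v (ρ : Ideal (𝓞 K)) + ε ∧
      PP z k v (Ideal.span {γ} * (c : Ideal (𝓞 K))) = PP z k v (c : Ideal (𝓞 K)) + ε := by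
  obtain ⟨ε, hε, -, hx⟩ := kk_px hb hS hτ ha hU (b := c * c) (c := ρ)
    (by rw [map_mul]; exact hcc)
  have hx' : ∀ x, OddI x → PP z k v ((c : Ideal (𝓞 K)) * (c : Ideal (𝓞 K)) * x) =
      PP z k v ((ρ : Ideal (𝓞 K)) * x) + ε := fun x hox => hx x hox
  obtain ⟨n1, n2, -⟩ := norm_cj6 hb hS hτ (c : Ideal (𝓞 K))
  have hco : OddI (c : Ideal (𝓞 K)) := M1.odd c.2
  have hro : OddI (ρ : Ideal (𝓞 K)) := M1.odd ρ.2
  have hcj : OddI (cj τ (c : Ideal (𝓞 K))) := by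
    unfold OddI at hco ⊢
    rw [n1]
    exact hco
  have hc8 := M1.nrm c.2
  refine ⟨ε, hε, ?_, ?_⟩
  · have h1 := hx' 1 pw_odd_one
    rw [mul_one, mul_one] at h1
    exact h1
  · have h1 := hx' _ hcj
    have e1 : (c : Ideal (𝓞 K)) * (c : Ideal (𝓞 K)) * cj τ (c : Ideal (𝓞 K)) =
        Ideal.span {((Ideal.absNorm (c : Ideal (𝓞 K)) : ℕ) : 𝓞 K)} * (c : Ideal (𝓞 K)) := by
      rw [← n2]
      ring
    have e2 : Ideal.span {γ} * (c : Ideal (𝓞 K)) =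
        Ideal.span {((Ideal.absNorm (c : Ideal (𝓞 K)) : ℕ) : 𝓞 K)} *
          ((ρ : Ideal (𝓞 K)) * cj τ (c : Ideal (𝓞 K))) := by
      rw [hγ, ← n2]
      ring
    rw [e1, pw_nat hb hS hU hc8 hco] at h1
    rw [e2, pw_nat hb hS hU hc8 (pw_odd hro hcj), h1, add_assoc, hε, add_zero]

end Pool.Agent.Work.MP_8efaaa_nt.Z6
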